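import Pool.Agent.H21.NX.GenB
import Pool.Agent.H18.Ex.Final

/-!
# Module Conv: conversions between `fatForms` and `GI`/`GM`

Templates: `sat_of_vanishes`, `exists_special` (H18/Ex/Final).
-/

namespace Pool.Agent.H21.NX

open Finset MvPolynomial Pool.Agent.H18.Fat Pool.Agent.H18.Ex

namespace ConvX

theorem mem_Sx_coe {n d : ℕ} {α : Fin n →₀ ℕ} : (⇑α : Fin n → ℕ) ∈ Sx (Fin n) d ↔ α ∈ mons n d := by
  rw [mem_Sx, mem_mons, Finsupp.degree_eq_sum]

theorem symm_coe {n : ℕ} (α : Fin n →₀ ℕ) : Finsupp.equivFunOnFinite.symm (⇑α) = α := by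
  ext
  rfl

theorem finite_fat' {r d : ℕ} {ι : Type} (p : ι → Fin (r + 1) → ℂ) (m : ι → ℕ) :
    Module.Finite ℂ (fatForms r d p m) := by
  have h1 : fatForms r d p m ≤ LinearMap.range (toPoly (r + 1) d) := fun F hF =>
    ⟨_, exists_toPoly hF.1⟩
  exact Module.Finite.of_injective (Submodule.inclusion h1) (Submodule.inclusion_injective h1)

end ConvX

open ConvX

/-- `ell n (σ + 1) = binom(σ + n, n)` exponents (`card_mons`, or stars and bars). -/
theorem card_Sx (n σ : ℕ) : (Sx (Fin (n + 1)) σ).card = ell n (σ + 1) := by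
  unfold ell
  rw [show σ + 1 + n - 1 = σ + n by omega, ← card_mons]
  symm
  apply card_bij (fun (α : Fin (n + 1) →₀ ℕ) _ => (⇑α : Fin (n + 1) → ℕ))
  · intro α hα
    exact mem_Sx_coe.2 hα
  · intro α _ β _ h
    exact DFunLike.coe_injective h
  · intro a ha
    refine ⟨Finsupp.equivFunOnFinite.symm a, ?_, rfl⟩
    rw [← mem_Sx_coe]
    exact ha

theorem Sx_resid {ι : Type} [Fintype ι] [DecidableEq ι] (σ : ℕ) (hσ : 1 ≤ σ) (l : ι)
    (a : ι → ℕ) : a ∈ Sx ι (σ - 1) ↔ Function.update a l (a l + 1) ∈ Sx ι σ := by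
  rw [mem_Sx, mem_Sx, Finset.sum_update_of_mem (mem_univ l),
    ← Finset.add_sum_erase univ a (mem_univ l), Finset.sdiff_singleton_eq_erase]
  omega

/-- A function on `Sx` satisfying the conditions is the coefficient function of a form in
`fatForms`, which is zero. -/
theorem GI_of_fat {n d : ℕ} {κ : Type} (p : κ → Fin (n + 1) → ℂ) (m : κ → ℕ)
    (h : Module.finrank ℂ (fatForms n d p m) = 0) :
    GI (Sx (Fin (n + 1)) d) fun i => Kind.free (m i) := by
  classical
  refine ⟨p, fun f hf => ?_⟩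
  have hfin := finite_fat' (d := d) p m
  have hbot : fatForms n d p m = ⊥ := Submodule.finrank_eq_zero.1 h
  have hmem : toPoly (n + 1) d (fun α => f (⇑α.1)) ∈ fatForms n d p m := by
    refine ⟨toPoly_isHomogeneous _, fun i β hβ => ?_⟩
    rw [coeff_shift_toPoly]
    have h1 := hf i (⇑β) (by
      rw [Finsupp.degree_eq_sum] at hβ
      exact hβ)
    rw [← h1]
    apply sum_bij (fun (α : mons (n + 1) d) _ => (⇑α.1 : Fin (n + 1) → ℕ))
    · intro α _
      exact mem_Sx_coe.2 α.2
    · intro α _ α' _ hαα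
      exact Subtype.ext (DFunLike.coe_injective hαα)
    · intro a ha
      refine ⟨⟨Finsupp.equivFunOnFinite.symm a, ?_⟩, mem_univ _, rfl⟩
      rw [← mem_Sx_coe]
      exact ha
    · intro α _
      rfl
  rw [hbot, Submodule.mem_bot] at hmem
  have h0 : (fun α : mons (n + 1) d => f (⇑α.1)) = 0 := by
    apply toPoly_injective (n + 1) d
    rw [hmem, map_zero]
  intro a ha
  have hm : Finsupp.equivFunOnFinite.symm a ∈ mons (n + 1) d := by
    rw [← mem_Sx_coe]
    exact ha
  exact congrFun h0 ⟨_, hm⟩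

theorem gdim_of_GI {n d : ℕ} {κ : Type} [Fintype κ] (m : κ → ℕ)
    (h : GI (Sx (Fin (n + 1)) d) fun i => Kind.free (m i)) : gdim n d m = 0 := by
  classical
  obtain ⟨pos, hpos⟩ := h
  have h1 : Module.finrank ℂ (fatForms n d pos m) = 0 := by
    have hbot : fatForms n d pos m = ⊥ := by
      rw [eq_bot_iff]
      intro F hF
      rw [Submodule.mem_bot]
      have hsupp : ∀ α ∈ F.support, (⇑α : Fin (n + 1) → ℕ) ∈
          Pool.Agent.H18.Ex.Rg d (fun _ => d) := by
        intro α hα
        rw [MvPolynomial.mem_support_iff] at hα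
        have hαd : α ∈ mons (n + 1) d := by
          rw [mem_mons]
          by_contra h
          exact hα (hF.1.coeff_eq_zero h)
        exact mem_Sx_coe.2 hαd
      have h2 := hpos (cf F) fun i => sat_of_vanishes hsupp (hF.2 i)
      by_contra hne
      obtain ⟨α, hα⟩ := MvPolynomial.ne_zero_iff.1 hne
      have h4 := h2 _ (hsupp α (MvPolynomial.mem_support_iff.2 hα))
      unfold cf at h4
      rw [symm_coe] at h4
      exact hα h4
    rw [hbot, finrank_bot]
  have h2 : gdim n d m ≤ Module.finrank ℂ (fatForms n d pos m) := Nat.sInf_le ⟨pos, rfl⟩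
  omega

end Pool.Agent.H21.NX
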