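import Pool.Agent.H21.NX.GenA
import Pool.Agent.H21.HD.BridgeD

/-!
# Module GenB: the general dimension

Useful: `general_finrank_le`, `finrank_add_length_ge` (H18/FatToric), `finite_fat` (H21/HD/BridgeC),
`Nat.sInf_mem`, `Nat.sInf_le`, `Submodule.finrank_mono`, `Submodule.finrank_sup_add_finrank_inf_eq`,
`finrank_homog'` (H21/HD/BridgeD).
-/

namespace Pool.Agent.H21.NX

open Finset MvPolynomial Pool.Agent.H18.Fat Pool.Agent.H18.Ex

namespace GenBX

theorem finite_fat {r d : ℕ} {ι : Type*} (p : ι → Fin (r + 1) → ℂ) (m : ι → ℕ) :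
    Module.Finite ℂ (fatForms r d p m) :=
  Pool.Agent.H21.HD.BridgeCX.finite_fat p m

theorem vanishes_anti {n : ℕ} {F : MvPolynomial (Fin n) ℂ} {q : Fin n → ℂ} {m m' : ℕ}
    (h : m ≤ m') (hF : VanishesToOrder F q m') : VanishesToOrder F q m :=
  fun β hβ => hF β (lt_of_lt_of_le hβ h)

theorem fat_mono {r d : ℕ} {ι : Type*} (p : ι → Fin (r + 1) → ℂ) {m m' : ι → ℕ}
    (h : ∀ i, m i ≤ m' i) : fatForms r d p m' ≤ fatForms r d p m :=
  fun _ hF => ⟨hF.1, fun i => vanishes_anti (h i) (hF.2 i)⟩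

/-- Fewer points. -/
theorem fat_comp_le {r d : ℕ} {ι ι' : Type*} (φ : ι' → ι) (p : ι → Fin (r + 1) → ℂ)
    (m : ι → ℕ) : fatForms r d p m ≤ fatForms r d (fun i => p (φ i)) (fun i => m (φ i)) :=
  fun _ hF => ⟨hF.1, fun i => hF.2 (φ i)⟩

theorem fat_comp_equiv {r d : ℕ} {ι ι' : Type*} (e : ι' ≃ ι) (p : ι → Fin (r + 1) → ℂ)
    (m : ι → ℕ) : fatForms r d (fun i => p (e i)) (fun i => m (e i)) = fatForms r d p m := by
  apply le_antisymm
  · intro F hF
    refine ⟨hF.1, fun i => ?_⟩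
    have := hF.2 (e.symm i)
    simpa using this
  · exact fat_comp_le e p m

theorem gdim_attained (r d : ℕ) {κ : Type} (m : κ → ℕ) :
    ∃ p : κ → Fin (r + 1) → ℂ, Module.finrank ℂ (fatForms r d p m) = gdim r d m := by
  have h := Nat.sInf_mem (Set.range_nonempty
    fun p : κ → Fin (r + 1) → ℂ => Module.finrank ℂ (fatForms r d p m))
  obtain ⟨p, hp⟩ := h
  exact ⟨p, hp⟩

theorem eval_aeval' {σ τ : Type*} (a : τ → ℂ) (g : σ → MvPolynomial τ ℂ)
    (G : MvPolynomial σ ℂ) : eval a (aeval g G) = eval (fun x => eval a (g x)) G := by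
  induction G using MvPolynomial.induction_on with
  | C c => simp
  | add p q hp hq => rw [map_add, map_add, map_add, hp, hq]
  | mul_X p i hp => rw [map_mul, map_mul, map_mul, hp, aeval_X, eval_X]

end GenBX

open GenBX

theorem gdim_le (r d : ℕ) {κ : Type} (m : κ → ℕ) (p : κ → Fin (r + 1) → ℂ) :
    gdim r d m ≤ Module.finrank ℂ (fatForms r d p m) :=
  Nat.sInf_le ⟨p, rfl⟩

/-- The minimal dimension is attained at general points: transport `general_finrank_le` along
`Fintype.equivFin`. -/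
theorem gen_gdim (r d : ℕ) {κ : Type} [Fintype κ] (m : κ → ℕ) :
    Gen r κ fun p => Module.finrank ℂ (fatForms r d p m) = gdim r d m := by
  classical
  obtain ⟨p₀, hp₀⟩ := gdim_attained r d m
  let e := Fintype.equivFin κ
  have h1 : Gen r (Fin (Fintype.card κ)) fun p =>
      Module.finrank ℂ (fatForms r d p fun i => m (e.symm i)) ≤
        Module.finrank ℂ (fatForms r d (fun i => p₀ (e.symm i)) fun i => m (e.symm i)) :=
    general_finrank_le d (fun i => p₀ (e.symm i)) (fun i => m (e.symm i))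
  have h2 := h1.comap e.symm e.symm.injective
  refine h2.mono fun p hp => ?_
  rw [fat_comp_equiv e.symm p m, fat_comp_equiv e.symm p₀ m, hp₀] at hp
  exact le_antisymm hp (gdim_le r d m p)

theorem gdim_comp_equiv (r d : ℕ) {κ κ' : Type} (e : κ' ≃ κ) (m : κ → ℕ) :
    gdim r d (fun i => m (e i)) = gdim r d m := by
  apply le_antisymm
  · obtain ⟨p₀, hp₀⟩ := gdim_attained r d m
    rw [← hp₀, ← fat_comp_equiv e p₀ m]
    exact gdim_le _ _ _ _
  · obtain ⟨p₀, hp₀⟩ := gdim_attained r d (fun i => m (e i))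
    rw [← hp₀, ← fat_comp_equiv e.symm p₀ (fun i => m (e i))]
    have : (fun i => m (e (e.symm i))) = m := by
      funext i
      rw [e.apply_symm_apply]
    rw [this]
    exact gdim_le _ _ _ _

theorem gdim_anti (r d : ℕ) {κ : Type} [Fintype κ] (m m' : κ → ℕ) (h : ∀ i, m i ≤ m' i) :
    gdim r d m' ≤ gdim r d m := by
  obtain ⟨p₀, hp₀⟩ := gdim_attained r d m
  have := finite_fat (d := d) p₀ m
  rw [← hp₀]
  exact (gdim_le r d m' p₀).trans (Submodule.finrank_mono (fat_mono p₀ h))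

theorem gdim_elim_le (r d : ℕ) {κ κ' : Type} [Fintype κ] [Fintype κ'] (m : κ → ℕ) (n : κ' → ℕ) :
    gdim r d (Sum.elim m n) ≤ gdim r d m := by
  obtain ⟨p₀, hp₀⟩ := gdim_attained r d m
  have := finite_fat (d := d) p₀ m
  rw [← hp₀]
  exact (gdim_le r d (Sum.elim m n) (Sum.elim p₀ 0)).trans
    (Submodule.finrank_mono (fat_comp_le Sum.inl (Sum.elim p₀ 0) (Sum.elim m n)))

/-- Further points impose at most their length (`finrank_add_length_ge`, with
`Gen.coord_ne_zero`). -/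
theorem le_gdim_elim (r d : ℕ) (hr : 1 ≤ r) {κ κ' : Type} [Fintype κ] [Fintype κ'] (m : κ → ℕ)
    (n : κ' → ℕ) : gdim r d m ≤ gdim r d (Sum.elim m n) + ∑ j, ell r (n j) := by
  obtain ⟨P, hP1, hP2⟩ := ((gen_gdim r d (Sum.elim m n)).and (Gen.coord_ne_zero r (κ ⊕ κ'))).exists
  have h1 := finrank_add_length_ge (d := d) hr (fun i => P (Sum.inl i)) m
    (fun j => P (Sum.inr j)) (fun j => hP2 _ _) n
  have h2 : (Sum.elim (fun i => P (Sum.inl i)) fun j => P (Sum.inr j)) = P := by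
    funext x
    rcases x with i | j <;> rfl
  rw [h2, hP1] at h1
  exact (gdim_le r d m _).trans h1

/-- Submodularity: at general points `V(m, n)` and `V(m, n')` are subspaces of `V(m)` with
intersection `V(m, n, n')`. -/
theorem gdim_submod (r d : ℕ) {κ κ₁ κ₂ : Type} [Fintype κ] [Fintype κ₁] [Fintype κ₂] (m : κ → ℕ)
    (n₁ : κ₁ → ℕ) (n₂ : κ₂ → ℕ) :
    gdim r d (Sum.elim m n₁) + gdim r d (Sum.elim m n₂) ≤
      gdim r d m + gdim r d (Sum.elim (Sum.elim m n₁) n₂) := by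
  have hinj : Function.Injective (fun i : κ => (Sum.inl (Sum.inl i) : (κ ⊕ κ₁) ⊕ κ₂)) :=
    fun a b h => Sum.inl_injective (Sum.inl_injective h)
  obtain ⟨P, hP1, hP2⟩ := ((gen_gdim r d (Sum.elim (Sum.elim m n₁) n₂)).and
    ((gen_gdim r d m).comap (fun i : κ => (Sum.inl (Sum.inl i) : (κ ⊕ κ₁) ⊕ κ₂)) hinj)).exists
  let P₁ : κ ⊕ κ₁ → Fin (r + 1) → ℂ := fun i => P (Sum.inl i)
  let P₂ : κ ⊕ κ₂ → Fin (r + 1) → ℂ :=
    Sum.elim (fun i => P (Sum.inl (Sum.inl i))) fun j => P (Sum.inr j)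
  let P₀ : κ → Fin (r + 1) → ℂ := fun i => P (Sum.inl (Sum.inl i))
  have hf1 := finite_fat (d := d) P₁ (Sum.elim m n₁)
  have hf2 := finite_fat (d := d) P₂ (Sum.elim m n₂)
  have hf0 := finite_fat (d := d) P₀ m
  have h1 := Submodule.finrank_sup_add_finrank_inf_eq (fatForms r d P₁ (Sum.elim m n₁))
    (fatForms r d P₂ (Sum.elim m n₂))
  have h2 : fatForms r d P₁ (Sum.elim m n₁) ⊔ fatForms r d P₂ (Sum.elim m n₂) ≤
      fatForms r d P₀ m :=
    sup_le (fun F hF => ⟨hF.1, fun i => hF.2 (Sum.inl i)⟩)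
      (fun F hF => ⟨hF.1, fun i => hF.2 (Sum.inl i)⟩)
  have h3 : fatForms r d P₁ (Sum.elim m n₁) ⊓ fatForms r d P₂ (Sum.elim m n₂) =
      fatForms r d P (Sum.elim (Sum.elim m n₁) n₂) := by
    ext F
    constructor
    · rintro ⟨hF1, hF2⟩
      refine ⟨hF1.1, ?_⟩
      rintro (i | j)
      · exact hF1.2 i
      · exact hF2.2 (Sum.inr j)
    · intro hF
      refine ⟨⟨hF.1, fun i => hF.2 (Sum.inl i)⟩, hF.1, ?_⟩
      rintro (i | j)
      · exact hF.2 (Sum.inl (Sum.inl i))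
      · exact hF.2 (Sum.inr j)
  have h4 := Submodule.finrank_mono h2
  have h5 := gdim_le r d (Sum.elim m n₁) P₁
  have h6 := gdim_le r d (Sum.elim m n₂) P₂
  rw [h3, hP1] at h1
  have hP2' : Module.finrank ℂ (fatForms r d P₀ m) = gdim r d m := hP2
  omega

theorem gdim_empty (r d : ℕ) (m : Fin 0 → ℕ) : gdim r d m = (d + r).choose r := by
  obtain ⟨p₀, hp₀⟩ := gdim_attained r d m
  have h : fatForms r d p₀ m = homogeneousSubmodule (Fin (r + 1)) ℂ d := by
    ext F
    exact ⟨fun hF => hF.1, fun hF => ⟨hF, fun i => i.elim0⟩⟩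
  rw [← hp₀, h, Pool.Agent.H21.HD.BridgeDX.finrank_homog']

/-- If adding a general simple point does not lower the dimension then the dimension is `0`:
a nonzero form does not vanish at a general point (`vanishesToOrder_one`, `MvPolynomial.funext`). -/
theorem gdim_simple (r d : ℕ) {κ : Type} [Fintype κ] (m : κ → ℕ) (t : ℕ) (ht : 1 ≤ t)
    (h : gdim r d (Sum.elim m fun _ : Unit => t) = gdim r d m) : gdim r d m = 0 := by
  have hgen := (gen_gdim r d (Sum.elim m fun _ : Unit => t)).and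
    ((gen_gdim r d m).comap (fun i : κ => (Sum.inl i : κ ⊕ Unit)) Sum.inl_injective)
  obtain ⟨G, hG0, hG⟩ := hgen
  obtain ⟨a, ha⟩ : ∃ a, eval a G ≠ 0 := by
    by_contra hcon
    push Not at hcon
    exact hG0 (MvPolynomial.funext fun a => by rw [hcon a, map_zero])
  let p₀ : κ → Fin (r + 1) → ℂ := fun i j => a (Sum.inl i, j)
  let G' : MvPolynomial (Fin (r + 1)) ℂ := aeval (fun x : (κ ⊕ Unit) × Fin (r + 1) =>
    Sum.elim (fun i => (C (p₀ i x.2) : MvPolynomial (Fin (r + 1)) ℂ)) (fun _ => X x.2) x.1) G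
  have hG' : ∀ q : Fin (r + 1) → ℂ, eval q G' =
      eval (fun x : (κ ⊕ Unit) × Fin (r + 1) => Sum.elim p₀ (fun _ => q) x.1 x.2) G := by
    intro q
    simp only [G']
    rw [eval_aeval']
    refine congrArg (fun f : (κ ⊕ Unit) × Fin (r + 1) → ℂ => eval f G) (funext fun x => ?_)
    obtain ⟨i | u, j⟩ := x
    · simp
    · simp
  have hval : ∀ q : Fin (r + 1) → ℂ, eval q G' ≠ 0 →
      fatForms r d p₀ m ≤ fatForms r d (Sum.elim p₀ fun _ : Unit => q)
        (Sum.elim m fun _ : Unit => t) ∧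
        Module.finrank ℂ (fatForms r d p₀ m) = gdim r d m := by
    intro q hq
    rw [hG'] at hq
    obtain ⟨h1, h2⟩ := hG (Sum.elim p₀ fun _ => q) hq
    have h2' : Module.finrank ℂ (fatForms r d p₀ m) = gdim r d m := h2
    refine ⟨?_, h2'⟩
    have hf0 := finite_fat (d := d) p₀ m
    have hle : fatForms r d (Sum.elim p₀ fun _ : Unit => q) (Sum.elim m fun _ : Unit => t) ≤
        fatForms r d p₀ m := fun F hF => ⟨hF.1, fun i => hF.2 (Sum.inl i)⟩
    exact (Submodule.eq_of_le_of_finrank_eq hle (by rw [h1, h2', h])).ge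
  have hq₀ : eval (fun j => a (Sum.inr (), j)) G' ≠ 0 := by
    rw [hG']
    have : (fun x : (κ ⊕ Unit) × Fin (r + 1) =>
        Sum.elim p₀ (fun _ => fun j => a (Sum.inr (), j)) x.1 x.2) = a := by
      funext x
      obtain ⟨i | u, j⟩ := x
      · rfl
      · rfl
    rw [this]
    exact ha
  have hG'0 : G' ≠ 0 := fun h0 => hq₀ (by rw [h0, map_zero])
  rw [← (hval _ hq₀).2]
  have hbot : fatForms r d p₀ m = ⊥ := by
    rw [Submodule.eq_bot_iff]
    intro F hF
    have h1 : F * G' = 0 := by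
      apply MvPolynomial.funext
      intro q
      rw [map_mul, map_zero]
      by_cases hq : eval q G' = 0
      · rw [hq, mul_zero]
      · have h2 := (hval q hq).1 hF
        have h3 : VanishesToOrder F q t := h2.2 (Sum.inr ())
        have h4 := (vanishesToOrder_one F q).1 (vanishes_anti ht h3)
        rw [h4, zero_mul]
    exact (mul_eq_zero.1 h1).resolve_right hG'0
  rw [hbot, finrank_bot]

end Pool.Agent.H21.NX
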