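import Pool.Agent.H21.NX.Defs

/-!
# Module NumA: upper and lower bounds for `ell`

`ell n c = binom(c + n - 1, n) = binom(c + n - 1, c - 1)` for `c ≥ 1` (`Nat.choose_symm_diff`);
`Nat.choose_le_pow`, `Nat.pow_le_choose` (or `Nat.pow_sub_le_descFactorial`,
`Nat.choose_eq_descFactorial_div_factorial`; or induction with `ell_mul_add`-type identities).
-/

namespace Pool.Agent.H21.NX

open Pool.Agent.H18.Ex

private theorem numA_ell_eq (s k : ℕ) : ell s (k + 1) = (k + s).choose k := by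
  unfold ell
  rw [show k + 1 + s - 1 = k + s by omega, Nat.choose_symm_add]

private theorem numA_choose_le (n k : ℕ) : n.choose k ≤ n ^ k := by
  have h1 : n.choose k ≤ n.descFactorial k := by
    rw [Nat.descFactorial_eq_factorial_mul_choose]
    exact Nat.le_mul_of_pos_left _ (Nat.factorial_pos k)
  exact h1.trans (Nat.descFactorial_le_pow n k)

private theorem numA_le_choose (n k : ℕ) : (n + 1 - k) ^ k ≤ (k + 1) ^ (k + 1) * n.choose k := by
  have h1 := Nat.pow_sub_le_descFactorial n k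
  rw [Nat.descFactorial_eq_factorial_mul_choose] at h1
  refine h1.trans (Nat.mul_le_mul_right _ ?_)
  calc k.factorial ≤ (k + 1).factorial := Nat.factorial_le (Nat.le_succ k)
    _ ≤ (k + 1) ^ (k + 1) := Nat.factorial_le_pow (k + 1)

theorem ell_le_pow (s c : ℕ) (hc : 1 ≤ c) (h : c ≤ s) : ell s c ≤ (2 * s) ^ (c - 1) := by
  obtain ⟨k, rfl⟩ : ∃ k, c = k + 1 := ⟨c - 1, by omega⟩
  rw [numA_ell_eq, Nat.add_sub_cancel]
  exact (numA_choose_le _ _).trans (Nat.pow_le_pow_left (by omega) _)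

theorem ell_succ_le_pow (s c : ℕ) (hc : 1 ≤ c) (h : c ≤ s) :
    ell (s + 1) c ≤ (2 * s) ^ (c - 1) := by
  obtain ⟨k, rfl⟩ : ∃ k, c = k + 1 := ⟨c - 1, by omega⟩
  rw [numA_ell_eq, Nat.add_sub_cancel]
  exact (numA_choose_le _ _).trans (Nat.pow_le_pow_left (by omega) _)

theorem pow_le_ell (s c : ℕ) (hc : 1 ≤ c) : s ^ (c - 1) ≤ c ^ c * ell s c := by
  obtain ⟨k, rfl⟩ : ∃ k, c = k + 1 := ⟨c - 1, by omega⟩
  rw [numA_ell_eq, Nat.add_sub_cancel]
  refine le_trans (Nat.pow_le_pow_left ?_ _) (numA_le_choose (k + s) k)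
  omega

theorem pow_le_ell_succ (s c : ℕ) (hc : 1 ≤ c) : s ^ (c - 1) ≤ c ^ c * ell (s + 1) c := by
  obtain ⟨k, rfl⟩ : ∃ k, c = k + 1 := ⟨c - 1, by omega⟩
  rw [numA_ell_eq, Nat.add_sub_cancel]
  refine le_trans (Nat.pow_le_pow_left ?_ _) (numA_le_choose (k + (s + 1)) k)
  omega

end Pool.Agent.H21.NX
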