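import Pool.Agent.H21.NX.Chain

/-!
# Module Window: the uniform window theorem

Proof.  `gdimL l = gdim (fun i : Fin l.length => l.get i)`.  Induction on a list sorted
increasingly (`t :: l`, all elements of `l` are `≥ t`): the conditions for `l` follow from those
for `t :: l`.  Let `N = binom(d + r, r)` and `g = gdimL l = N - tot l`.  If `t = 0` nothing changes
(`ell_zero`; `gdim_elim_le` and `le_gdim_elim`).  If `t ≥ 2`: by `hc` for `t`,
`ell r t + tot l + (ell r t - 1) * (ell r M - 1) ≤ N`, so
`N - tot l - (ell r t - 1) * ell r M ≥ 1` and `gdim (l, M, …, M) ≠ 0` with `ell r t - 1` copies of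
`M` (`le_gdim_elim`); `decouple` gives `gdimL (t :: l) = g - ell r t`; `t ≤ d + 1` because
`ell r t ≤ N`.  If `t = 1`: `decouple` if `g ≠ 0` (`ell r 1 - 1 = 0` copies), and if `g = 0`
then `gdim_elim_le`.
-/

namespace Pool.Agent.H21.NX

open Finset MvPolynomial Pool.Agent.H18.Fat Pool.Agent.H18.Ex

namespace WindowX

theorem ell_lt_succ (r c : ℕ) (hr : 1 ≤ r) (hc : 1 ≤ c) : ell r c < ell r (c + 1) := by
  obtain ⟨n, rfl⟩ : ∃ n, r = n + 1 := ⟨r - 1, by omega⟩
  rw [ell_succ]
  have : 1 ≤ ell n (c + 1) := ell_pos n (by omega)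
  omega

theorem choose_eq_ell (r d : ℕ) : (d + r).choose r = ell r (d + 1) := by
  unfold ell
  rw [show d + 1 + r - 1 = d + r by omega]

theorem le_of_ell_le (r d t : ℕ) (hr : 1 ≤ r) (h : ell r t ≤ (d + r).choose r) : t ≤ d + 1 := by
  by_contra hlt
  have h1 : ell r (d + 1) < ell r (d + 1 + 1) := ell_lt_succ r (d + 1) hr (by omega)
  have h2 : ell r (d + 1 + 1) ≤ ell r t := ell_mono r (by omega)
  rw [choose_eq_ell] at h
  omega

theorem sum_unit_ell (r t : ℕ) : ∑ _j : Unit, ell r t = ell r t := by
  simp

/-- The list `t :: l` as the family `(l, t)`. -/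
theorem gdim_cons (r d t : ℕ) (l : List ℕ) :
    gdim r d (fun i : Fin (t :: l).length => (t :: l).get i) =
      gdim r d (Sum.elim (fun i : Fin l.length => l.get i) fun _ : Unit => t) := by
  rw [← gdim_comp_equiv r d ((finSuccEquiv l.length).trans (Equiv.optionEquivSumPUnit.{0, 0} _))
    (Sum.elim (fun i : Fin l.length => l.get i) fun _ : Unit => t)]
  congr 1
  funext i
  refine Fin.cases ?_ (fun j => ?_) i
  · simp
  · simp

end WindowX

open WindowX

theorem window_list (r d : ℕ) (hr : 1 ≤ r) (M : ℕ) (l : List ℕ) (hs : l.Pairwise (· ≤ ·))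
    (hM : ∀ x ∈ l, x ≤ M)
    (hc : ∀ x ∈ l, 2 ≤ x → ((l.filter (x ≤ ·)).map (ell r)).sum +
      (ell r x - 1) * (ell r M - 1) ≤ (d + r).choose r) :
    gdim r d (fun i : Fin l.length => l.get i) = (d + r).choose r - (l.map (ell r)).sum := by
  induction l with
  | nil =>
    rw [List.map_nil, List.sum_nil, Nat.sub_zero]
    exact gdim_empty r d _
  | cons t l ih =>
    rw [List.pairwise_cons] at hs
    have hM' : ∀ x ∈ l, x ≤ M := fun x hx => hM x (List.mem_cons_of_mem _ hx)
    have htM : t ≤ M := hM t List.mem_cons_self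
    have ih' := ih hs.2 hM' (by
      intro x hx h2
      have h3 := hc x (List.mem_cons_of_mem _ hx) h2
      refine le_trans (Nat.add_le_add_right ?_ _) h3
      rw [List.filter_cons]
      split_ifs
      · rw [List.map_cons, List.sum_cons]
        exact Nat.le_add_left _ _
      · exact le_rfl)
    rw [gdim_cons, List.map_cons, List.sum_cons]
    have hle : gdim r d (Sum.elim (fun i : Fin l.length => l.get i) fun _ : Unit => t) ≤
      gdim r d (fun i : Fin l.length => l.get i) := gdim_elim_le r d _ _
    have hge : gdim r d (fun i : Fin l.length => l.get i) ≤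
        gdim r d (Sum.elim (fun i : Fin l.length => l.get i) fun _ : Unit => t) +
          ∑ _j : Unit, ell r t := le_gdim_elim r d hr _ _
    rw [sum_unit_ell] at hge
    -- the main case
    have hmain : 1 ≤ t → t ≤ d + 1 →
        (l.map (ell r)).sum + (ell r t - 1) * ell r M < (d + r).choose r →
        gdim r d (Sum.elim (fun i : Fin l.length => l.get i) fun _ : Unit => t) =
          (d + r).choose r - (ell r t + (l.map (ell r)).sum) := by
      intro _ htd hlt
      have h5 : gdim r d (fun i : Fin l.length => l.get i) ≤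
          gdim r d (Sum.elim (fun i : Fin l.length => l.get i)
            fun _ : Fin (ell r t - 1) => M) + ∑ _j : Fin (ell r t - 1), ell r M :=
        le_gdim_elim r d hr _ _
      rw [Finset.sum_const, Finset.card_univ, Fintype.card_fin, smul_eq_mul] at h5
      have h6 := decouple r d hr (fun i : Fin l.length => l.get i) t M
        (fun a => hM' _ (List.get_mem l a)) htM htd (by omega)
      omega
    rcases Nat.lt_or_ge t 2 with ht | ht
    · rcases Nat.eq_zero_or_pos t with h0 | h0
      · subst h0
        rw [ell_zero hr] at hge ⊢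
        omega
      · have h1 : t = 1 := by omega
        subst h1
        rcases Nat.eq_zero_or_pos (gdim r d (fun i : Fin l.length => l.get i)) with hg | hg
        · omega
        · refine hmain le_rfl (by omega) ?_
          rw [ell_one]
          omega
    · have h3 := hc t List.mem_cons_self ht
      rw [List.filter_eq_self.2 (by
        intro a ha
        rw [List.mem_cons] at ha
        rcases ha with rfl | ha
        · simp
        · simpa using hs.1 a ha), List.map_cons, List.sum_cons] at h3
      have h4 : 1 ≤ ell r t := ell_pos r (by omega)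
      have h5 : 1 ≤ ell r M := ell_pos r (by omega)
      refine hmain (by omega) (le_of_ell_le r d t hr (by omega)) ?_
      obtain ⟨a, ha⟩ : ∃ a, ell r t = a + 1 := ⟨ell r t - 1, by omega⟩
      obtain ⟨b, hb⟩ : ∃ b, ell r M = b + 1 := ⟨ell r M - 1, by omega⟩
      rw [ha, hb, Nat.add_sub_cancel, Nat.add_sub_cancel] at h3
      rw [ha, hb, Nat.add_sub_cancel, Nat.mul_add, Nat.mul_one]
      omega

theorem window_multiset (r d : ℕ) (hr : 1 ≤ r) (M : ℕ) {κ : Type} [Fintype κ] (m : κ → ℕ)
    (T : Multiset ℕ) (hT : (univ : Finset κ).val.map m = T) (hM : ∀ x ∈ T, x ≤ M)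
    (hc : ∀ x ∈ T, 2 ≤ x → tot r (T.filter (x ≤ ·)) +
      (ell r x - 1) * (ell r M - 1) ≤ (d + r).choose r) :
    gdim r d m = (d + r).choose r - tot r T := by
  classical
  set l : List ℕ := T.sort (· ≤ ·) with hl
  have hlT : (l : Multiset ℕ) = T := Multiset.sort_eq _ _
  have hcard : ∀ c, Fintype.card {a : κ // m a = c} =
      Fintype.card {i : Fin l.length // l.get i = c} := by
    intro c
    have e1 : Fintype.card {a : κ // m a = c} = T.count c := by
      rw [← hT, Multiset.count_map, Fintype.card_subtype]
      unfold Finset.card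
      rw [Finset.filter_val]
      congr 1
      refine Multiset.filter_congr fun a _ => ?_
      exact eq_comm
    have e2 : Fintype.card {i : Fin l.length // l.get i = c} = T.count c := by
      have e3 : ((univ : Finset (Fin l.length)).val.map l.get) = T := by
        rw [← hlT, Fin.univ_val_map, List.ofFn_get]
      rw [← e3, Multiset.count_map, Fintype.card_subtype]
      unfold Finset.card
      rw [Finset.filter_val]
      congr 1
      refine Multiset.filter_congr fun a _ => ?_
      exact eq_comm
    rw [e1, e2]
  let e : κ ≃ Fin l.length := Equiv.ofFiberEquiv (f := m) (g := l.get)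
    fun c => Fintype.equivOfCardEq (hcard c)
  have he : (fun a => l.get (e a)) = m := funext fun a => Equiv.ofFiberEquiv_map _ a
  have hmem : ∀ x, x ∈ l ↔ x ∈ T := fun x => by rw [← hlT, Multiset.mem_coe]
  have h1 := window_list r d hr M l (Multiset.pairwise_sort T (· ≤ ·))
    (fun x hx => hM x ((hmem x).1 hx))
    (by
      intro x hx h2
      refine le_trans (le_of_eq ?_) (hc x ((hmem x).1 hx) h2)
      congr 1
      unfold tot
      rw [← hlT, Multiset.filter_coe, Multiset.map_coe, Multiset.sum_coe])
  have h2 : gdim r d m = gdim r d (fun i : Fin l.length => l.get i) := by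
    rw [← gdim_comp_equiv r d e (fun i : Fin l.length => l.get i), he]
  rw [h2, h1]
  unfold tot
  rw [← hlT, Multiset.map_coe, Multiset.sum_coe]

theorem window_fin (r d : ℕ) (hr : 1 ≤ r) (M : ℕ) {k : ℕ} (m : Fin k → ℕ) (hM : ∀ i, m i ≤ M)
    (hc : ∀ i, 2 ≤ m i → ∑ j ∈ univ.filter (fun j => m i ≤ m j), ell r (m j) +
      (ell r (m i) - 1) * (ell r M - 1) ≤ (d + r).choose r) :
    ForGeneralPoints r k fun p => ImposesMaximalConditions r d p m := by
  have hw := window_multiset r d hr M m _ rfl
    (by
      intro x hx
      rw [Multiset.mem_map] at hx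
      obtain ⟨i, _, rfl⟩ := hx
      exact hM i)
    (by
      intro x hx h2
      rw [Multiset.mem_map] at hx
      obtain ⟨i, _, rfl⟩ := hx
      refine le_trans (le_of_eq ?_) (hc i h2)
      congr 1
      unfold tot
      rw [Multiset.filter_map, Multiset.map_map]
      rfl)
  have hg : Gen r (Fin k) fun p => ImposesMaximalConditions r d p m := by
    refine (gen_gdim r d m).mono fun p hp => ?_
    unfold ImposesMaximalConditions
    rw [hp, hw]
    have e1 : ∑ i, (((m i + r - 1).choose r : ℕ) : ℤ) =
        ((tot r ((univ : Finset (Fin k)).val.map m) : ℕ) : ℤ) := by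
      have e2 : tot r ((univ : Finset (Fin k)).val.map m) = ∑ i, (m i + r - 1).choose r := by
        unfold tot
        rw [Multiset.map_map]
        rfl
      rw [e2, Nat.cast_sum]
    rw [e1]
    omega
  exact hg

end Pool.Agent.H21.NX
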