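import Pool.Agent.H21.NX.Conv

/-!
# Module MaxGM: from `GM` to general points
-/

namespace Pool.Agent.H21.NX

open Finset MvPolynomial Pool.Agent.H18.Fat Pool.Agent.H18.Ex

namespace MaxGMX

theorem Sx_eq_Rg {ι : Type} [Fintype ι] [DecidableEq ι] (σ : ℕ) :
    Sx ι σ = H18.Ex.Rg σ (fun _ => σ) := rfl

/-- The special configuration. -/
theorem special (r k d L : ℕ) (m : Fin k → ℕ)
    (h : GM (Sx (Fin (r + 1)) d) ((univ.val.map fun i => Kind.free (m i)) +
      Multiset.replicate L (Kind.free 1))) :
    ∃ p₀ : Fin k → Fin (r + 1) → ℂ, Module.finrank ℂ (fatForms r d p₀ m) ≤ L := by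
  classical
  let kk : Fin k ⊕ Fin L → Kind (Fin (r + 1)) :=
    Sum.elim (fun i => Kind.free (m i)) fun _ => Kind.free 1
  have hGI : GI (Sx (Fin (r + 1)) d) kk := by
    rw [← GM_iff, multi_map_sum]
    have h2 : (univ : Finset (Fin L)).val.map (fun _ : Fin L => (Kind.free 1 : Kind (Fin (r + 1))))
        = Multiset.replicate L (Kind.free 1) := by
      rw [Multiset.map_const', Finset.card_val, card_univ, Fintype.card_fin]
    rw [h2]
    exact h
  rw [Sx_eq_Rg] at hGI
  obtain ⟨pos, hpos⟩ := hGI
  refine ⟨fun i => pos (Sum.inl i), ?_⟩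
  set p₀ : Fin k → Fin (r + 1) → ℂ := fun i => pos (Sum.inl i) with hp₀
  have hsupp : ∀ F ∈ fatForms r d p₀ m, ∀ α ∈ F.support,
      (⇑α : Fin (r + 1) → ℕ) ∈ H18.Ex.Rg d (fun _ => d) := by
    intro F hF α hα
    rw [MvPolynomial.mem_support_iff] at hα
    have hαd : α ∈ mons (r + 1) d := by
      rw [mem_mons]
      by_contra h
      exact hα (hF.1.coeff_eq_zero h)
    rw [← Sx_eq_Rg, mem_Sx]
    have hdeg := mem_mons.1 hαd
    rwa [Finsupp.degree_eq_sum] at hdeg
  let Ψ : fatForms r d p₀ m →ₗ[ℂ] (Fin L → ℂ) :=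
    { toFun := fun F j => ∑ a ∈ H18.Ex.Rg d (fun _ => d), cf F.1 a * tcr (pos (Sum.inr j)) a 0
      map_add' := fun F G => by
        funext j
        simp only [Submodule.coe_add, cf, MvPolynomial.coeff_add, Pi.add_apply, add_mul,
          sum_add_distrib]
      map_smul' := fun c F => by
        funext j
        simp only [Submodule.coe_smul, cf, MvPolynomial.coeff_smul, smul_eq_mul, RingHom.id_apply,
          Pi.smul_apply, mul_sum, mul_assoc] }
  have hΨ : Function.Injective Ψ := by
    rw [← LinearMap.ker_eq_bot, LinearMap.ker_eq_bot']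
    intro F hF
    have h1 : ∀ i, Sat (H18.Ex.Rg d (fun _ => d)) (cf F.1) (kk i) (pos i) := by
      rintro (i | j)
      · exact sat_of_vanishes (hsupp F.1 F.2) (F.2.2 i)
      · intro b hb
        have hb0 : b = 0 := by
          change ∑ i, b i < 1 at hb
          have h2 : ∑ i, b i = 0 := by omega
          rw [sum_eq_zero_iff] at h2
          funext i
          exact h2 i (mem_univ _)
        subst hb0
        exact congrFun hF j
    have h2 := hpos (cf F.1) h1
    apply Subtype.ext
    change F.1 = 0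
    by_contra hne
    obtain ⟨α, hα⟩ := MvPolynomial.ne_zero_iff.1 hne
    have h3 := hsupp F.1 F.2 α (MvPolynomial.mem_support_iff.2 hα)
    have h4 := h2 _ h3
    unfold cf at h4
    rw [show Finsupp.equivFunOnFinite.symm (⇑α) = α from by ext; rfl] at h4
    exact hα h4
  have := LinearMap.finrank_le_finrank_of_injective hΨ
  rwa [Module.finrank_fintype_fun_eq_card, Fintype.card_fin] at this

end MaxGMX

/-- From `GM` to general points (`∃ p₀` with `finrank ≤ N - L`, `general_finrank_le`, and
`finrank_fatForms_ge`; see `general_of_special` in H18/FatLin). -/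
theorem max_of_GM (r k d : ℕ) (hr : 1 ≤ r) (m : Fin k → ℕ)
    (h : GM (Sx (Fin (r + 1)) d) ((univ.val.map fun i => Kind.free (m i)) +
      Multiset.replicate ((d + r).choose r - ∑ i, ell r (m i)) (Kind.free 1))) :
    ForGeneralPoints r k fun p => ImposesMaximalConditions r d p m := by
  obtain ⟨p₀, hp₀⟩ := MaxGMX.special r k d _ m h
  refine ((general_finrank_le d p₀ m).and (ForGeneralPoints.coord_ne_zero r k)).mono ?_
  rintro p ⟨hp1, hp0⟩
  have hge := finrank_fatForms_ge (d := d) hr (fun i => hp0 i 0) m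
  have hcast : ∑ i, ((m i + r - 1).choose r : ℤ) = ((∑ i, ell r (m i) : ℕ) : ℤ) := by
    push_cast
    rfl
  unfold ImposesMaximalConditions
  rw [hcast] at hge ⊢
  omega

end Pool.Agent.H21.NX
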