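import Pool.Agent.H21.NX.VReg

/-!
# Module VFin: the complete region
-/

namespace Pool.Agent.H21.NX

open Finset Pool.Agent.H18.Ex
open Pool.Agent.H18.Fat hiding Rg mem_Rg

/-- High dimension, degrees at least `2 M - 1`. -/
theorem exact_high (M : ℕ) : ∃ r₀ K : ℕ, ∀ r d : ℕ, r₀ ≤ r → 2 * M ≤ d + 1 →
    ∀ (k : ℕ) (m : Fin k → ℕ), (∀ i, m i ≤ M) →
    (3 * M ≤ d + 1 ∨ ∃ μ, 1 ≤ μ ∧ 2 * μ + M ≤ d + 1 ∧
      K * r ^ (d - μ) ≤ (univ.filter fun i => m i = μ).card) →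
    ForGeneralPoints r k fun p => ImposesMaximalConditions r d p m := by
  obtain ⟨r₁, h1⟩ := exact_three M
  choose K₂ r₂ h2 using exact_many
  refine ⟨r₁ + (range (3 * M)).sup r₂ + 1, (range (3 * M)).sup K₂ + 1,
    fun r d hr hd k m hm hcase => ?_⟩
  by_cases hdM : 3 * M ≤ d + 1
  · exact h1 r (by omega) d hdM k m hm
  · rcases hcase with hcase | ⟨μ, hμ1, hμ2, hμ3⟩
    · exact absurd hcase hdM
    · have hr2 : r₂ d ≤ (range (3 * M)).sup r₂ := le_sup (f := r₂) (mem_range.2 (by omega))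
      have hK2 : K₂ d ≤ (range (3 * M)).sup K₂ := le_sup (f := K₂) (mem_range.2 (by omega))
      have hr1 : 1 ≤ r := by omega
      have hpow : 1 ≤ r ^ (d - μ) := Nat.one_le_pow _ _ hr1
      have hK1 : 1 ≤ (univ.filter fun i => m i = μ).card := by
        refine le_trans ?_ hμ3
        calc 1 = 1 * 1 := rfl
          _ ≤ _ := Nat.mul_le_mul (by omega) hpow
      obtain ⟨i, hi⟩ := card_pos.1 hK1
      have hμM : μ ≤ M := by
        rw [← (mem_filter.1 hi).2]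
        exact hm i
      refine h2 d r (by omega) μ M hμ1 hμM hd hμ2 k m hm (le_trans ?_ hμ3)
      exact Nat.mul_le_mul_right _ (by omega)

/-- The complete region. -/
theorem uniform_region : ∃ C : ℝ, 0 < C ∧ ∃ r₀ K : ℕ → ℕ, ∀ r M d : ℕ, 1 ≤ r → 1 ≤ M →
    (C * M * (1 + (M : ℝ) / r) ^ 3 * (M : ℝ) ^ (22 / (r : ℝ)) ≤ d ∨
      (r₀ M ≤ r ∧ 2 * M ≤ d + 1)) →
    ∀ (k : ℕ) (m : Fin k → ℕ), (∀ i, m i ≤ M) →
    (3 * M ≤ d + 1 ∨ ∃ μ, 1 ≤ μ ∧ 2 * μ + M ≤ d + 1 ∧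
      K M * r ^ (d - μ) ≤ (univ.filter fun i => m i = μ).card) →
    ForGeneralPoints r k fun p => ImposesMaximalConditions r d p m := by
  obtain ⟨C, hC, h1⟩ := region_real
  choose r₀ K h2 using exact_high
  refine ⟨C, hC, r₀, K, fun r M d hr hM hcase k m hm hcase2 => ?_⟩
  rcases hcase with h | ⟨h3, h4⟩
  · exact h1 r M hr hM d h k m hm
  · exact h2 M r d h3 h4 k m hm hcase2

end Pool.Agent.H21.NX
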