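import Mathlib

/-!
# Module Arith: arithmetic for the Horace steps
-/

namespace Pool.Agent.H21.NX

/-- There are enough points. `E0 = ell s S`, `Z` is the length of the other conditions. -/
theorem fit_arith (s S B μ α ρ f τ Z E0 F0 Eμ Fμ : ℕ) (h1 : (μ + s) * Eμ = (s + 1) * Fμ)
    (h2 : (S + s) * E0 = (s + 1) * F0) (h3 : F0 ≤ Z + f * Fμ) (h4 : (s + 1) * Z ≤ (B + s) * τ)
    (h5 : α * Eμ + ρ + τ = E0) (h6 : μ ≤ B) (h7 : B + 1 ≤ S)
    (h8 : 4 * ((B + s) * (ρ * Eμ)) ≤ E0) (h9 : 0 < E0) : α + ρ ≤ f := by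
  by_contra hcon
  have h10 : f ≤ α + ρ := by omega
  have e1 : (s + 1) * (f * Fμ) ≤ (B + s) * (α * Eμ + ρ * Eμ) := by
    calc (s + 1) * (f * Fμ) = f * ((s + 1) * Fμ) := by ring
      _ = f * ((μ + s) * Eμ) := by rw [h1]
      _ ≤ (α + ρ) * ((B + s) * Eμ) := by
          refine Nat.mul_le_mul h10 (Nat.mul_le_mul_right _ (by omega))
      _ = (B + s) * (α * Eμ + ρ * Eμ) := by ring
  have e2 : (S + s) * E0 ≤ (B + s) * τ + (B + s) * (α * Eμ + ρ * Eμ) := by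
    calc (S + s) * E0 = (s + 1) * F0 := h2
      _ ≤ (s + 1) * (Z + f * Fμ) := Nat.mul_le_mul_left _ h3
      _ = (s + 1) * Z + (s + 1) * (f * Fμ) := by ring
      _ ≤ _ := Nat.add_le_add h4 e1
  have e3 : (B + s) * τ + (B + s) * (α * Eμ + ρ * Eμ) ≤ (B + s) * E0 + (B + s) * (ρ * Eμ) := by
    rw [← Nat.mul_add, ← Nat.mul_add]
    refine Nat.mul_le_mul_left _ ?_
    omega
  have e4 : (B + s) * E0 + E0 ≤ (S + s) * E0 := by
    calc (B + s) * E0 + E0 = (B + 1 + s) * E0 := by ring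
      _ ≤ (S + s) * E0 := Nat.mul_le_mul_right _ (by omega)
  omega

/-- The bound `4 (B + s) ρ Eμ ≤ E0` from the numerical conditions. `E1 = ell s (S - 1)`. -/
theorem room_arith (d s S B ρ E0 E1 Eμ : ℕ) (h1 : E1 * (S - 1 + s) = E0 * (S - 1))
    (h2 : 4 * (d + 1) * (ρ * Eμ) ≤ E1) (h3 : B + 1 ≤ S) (h4 : S ≤ d + 1) (h5 : 2 ≤ S) :
    4 * ((B + s) * (ρ * Eμ)) ≤ E0 := by
  have h6 : 0 < S - 1 := by omega
  refine Nat.le_of_mul_le_mul_right ?_ h6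
  calc 4 * ((B + s) * (ρ * Eμ)) * (S - 1) = (B + s) * (4 * (S - 1) * (ρ * Eμ)) := by ring
    _ ≤ (S - 1 + s) * (4 * (d + 1) * (ρ * Eμ)) := by
        refine Nat.mul_le_mul (by omega) (Nat.mul_le_mul_right _ (by omega))
    _ ≤ (S - 1 + s) * E1 := Nat.mul_le_mul_left _ h2
    _ = E0 * (S - 1) := by rw [← h1]; ring

/-- The load after a step. -/
theorem load_arith (d s x S τ' R E0 E1 : ℕ) (h1 : E1 * (S - 1 + s) = E0 * (S - 1))
    (h2 : (x + s) * τ' ≤ x * E0 + (x + s) * R) (h3 : 4 * (d + 1) * R ≤ E1) (h4 : x + 2 ≤ S)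
    (h5 : S ≤ d + 1) (h6 : d + 1 ≤ s) : 4 * (d + 1) * τ' ≤ (4 * (d + 1) - 1) * E1 := by
  obtain ⟨k, rfl⟩ : ∃ k, S = k + 1 := ⟨S - 1, by omega⟩
  rw [Nat.add_sub_cancel] at h1
  have hk : 0 < k := by omega
  have hxs : 0 < x + s := by omega
  have hpos : 0 < k * (x + s) := Nat.mul_pos hk hxs
  refine Nat.le_of_mul_le_mul_left ?_ hpos
  have e1 : k * (x + s) * (4 * (d + 1) * τ') ≤
      4 * (d + 1) * (x * (k + s)) * E1 + k * (x + s) * E1 := by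
    calc k * (x + s) * (4 * (d + 1) * τ') = 4 * (d + 1) * k * ((x + s) * τ') := by ring
      _ ≤ 4 * (d + 1) * k * (x * E0 + (x + s) * R) := Nat.mul_le_mul_left _ h2
      _ = 4 * (d + 1) * x * (E0 * k) + k * (x + s) * (4 * (d + 1) * R) := by ring
      _ = 4 * (d + 1) * x * (E1 * (k + s)) + k * (x + s) * (4 * (d + 1) * R) := by rw [h1]
      _ ≤ 4 * (d + 1) * x * (E1 * (k + s)) + k * (x + s) * E1 :=
          Nat.add_le_add_left (Nat.mul_le_mul_left _ h3) _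
      _ = _ := by ring
  have e2 : 4 * (d + 1) * (x * (k + s)) + 2 * (k * (x + s)) ≤ 4 * (d + 1) * (k * (x + s)) := by
    obtain ⟨j, rfl⟩ : ∃ j, k = x + 1 + j := ⟨k - x - 1, by omega⟩
    have e3 : 2 * ((x + 1 + j) * (x + s)) ≤ 4 * (d + 1) * (s * (j + 1)) := by
      calc 2 * ((x + 1 + j) * (x + s)) ≤ 2 * ((d + 1) * (s + s)) := by
            refine Nat.mul_le_mul_left _ (Nat.mul_le_mul (by omega) (by omega))
        _ = 4 * (d + 1) * (s * 1) := by ring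
        _ ≤ _ := Nat.mul_le_mul_left _ (Nat.mul_le_mul_left _ (by omega))
    calc 4 * (d + 1) * (x * (x + 1 + j + s)) + 2 * ((x + 1 + j) * (x + s)) ≤
        4 * (d + 1) * (x * (x + 1 + j + s)) + 4 * (d + 1) * (s * (j + 1)) :=
          Nat.add_le_add_left e3 _
      _ = 4 * (d + 1) * ((x + 1 + j) * (x + s)) := by ring
  refine le_trans e1 ?_
  obtain ⟨K, hK⟩ : ∃ K, 4 * (d + 1) = K + 1 := ⟨4 * (d + 1) - 1, by omega⟩
  rw [hK] at e2 ⊢
  rw [Nat.add_sub_cancel]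
  have e4 : (K + 1) * (x * (k + s)) + k * (x + s) ≤ K * (k * (x + s)) := by nlinarith
  calc (K + 1) * (x * (k + s)) * E1 + k * (x + s) * E1 =
      ((K + 1) * (x * (k + s)) + k * (x + s)) * E1 := by ring
    _ ≤ (K * (k * (x + s))) * E1 := Nat.mul_le_mul_right _ e4
    _ = k * (x + s) * (K * E1) := by ring

/-- The number of the remaining points at the end. -/
theorem rest_arith (s S B f τ Z E0 F0 Fμ K : ℕ) (h2 : (S + s) * E0 = (s + 1) * F0)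
    (h3 : F0 ≤ Z + f * Fμ) (h4 : (s + 1) * Z ≤ (B + s) * τ) (h5 : (K + 1) * τ ≤ K * E0)
    (h6 : B ≤ S) (h7 : 1 ≤ B) : E0 ≤ (K + 1) * (f * Fμ) := by
  have h8 : 0 < s + 1 := by omega
  refine Nat.le_of_mul_le_mul_left ?_ h8
  have e1 : (K + 1) * ((S + s) * E0) ≤ (B + s) * (K * E0) + (K + 1) * ((s + 1) * (f * Fμ)) := by
    calc (K + 1) * ((S + s) * E0) = (K + 1) * ((s + 1) * F0) := by rw [h2]
      _ ≤ (K + 1) * ((s + 1) * (Z + f * Fμ)) :=
          Nat.mul_le_mul_left _ (Nat.mul_le_mul_left _ h3)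
      _ = (K + 1) * ((s + 1) * Z) + (K + 1) * ((s + 1) * (f * Fμ)) := by ring
      _ ≤ (K + 1) * ((B + s) * τ) + (K + 1) * ((s + 1) * (f * Fμ)) :=
          Nat.add_le_add_right (Nat.mul_le_mul_left _ h4) _
      _ = (B + s) * ((K + 1) * τ) + (K + 1) * ((s + 1) * (f * Fμ)) := by ring
      _ ≤ _ := Nat.add_le_add_right (Nat.mul_le_mul_left _ h5) _
  have e2 : (B + s) * (K * E0) + (B + s) * E0 ≤ (K + 1) * ((S + s) * E0) := by
    calc (B + s) * (K * E0) + (B + s) * E0 = (K + 1) * ((B + s) * E0) := by ring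
      _ ≤ _ := Nat.mul_le_mul_left _ (Nat.mul_le_mul_right _ (by omega))
  have e3 : (s + 1) * E0 ≤ (B + s) * E0 := Nat.mul_le_mul_right _ (by omega)
  calc (s + 1) * E0 ≤ (K + 1) * ((s + 1) * (f * Fμ)) := by omega
    _ = (s + 1) * ((K + 1) * (f * Fμ)) := by ring

end Pool.Agent.H21.NX
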