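import Pool.Agent.H21.NX.GenB
import Pool.Agent.H21.HD.BridgeB

/-!
# Module Single: one general point imposes independent conditions

Proof: `≥` is `le_gdim_elim` with the empty family (`gdim_empty`) or `finrank_fatForms_ge`.  `≤`:
`finrank_fat_add_powSpan` (H21/HD/BridgeA) at any point `p ≠ 0`, say all coordinates `1`: the
degree `d` part of the ideal generated by `lin p ^ (d + 1 - t)` contains the image of the injective
map `g ↦ g * lin p ^ (d + 1 - t)` from forms of degree `t - 1`, of dimension
`binom(t - 1 + r, r) = ell r t` (`1 ≤ t ≤ d + 1`); for `t = 0` use `ell_zero`.  (Or put the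
point at `(1, 0, …, 0)` and count monomials.)
-/

namespace Pool.Agent.H21.NX

open Finset MvPolynomial Pool.Agent.H18.Fat Pool.Agent.H18.Ex

theorem gdim_single (r d : ℕ) (hr : 1 ≤ r) (t : ℕ) (ht : t ≤ d + 1) :
    gdim r d (fun _ : Unit => t) + ell r t = (d + r).choose r := by
  apply le_antisymm
  · -- upper bound
    obtain ⟨p, hp⟩ : ∃ p : Unit → Fin (r + 1) → ℂ, ∀ i j, p i j = 1 := ⟨fun _ _ => 1, fun _ _ => rfl⟩
    have h1 := gdim_le r d (fun _ : Unit => t) p
    rcases Nat.eq_zero_or_pos t with h0 | h0
    · subst h0
      rw [ell_zero hr, add_zero]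
      have h2 := Pool.Agent.H21.HD.finrank_fat_add_powSpan d p (fun _ : Unit => 0)
      omega
    · rcases Nat.lt_or_ge d t with hd | hd
      · have htd : t = d + 1 := by omega
        subst htd
        have h2 : Module.finrank ℂ (fatForms r d p (fun _ : Unit => d + 1)) = 0 := by
          apply Pool.Agent.H21.HD.fat_eq_bot_of_span
          intro F hF
          refine Submodule.subset_span ⟨(), F, ?_, ?_, ?_⟩
          · simp
          · simpa using hF
          · simp
        have h3 : ell r (d + 1) = (d + r).choose r := by
          unfold ell
          congr 1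
          omega
        rw [h3]
        omega
      · have hlin : Pool.Agent.H21.HD.lin (p ()) ≠ 0 := by
          intro h
          have h2 := congrArg (MvPolynomial.coeff (Finsupp.single (0 : Fin (r + 1)) 1)) h
          unfold Pool.Agent.H21.HD.lin at h2
          rw [MvPolynomial.coeff_sum, MvPolynomial.coeff_zero,
            Finset.sum_eq_single (0 : Fin (r + 1))] at h2
          · rw [MvPolynomial.coeff_C_mul, MvPolynomial.coeff_X, hp] at h2
            norm_num at h2
          · intro b _ hb
            rw [MvPolynomial.coeff_C_mul, MvPolynomial.coeff_X, if_neg, mul_zero]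
            intro h3
            exact hb (Finsupp.single_left_injective one_ne_zero h3)
          · intro h3
            exact absurd (mem_univ _) h3
        have h2 := Pool.Agent.H21.HD.finrank_fat_of_indep d p (fun _ : Unit => t)
          (fun _ => ⟨h0, hd⟩) (by
            intro g _ hsum i
            rw [Fintype.sum_unique] at hsum
            rcases mul_eq_zero.1 hsum with h3 | h3
            · exact h3
            · exact absurd (eq_zero_of_pow_eq_zero h3) hlin)
        rw [Fintype.sum_unique] at h2
        unfold ell
        omega
  · -- lower bound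
    have h1 := le_gdim_elim r d hr (fun _ : Fin 0 => 0) (fun _ : Unit => t)
    rw [gdim_empty, Fintype.sum_unique] at h1
    have h2 := gdim_comp_equiv r d (Equiv.emptySum (Fin 0) Unit).symm
      (Sum.elim (fun _ : Fin 0 => 0) (fun _ : Unit => t))
    rw [← h2] at h1
    exact h1

end Pool.Agent.H21.NX
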