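import Pool.Agent.H21.NX.Swap
import Pool.Agent.H21.NX.Single

/-!
# Module Chain: the decoupling theorem

Proof.  Let `A_j = (m, M, …, M)` (`j` copies), `g_j = gdim A_j`, `c_j = g_j - gdim (A_j, t)`.  All
`g_j`, `j ≤ ell r t - 1`, are nonzero (`gdim_elim_le`, `hne`).  Suppose `c_0 ≠ ell r t`; then
`c_0 ≤ ell r t - 1` (`le_gdim_elim`), so `1 ≤ t`.  By `gdim_submod` `c_{j+1} ≤ c_j`; if
`c_{j+1} = c_j` then `swap_step` gives `c_j = N - gdim t = ell r t` (`gdim_single`), but
`c_j ≤ c_0 < ell r t`.  So `c_{j+1} ≤ c_j - 1` for `j < ell r t - 1` and `c_{ell r t - 1} = 0`,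
that is, `gdim (A_j, t) = gdim A_j` for `j = ell r t - 1`; by `gdim_simple` `g_j = 0`,
a contradiction.  (Use `gdim_comp_equiv` to compare `Sum.elim (Sum.elim m (fun _ : Fin j => M))
(fun _ : Unit => M)` and `Sum.elim m (fun _ : Fin (j + 1) => M)`.)
-/

namespace Pool.Agent.H21.NX

open Finset MvPolynomial Pool.Agent.H18.Fat Pool.Agent.H18.Ex

namespace ChainX

variable (r d : ℕ) {κ : Type} [Fintype κ] [DecidableEq κ] (m : κ → ℕ) (t M : ℕ)

/-- An equivalence of index types. -/
noncomputable def eqv (κ : Type) (j : ℕ) : (κ ⊕ Fin j) ⊕ Unit ≃ κ ⊕ Fin (j + 1) :=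
  (Equiv.sumAssoc κ (Fin j) Unit).trans
    (Equiv.sumCongr (Equiv.refl κ) (Fintype.equivOfCardEq (by simp)))

theorem g_succ (j : ℕ) :
    gdim r d (Sum.elim (Sum.elim m fun _ : Fin j => M) fun _ : Unit => M) =
      gdim r d (Sum.elim m fun _ : Fin (j + 1) => M) := by
  rw [← gdim_comp_equiv r d (eqv κ j)]
  congr 1
  funext i
  rcases i with (i | i) | i <;> rfl

theorem G_succ (j : ℕ) :
    gdim r d (Sum.elim (Sum.elim (Sum.elim m fun _ : Fin j => M) fun _ : Unit => M)
        fun _ : Unit => t) =
      gdim r d (Sum.elim (Sum.elim m fun _ : Fin (j + 1) => M) fun _ : Unit => t) := by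
  rw [← gdim_comp_equiv r d (Equiv.sumCongr (eqv κ j) (Equiv.refl Unit))]
  congr 1
  funext i
  rcases i with ((i | i) | i) | i <;> rfl

theorem g_zero : gdim r d (Sum.elim m fun _ : Fin 0 => M) = gdim r d m := by
  rw [← gdim_comp_equiv r d (Equiv.sumEmpty κ (Fin 0))]
  congr 1
  funext i
  rcases i with i | i
  · rfl
  · exact i.elim0

theorem G_zero : gdim r d (Sum.elim (Sum.elim m fun _ : Fin 0 => M) fun _ : Unit => t) =
    gdim r d (Sum.elim m fun _ : Unit => t) := by
  rw [← gdim_comp_equiv r d (Equiv.sumCongr (Equiv.sumEmpty κ (Fin 0)) (Equiv.refl Unit))]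
  congr 1
  funext i
  rcases i with (i | i) | i
  · rfl
  · exact i.elim0
  · rfl

end ChainX

open ChainX in
theorem decouple (r d : ℕ) (hr : 1 ≤ r) {κ : Type} [Fintype κ] [DecidableEq κ] (m : κ → ℕ)
    (t M : ℕ) (hm : ∀ a, m a ≤ M) (ht : t ≤ M) (htd : t ≤ d + 1)
    (hne : gdim r d (Sum.elim m fun _ : Fin (ell r t - 1) => M) ≠ 0) :
    gdim r d m = gdim r d (Sum.elim m fun _ : Unit => t) + ell r t := by
  have _ := ht
  set g : ℕ → ℕ := fun j => gdim r d (Sum.elim m fun _ : Fin j => M) with hg
  set G : ℕ → ℕ := fun j =>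
    gdim r d (Sum.elim (Sum.elim m fun _ : Fin j => M) fun _ : Unit => t) with hG
  have h1 : ∀ j, G j ≤ g j := fun j => gdim_elim_le r d _ _
  have h2 : ∀ j, g j ≤ G j + ell r t := fun j => by
    have := le_gdim_elim r d hr (Sum.elim m fun _ : Fin j => M) (fun _ : Unit => t)
    simpa using this
  have h3 : ∀ j, g (j + 1) ≤ g j := fun j => by
    have := gdim_elim_le r d (Sum.elim m fun _ : Fin j => M) (fun _ : Unit => M)
    rw [g_succ] at this
    exact this
  have h3' : ∀ j k, j ≤ k → g k ≤ g j := fun j k hjk => by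
    induction k, hjk using Nat.le_induction with
    | base => exact le_rfl
    | succ k _ ih => exact (h3 k).trans ih
  have h4 : ∀ j, G j + g (j + 1) ≤ g j + G (j + 1) := fun j => by
    have := gdim_submod r d (Sum.elim m fun _ : Fin j => M) (fun _ : Unit => M)
      (fun _ : Unit => t)
    rw [g_succ, G_succ] at this
    change g (j + 1) + G j ≤ g j + G (j + 1) at this
    omega
  have h5 : ∀ j, g j ≠ 0 → G j + g (j + 1) = g j + G (j + 1) → g j = G j + ell r t := by
    intro j hj he
    have hmj : ∀ a, (Sum.elim m fun _ : Fin j => M) a ≤ M := by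
      rintro (a | a)
      · exact hm a
      · exact le_rfl
    have := swap_step r d (Sum.elim m fun _ : Fin j => M) t M hmj (by
      rw [g_succ, G_succ]
      change g j + G (j + 1) = G j + g (j + 1)
      exact he.symm)
    have h6 := gdim_single r d hr t htd
    rcases this with h | h
    · exact absurd h hj
    · change g j + _ = G j + _ at h
      omega
  have hg0 : g 0 = gdim r d m := g_zero r d m M
  have hG0 : G 0 = gdim r d (Sum.elim m fun _ : Unit => t) := G_zero r d m t M
  rw [← hg0, ← hG0]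
  by_contra hcon
  have a1 := h1 0
  have a2 := h2 0
  have hpos : 1 ≤ ell r t := by omega
  have ht1 : 1 ≤ t := by
    by_contra h
    have h0 : t = 0 := by omega
    rw [h0, ell_zero hr] at hpos
    omega
  have key : ∀ j, j ≤ ell r t - 1 → g j - G j + j ≤ ell r t - 1 := by
    intro j
    induction j with
    | zero => intro _; omega
    | succ j ih =>
      intro hj
      have i1 := ih (by omega)
      have i2 := h4 j
      have i3 := h1 j
      have i4 := h1 (j + 1)
      have i5 : g j ≠ 0 := by
        intro h0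
        have := h3' j (ell r t - 1) (by omega)
        change gdim r d _ ≤ _ at this
        omega
      have i6 : G j + g (j + 1) ≠ g j + G (j + 1) := fun he => by
        have := h5 j i5 he
        omega
      omega
  have k1 := key _ le_rfl
  have k2 := h1 (ell r t - 1)
  have k3 : G (ell r t - 1) = g (ell r t - 1) := by omega
  exact hne (gdim_simple r d _ t ht1 k3)

end Pool.Agent.H21.NX
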