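import Pool.Agent.H21.NX.NumA

/-!
# Module NumB: the numerical conditions hold for large `s`

Everything follows from the bounds of NumA by comparing exponents of `s`: with `U = 2 ^ (d + 1)`,
`V = (d + 1) ^ (d + 1)` and `d + 1 ≤ s` we have `ell s c ≤ U * s ^ (c - 1)` and
`s ^ (c - 1) ≤ V * ell s c` for `1 ≤ c ≤ d + 1` (and the same for `s + 1`).
Exponents, with `B = Bc M μ c = max (M - μ + c) μ`:
* `nc`: left `(c - 1) + (B - 1) + (μ - 1)` and `2 (μ - 1)`, right `d - μ + c - 1`, strictly larger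
  because `2 μ + M ≤ d + 1` and `2 ≤ c ≤ μ ≤ M`: gain a factor `s`;
* `q`: left `2 (B - 1)`, right `(d - μ) + (c - 1)`, at least as large because `2 M ≤ d + 1`,
  `3 μ ≤ d + 1`: use that `K` is large;
* `f1`: left `d - μ`, `M - 1`, `2 (B - 1)` with `c = 1`, right `d - μ` (`K` large);
* `f2`: left `(μ - 1) + (d + 1 - 2 μ)`, right `d - μ + 1`: gain a factor `s`;
* `e2`: left `(d - μ) + (μ - 1)`, `(μ - 1) + (M - 1)`, `d - 1`, `M - 1`, right `(d - μ) + (μ - 1)`: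
  `K0` large compared with `K`;
* `e3`: left `(d - μ) + (μ - 1) = d - 1`, right `d`: gain a factor `s`;
* `e4`: left `2 (M - 1)`, right `d - 1` (`K0` large).
-/

namespace Pool.Agent.H21.NX

open Pool.Agent.H18.Ex

namespace NumBX

/-- upper constant -/
def U (d : ℕ) : ℕ := 2 ^ (d + 1)

/-- lower constant -/
def V (d : ℕ) : ℕ := (d + 1) ^ (d + 1)

theorem U_pos (d : ℕ) : 1 ≤ U d := Nat.one_le_two_pow

theorem V_pos (d : ℕ) : 1 ≤ V d := Nat.one_le_pow _ _ (by omega)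

theorem up (d s c : ℕ) (hc : 1 ≤ c) (hcd : c ≤ d + 1) (hs : d + 1 ≤ s) :
    ell s c ≤ U d * s ^ (c - 1) := by
  refine (ell_le_pow s c hc (by omega)).trans ?_
  rw [mul_pow]
  exact Nat.mul_le_mul_right _ (Nat.pow_le_pow_right (by norm_num) (by omega))

theorem up' (d s c : ℕ) (hc : 1 ≤ c) (hcd : c ≤ d + 1) (hs : d + 1 ≤ s) :
    ell (s + 1) c ≤ U d * s ^ (c - 1) := by
  refine (ell_succ_le_pow s c hc (by omega)).trans ?_
  rw [mul_pow]
  exact Nat.mul_le_mul_right _ (Nat.pow_le_pow_right (by norm_num) (by omega))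

theorem cc_le (d c : ℕ) (hcd : c ≤ d + 1) : c ^ c ≤ V d :=
  (Nat.pow_le_pow_left hcd c).trans (Nat.pow_le_pow_right (by omega) hcd)

theorem lo (d s c : ℕ) (hc : 1 ≤ c) (hcd : c ≤ d + 1) : s ^ (c - 1) ≤ V d * ell s c :=
  (pow_le_ell s c hc).trans (Nat.mul_le_mul_right _ (cc_le d c hcd))

theorem lo' (d s c : ℕ) (hc : 1 ≤ c) (hcd : c ≤ d + 1) : s ^ (c - 1) ≤ V d * ell (s + 1) c :=
  (pow_le_ell_succ s c hc).trans (Nat.mul_le_mul_right _ (cc_le d c hcd))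

theorem Bc_le {M μ c : ℕ} (hμM : μ ≤ M) (hc : c ≤ μ) : Bc M μ c ≤ M := by
  unfold Bc; exact max_le (by omega) hμM

theorem Bc_ge {M μ c : ℕ} : μ ≤ Bc M μ c := by
  unfold Bc; exact le_max_right _ _

/-- `2 (B - 1) ≤ (d - μ) + (c - 1)` -/
theorem Bc_exp {d M μ c : ℕ} (hμ : 1 ≤ μ) (hμM : μ ≤ M) (hM : 2 * M ≤ d + 1)
    (h : 2 * μ + M ≤ d + 1) (h1 : 1 ≤ c) (hc : c ≤ μ) :
    2 * (Bc M μ c - 1) ≤ (d - μ) + (c - 1) := by
  unfold Bc
  rcases max_cases (M - μ + c) μ with ⟨h', _⟩ | ⟨h', _⟩ <;> rw [h'] <;> omega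

end NumBX

open NumBX

theorem num_e1 (d : ℕ) : ∃ K1 : ℕ, ∀ K, K1 ≤ K → ∃ s0 : ℕ, ∀ s, s0 ≤ s → ∀ μ M : ℕ, 2 ≤ μ →
    μ ≤ M → 2 * M ≤ d + 1 → 2 * μ + M ≤ d + 1 → Num d s μ M (K * s ^ (d - μ)) := by
  refine ⟨3 * U d ^ 2 * V d, fun K hK => ⟨d + 1 + 8 * (d + 1) * U d ^ 3 * V d,
    fun s hs μ M hμ hμM hM h => ?_⟩⟩
  have hds : d + 1 ≤ s := by omega
  have hs1 : 1 ≤ s := by omega
  have hbig : 8 * (d + 1) * U d ^ 3 * V d ≤ s := by omega
  have hV := V_pos d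
  have hU := U_pos d
  refine ⟨hμ, hμM, h, hds, fun c hc2 hcμ => ?_, fun c hc1 hcμ => ?_, ?_, ?_⟩
  · -- nc
    have hB := Bc_le hμM hcμ
    have hB' : μ ≤ Bc M μ c := Bc_ge
    set B := Bc M μ c with hBdef
    have u1 := up d s c (by omega) (by omega) hds
    have u2 := up d s B (by omega) (by omega) hds
    have u3 := up d s μ (by omega) (by omega) hds
    have l1 := lo d s (d - μ + c) (by omega) (by omega)
    set e := d - μ + c - 1 with he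
    obtain ⟨f, hf⟩ : ∃ f, e = f + 1 := ⟨e - 1, by omega⟩
    have hpow1 : s ^ (c - 1) * s ^ (B - 1) * s ^ (μ - 1) ≤ s ^ f := by
      rw [← pow_add, ← pow_add]; exact Nat.pow_le_pow_right hs1 (by omega)
    have hpow2 : s ^ (μ - 1) * s ^ (μ - 1) ≤ s ^ f := by
      rw [← pow_add]; exact Nat.pow_le_pow_right hs1 (by omega)
    have hU23 : U d ^ 2 ≤ U d ^ 3 := Nat.pow_le_pow_right hU (by norm_num)
    have hL : (ell s c * ell s B + ell s μ) * ell s μ ≤ 2 * (U d ^ 3 * s ^ f) := by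
      calc (ell s c * ell s B + ell s μ) * ell s μ
          ≤ ((U d * s ^ (c - 1)) * (U d * s ^ (B - 1)) + U d * s ^ (μ - 1)) *
              (U d * s ^ (μ - 1)) :=
            Nat.mul_le_mul (Nat.add_le_add (Nat.mul_le_mul u1 u2) u3) u3
        _ = U d ^ 3 * (s ^ (c - 1) * s ^ (B - 1) * s ^ (μ - 1)) +
              U d ^ 2 * (s ^ (μ - 1) * s ^ (μ - 1)) := by ring
        _ ≤ U d ^ 3 * s ^ f + U d ^ 3 * s ^ f :=
            Nat.add_le_add (Nat.mul_le_mul_left _ hpow1) (Nat.mul_le_mul hU23 hpow2)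
        _ = 2 * (U d ^ 3 * s ^ f) := by ring
    refine le_of_mul_le_mul_left ?_ (show 0 < V d from hV)
    calc V d * (4 * (d + 1) * (ell s c * ell s B + ell s μ) * ell s μ)
        = V d * (4 * (d + 1)) * ((ell s c * ell s B + ell s μ) * ell s μ) := by ring
      _ ≤ V d * (4 * (d + 1)) * (2 * (U d ^ 3 * s ^ f)) := Nat.mul_le_mul_left _ hL
      _ = (8 * (d + 1) * U d ^ 3 * V d) * s ^ f := by ring
      _ ≤ s * s ^ f := Nat.mul_le_mul_right _ hbig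
      _ = s ^ e := by rw [hf, pow_succ]; ring
      _ ≤ V d * ell s (d - μ + c) := l1
  · -- q
    have hB := Bc_le hμM hcμ
    have hB' : μ ≤ Bc M μ c := Bc_ge
    have hexp := Bc_exp (by omega) hμM hM h hc1 hcμ
    set B := Bc M μ c with hBdef
    have u2 := up d s B (by omega) (by omega) hds
    have l1 := lo d s c hc1 (by omega)
    have hK' : U d ^ 2 * V d ≤ K := by nlinarith [Nat.zero_le (U d ^ 2 * V d)]
    calc ell s B ^ 2 ≤ (U d * s ^ (B - 1)) ^ 2 := Nat.pow_le_pow_left u2 2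
      _ = U d ^ 2 * s ^ (2 * (B - 1)) := by rw [mul_pow, ← pow_mul, mul_comm 2 (B - 1)]
      _ ≤ U d ^ 2 * s ^ ((d - μ) + (c - 1)) :=
          Nat.mul_le_mul_left _ (Nat.pow_le_pow_right hs1 hexp)
      _ = U d ^ 2 * s ^ (d - μ) * s ^ (c - 1) := by rw [pow_add]; ring
      _ ≤ U d ^ 2 * s ^ (d - μ) * (V d * ell s c) := Nat.mul_le_mul_left _ l1
      _ = (U d ^ 2 * V d) * s ^ (d - μ) * ell s c := by ring
      _ ≤ K * s ^ (d - μ) * ell s c :=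
          Nat.mul_le_mul_right _ (Nat.mul_le_mul_right _ hK')
  · -- f1
    have hB := Bc_le (c := 1) hμM (by omega)
    have hB' : μ ≤ Bc M μ 1 := Bc_ge
    have hexp := Bc_exp (c := 1) (by omega) hμM hM h le_rfl (by omega)
    set B := Bc M μ 1 with hBdef
    have u1 := up' d s (d - μ + 1) (by omega) (by omega) hds
    have u2 := up' d s M (by omega) (by omega) hds
    have u3 := up d s B (by omega) (by omega) hds
    have hU12 : U d ≤ U d ^ 2 := by nlinarith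
    have hp1 : U d * s ^ (d - μ + 1 - 1) ≤ U d ^ 2 * s ^ (d - μ) :=
      Nat.mul_le_mul hU12 (Nat.pow_le_pow_right hs1 (by omega))
    have hp2 : U d * s ^ (M - 1) ≤ U d ^ 2 * s ^ (d - μ) :=
      Nat.mul_le_mul hU12 (Nat.pow_le_pow_right hs1 (by omega))
    have hp3 : ell s B ^ 2 ≤ U d ^ 2 * s ^ (d - μ) := by
      calc ell s B ^ 2 ≤ (U d * s ^ (B - 1)) ^ 2 := Nat.pow_le_pow_left u3 2
        _ = U d ^ 2 * s ^ (2 * (B - 1)) := by rw [mul_pow, ← pow_mul, mul_comm 2 (B - 1)]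
        _ ≤ U d ^ 2 * s ^ (d - μ) :=
            Nat.mul_le_mul_left _ (Nat.pow_le_pow_right hs1 (by omega))
    have hK' : 3 * U d ^ 2 ≤ K := by
      calc 3 * U d ^ 2 = 3 * U d ^ 2 * 1 := by ring
        _ ≤ 3 * U d ^ 2 * V d := Nat.mul_le_mul_left _ hV
        _ ≤ K := hK
    calc ell (s + 1) (d - μ + 1) + ell (s + 1) M + ell s B ^ 2
        ≤ U d ^ 2 * s ^ (d - μ) + U d ^ 2 * s ^ (d - μ) + U d ^ 2 * s ^ (d - μ) :=
          Nat.add_le_add (Nat.add_le_add (u1.trans hp1) (u2.trans hp2)) hp3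
      _ = (3 * U d ^ 2) * s ^ (d - μ) := by ring
      _ ≤ K * s ^ (d - μ) := Nat.mul_le_mul_right _ hK'
  · -- f2
    have u1 := up' d s μ (by omega) (by omega) hds
    have u2 := up' d s (d + 2 - 2 * μ) (by omega) (by omega) hds
    have l1 := lo d s (d - μ + 2) (by omega) (by omega)
    have hpow : s ^ (μ - 1) * s ^ (d + 2 - 2 * μ - 1) ≤ s ^ (d - μ) := by
      rw [← pow_add]; exact Nat.pow_le_pow_right hs1 (by omega)
    have hU23 : U d ^ 2 ≤ U d ^ 3 := Nat.pow_le_pow_right hU (by norm_num)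
    refine le_of_mul_le_mul_left ?_ (show 0 < V d from hV)
    calc V d * (8 * (d + 1) * ell (s + 1) μ * ell (s + 1) (d + 2 - 2 * μ))
        = V d * (8 * (d + 1)) * (ell (s + 1) μ * ell (s + 1) (d + 2 - 2 * μ)) := by ring
      _ ≤ V d * (8 * (d + 1)) * ((U d * s ^ (μ - 1)) * (U d * s ^ (d + 2 - 2 * μ - 1))) :=
          Nat.mul_le_mul_left _ (Nat.mul_le_mul u1 u2)
      _ = V d * (8 * (d + 1)) * (U d ^ 2 * (s ^ (μ - 1) * s ^ (d + 2 - 2 * μ - 1))) := by ring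
      _ ≤ V d * (8 * (d + 1)) * (U d ^ 3 * s ^ (d - μ)) :=
          Nat.mul_le_mul_left _ (Nat.mul_le_mul hU23 hpow)
      _ = (8 * (d + 1) * U d ^ 3 * V d) * s ^ (d - μ) := by ring
      _ ≤ s * s ^ (d - μ) := Nat.mul_le_mul_right _ hbig
      _ = s ^ (d - μ + 2 - 1) := by
          rw [show d - μ + 2 - 1 = (d - μ) + 1 by omega, pow_succ]; ring
      _ ≤ V d * ell s (d - μ + 2) := l1

theorem num_e2 (d K : ℕ) : ∃ K0 : ℕ, ∀ K', K0 ≤ K' → ∃ s0 : ℕ, ∀ s, s0 ≤ s → ∀ μ M : ℕ, 1 ≤ μ →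
    μ ≤ M → 2 * M ≤ d + 1 → 2 * μ + M ≤ d + 1 →
    (K * s ^ (d - μ) + 1) * ell s μ + ell s μ * ell s M + ell (s + 1) d + ell (s + 1) M ≤
      K' * s ^ (d - μ) * ell (s + 1) μ := by
  refine ⟨(K * U d + 4 * U d ^ 2) * V d, fun K' hK' => ⟨d + 1, fun s hds μ M hμ hμM hM h => ?_⟩⟩
  have hs1 : 1 ≤ s := by omega
  have hU := U_pos d
  have hU12 : U d ≤ U d ^ 2 := by nlinarith
  have u1 := up d s μ (by omega) (by omega) hds
  have u2 := up d s M (by omega) (by omega) hds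
  have u3 := up' d s d (by omega) (by omega) hds
  have u4 := up' d s M (by omega) (by omega) hds
  have l1 := lo' d s μ hμ (by omega)
  have t1 : (K * s ^ (d - μ) + 1) * ell s μ ≤ (K * U d + U d ^ 2) * s ^ (d - 1) := by
    calc (K * s ^ (d - μ) + 1) * ell s μ ≤ (K * s ^ (d - μ) + 1) * (U d * s ^ (μ - 1)) :=
          Nat.mul_le_mul_left _ u1
      _ = K * U d * (s ^ (d - μ) * s ^ (μ - 1)) + U d * s ^ (μ - 1) := by ring
      _ ≤ K * U d * s ^ (d - 1) + U d ^ 2 * s ^ (d - 1) := by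
          refine Nat.add_le_add (Nat.mul_le_mul_left _ ?_)
            (Nat.mul_le_mul hU12 (Nat.pow_le_pow_right hs1 (by omega)))
          rw [← pow_add]; exact Nat.pow_le_pow_right hs1 (by omega)
      _ = (K * U d + U d ^ 2) * s ^ (d - 1) := by ring
  have t2 : ell s μ * ell s M ≤ U d ^ 2 * s ^ (d - 1) := by
    calc ell s μ * ell s M ≤ (U d * s ^ (μ - 1)) * (U d * s ^ (M - 1)) := Nat.mul_le_mul u1 u2
      _ = U d ^ 2 * (s ^ (μ - 1) * s ^ (M - 1)) := by ring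
      _ ≤ U d ^ 2 * s ^ (d - 1) := by
          refine Nat.mul_le_mul_left _ ?_
          rw [← pow_add]; exact Nat.pow_le_pow_right hs1 (by omega)
  have t3 : ell (s + 1) d ≤ U d ^ 2 * s ^ (d - 1) :=
    u3.trans (Nat.mul_le_mul_right _ hU12)
  have t4 : ell (s + 1) M ≤ U d ^ 2 * s ^ (d - 1) :=
    u4.trans (Nat.mul_le_mul hU12 (Nat.pow_le_pow_right hs1 (by omega)))
  calc (K * s ^ (d - μ) + 1) * ell s μ + ell s μ * ell s M + ell (s + 1) d + ell (s + 1) M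
      ≤ (K * U d + U d ^ 2) * s ^ (d - 1) + U d ^ 2 * s ^ (d - 1) + U d ^ 2 * s ^ (d - 1) +
          U d ^ 2 * s ^ (d - 1) :=
        Nat.add_le_add (Nat.add_le_add (Nat.add_le_add t1 t2) t3) t4
    _ = (K * U d + 4 * U d ^ 2) * s ^ (d - 1) := by ring
    _ = (K * U d + 4 * U d ^ 2) * (s ^ (d - μ) * s ^ (μ - 1)) := by
        rw [← pow_add, show d - μ + (μ - 1) = d - 1 by omega]
    _ ≤ (K * U d + 4 * U d ^ 2) * (s ^ (d - μ) * (V d * ell (s + 1) μ)) :=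
        Nat.mul_le_mul_left _ (Nat.mul_le_mul_left _ l1)
    _ = ((K * U d + 4 * U d ^ 2) * V d) * s ^ (d - μ) * ell (s + 1) μ := by ring
    _ ≤ K' * s ^ (d - μ) * ell (s + 1) μ :=
        Nat.mul_le_mul_right _ (Nat.mul_le_mul_right _ hK')

theorem num_e3 (d K' : ℕ) : ∃ s0 : ℕ, ∀ s, s0 ≤ s → ∀ μ : ℕ, 1 ≤ μ → μ ≤ d →
    (d + 1) * (K' * s ^ (d - μ) * ell (s + 1) μ) ≤ ell (s + 1) (d + 1) := by
  refine ⟨d + 1 + (d + 1) * K' * U d * V d, fun s hs μ hμ hμd => ?_⟩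
  have hds : d + 1 ≤ s := by omega
  have hs1 : 1 ≤ s := by omega
  have hbig : (d + 1) * K' * U d * V d ≤ s := by omega
  have hV := V_pos d
  have u1 := up' d s μ hμ (by omega) hds
  have l1 := lo' d s (d + 1) (by omega) (by omega)
  refine le_of_mul_le_mul_left ?_ (show 0 < V d from hV)
  calc V d * ((d + 1) * (K' * s ^ (d - μ) * ell (s + 1) μ))
      ≤ V d * ((d + 1) * (K' * s ^ (d - μ) * (U d * s ^ (μ - 1)))) :=
        Nat.mul_le_mul_left _ (Nat.mul_le_mul_left _ (Nat.mul_le_mul_left _ u1))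
    _ = ((d + 1) * K' * U d * V d) * (s ^ (d - μ) * s ^ (μ - 1)) := by ring
    _ = ((d + 1) * K' * U d * V d) * s ^ (d - 1) := by
        rw [← pow_add, show d - μ + (μ - 1) = d - 1 by omega]
    _ ≤ s * s ^ (d - 1) := Nat.mul_le_mul_right _ hbig
    _ = s ^ (d + 1 - 1) := by
        rw [mul_comm, ← pow_succ, show d - 1 + 1 = d + 1 - 1 by omega]
    _ ≤ V d * ell (s + 1) (d + 1) := l1

theorem num_e4 (d : ℕ) : ∃ K0 : ℕ, ∀ K', K0 ≤ K' → ∃ s0 : ℕ, ∀ s, s0 ≤ s → ∀ M : ℕ,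
    2 * M ≤ d + 1 → 1 ≤ M →
    ell (s + 1) M + ell (s + 1) M ^ 2 ≤ K' * s ^ (d - 1) := by
  refine ⟨2 * U d ^ 2, fun K' hK' => ⟨d + 1, fun s hds M hM hM1 => ?_⟩⟩
  have hs1 : 1 ≤ s := by omega
  have hU := U_pos d
  have hU12 : U d ≤ U d ^ 2 := by nlinarith
  have u1 := up' d s M hM1 (by omega) hds
  have t1 : ell (s + 1) M ≤ U d ^ 2 * s ^ (d - 1) :=
    u1.trans (Nat.mul_le_mul hU12 (Nat.pow_le_pow_right hs1 (by omega)))
  have t2 : ell (s + 1) M ^ 2 ≤ U d ^ 2 * s ^ (d - 1) := by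
    calc ell (s + 1) M ^ 2 ≤ (U d * s ^ (M - 1)) ^ 2 := Nat.pow_le_pow_left u1 2
      _ = U d ^ 2 * s ^ (2 * (M - 1)) := by rw [mul_pow, ← pow_mul, mul_comm 2 (M - 1)]
      _ ≤ U d ^ 2 * s ^ (d - 1) :=
          Nat.mul_le_mul_left _ (Nat.pow_le_pow_right hs1 (by omega))
  calc ell (s + 1) M + ell (s + 1) M ^ 2 ≤ U d ^ 2 * s ^ (d - 1) + U d ^ 2 * s ^ (d - 1) :=
        Nat.add_le_add t1 t2
    _ = (2 * U d ^ 2) * s ^ (d - 1) := by ring
    _ ≤ K' * s ^ (d - 1) := Nat.mul_le_mul_right _ hK'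

/-- All conditions together. -/
theorem exists_num (d : ℕ) : ∃ K K' s0 : ℕ, 1 ≤ K' ∧ 1 ≤ s0 ∧ ∀ s, s0 ≤ s → ∀ μ M : ℕ, 1 ≤ μ →
    μ ≤ M → 2 * M ≤ d + 1 → 2 * μ + M ≤ d + 1 →
    (2 ≤ μ → Num d s μ M (K * s ^ (d - μ))) ∧
    (K * s ^ (d - μ) + 1) * ell s μ + ell s μ * ell s M + ell (s + 1) d + ell (s + 1) M ≤
      K' * s ^ (d - μ) * ell (s + 1) μ ∧
    (d + 1) * (K' * s ^ (d - μ) * ell (s + 1) μ) ≤ ell (s + 1) (d + 1) ∧
    ell (s + 1) M + ell (s + 1) M ^ 2 ≤ K' * s ^ (d - 1) := by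
  obtain ⟨K, hK⟩ := num_e1 d
  obtain ⟨s1, h1⟩ := hK K le_rfl
  obtain ⟨K2, hK2⟩ := num_e2 d K
  obtain ⟨K4, hK4⟩ := num_e4 d
  obtain ⟨s2, h2⟩ := hK2 (K2 + K4 + 1) (by omega)
  obtain ⟨s3, h3⟩ := num_e3 d (K2 + K4 + 1)
  obtain ⟨s4, h4⟩ := hK4 (K2 + K4 + 1) (by omega)
  refine ⟨K, K2 + K4 + 1, s1 + s2 + s3 + s4 + 1, by omega, by omega, fun s hs μ M hμ hμM hM h => ?_⟩
  exact ⟨fun hμ2 => h1 s (by omega) μ M hμ2 hμM hM h, h2 s (by omega) μ M hμ hμM hM h,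
    h3 s (by omega) μ hμ (by omega), h4 s (by omega) M hM (by omega)⟩

end Pool.Agent.H21.NX
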