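import Pool.Agent.H21.NX.Start
import Pool.Agent.H21.NX.NumB

/-!
# Module Core: many points of multiplicity `μ`
-/

namespace Pool.Agent.H21.NX

open Finset Pool.Agent.H18.Ex

theorem tot_cons (n a : ℕ) (S : Multiset ℕ) : tot n (a ::ₘ S) = ell n a + tot n S := by
  unfold tot
  rw [Multiset.map_cons, Multiset.sum_cons]

/-- Greedy choice of a sub-multiset. -/
theorem greedy (n M x T : ℕ) (hx : x ≤ T) (R : Multiset ℕ) :
    (∀ m ∈ R, m ≤ M) → T ≤ x + tot n R →
      ∃ R' ≤ R, T ≤ x + tot n R' ∧ x + tot n R' ≤ T + ell n M := by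
  induction R using Multiset.induction_on with
  | empty =>
    intro _ hT
    refine ⟨0, le_rfl, hT, ?_⟩
    rw [tot_zero]
    omega
  | cons a R ih =>
    intro hM hT
    by_cases h : T ≤ x + tot n R
    · obtain ⟨R', h1, h2, h3⟩ := ih (fun m hm => hM m (Multiset.mem_cons_of_mem hm)) h
      exact ⟨R', le_trans h1 (Multiset.le_cons_self _ _), h2, h3⟩
    · refine ⟨_, le_rfl, hT, ?_⟩
      rw [tot_cons]
      have := ell_mono n (hM a (Multiset.mem_cons_self _ _))
      omega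

theorem tot_filter_pos (n : ℕ) (hn : 1 ≤ n) (S : Multiset ℕ) :
    tot n (S.filter (1 ≤ ·)) = tot n S := by
  induction S using Multiset.induction_on with
  | empty => rfl
  | cons a S ih =>
    by_cases h : 1 ≤ a
    · rw [Multiset.filter_cons_of_pos _ h, tot_cons, tot_cons, ih]
    · rw [Multiset.filter_cons_of_neg _ h, tot_cons, ih, show a = 0 by omega, ell_zero hn,
        Nat.zero_add]

/-- Many points of multiplicity `μ`, the others of multiplicity at most `M`. -/
theorem core (d : ℕ) : ∃ K' s0 : ℕ, 1 ≤ K' ∧ 1 ≤ s0 ∧ ∀ s, s0 ≤ s → ∀ μ M : ℕ, 1 ≤ μ →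
    μ ≤ M → 2 * M ≤ d + 1 → 2 * μ + M ≤ d + 1 →
    (d + 1) * (K' * s ^ (d - μ) * ell (s + 1) μ) ≤ ell (s + 1) (d + 1) ∧
    ∀ S : Multiset ℕ, (∀ m ∈ S, m ≤ M) → K' * s ^ (d - μ) ≤ S.count μ →
      ell (s + 1) (d + 1) ≤ tot (s + 1) S →
      GM (Sx (Fin (s + 2)) d) (S.map Kind.free) := by
  obtain ⟨K, K', s0, hK', hs0, hnum⟩ := exists_num d
  refine ⟨K', s0, hK', hs0, fun s hs μ M hμ hμM hM h => ?_⟩
  obtain ⟨e1, e2, e3, e4⟩ := hnum s hs μ M hμ hμM hM h
  refine ⟨e3, fun S hS hcount hT => ?_⟩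
  have hs1 : 1 ≤ s := le_trans hs0 hs
  set κ := K' * s ^ (d - μ) with hκ
  have hsub : Multiset.replicate κ μ ≤ S.filter (1 ≤ ·) := by
    rw [← Multiset.le_count_iff_replicate_le, Multiset.count_filter_of_pos hμ]
    exact hcount
  obtain ⟨R, hR⟩ := Multiset.le_iff_exists_add.1 hsub
  have hRmem : ∀ m ∈ R, 1 ≤ m ∧ m ≤ M := by
    intro m hm
    have h1 : m ∈ S.filter (1 ≤ ·) := by
      rw [hR]
      exact Multiset.mem_add.2 (Or.inr hm)
    exact ⟨(Multiset.mem_filter.1 h1).2, hS m (Multiset.mem_filter.1 h1).1⟩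
  have htot : tot (s + 1) S = κ * ell (s + 1) μ + tot (s + 1) R := by
    rw [← tot_filter_pos (s + 1) (by omega) S, hR, tot_add, tot_replicate]
  have hxT : κ * ell (s + 1) μ ≤ ell (s + 1) (d + 1) := by
    refine le_trans ?_ e3
    calc κ * ell (s + 1) μ = 1 * (κ * ell (s + 1) μ) := (Nat.one_mul _).symm
      _ ≤ _ := Nat.mul_le_mul_right _ (by omega)
  obtain ⟨R', hR'R, hR'1, hR'2⟩ := greedy (s + 1) M (κ * ell (s + 1) μ) (ell (s + 1) (d + 1))
    hxT R (fun m hm => (hRmem m hm).2) (by rw [← htot]; exact hT)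
  have hR'mem : ∀ m ∈ R', 1 ≤ m ∧ m ≤ M := fun m hm => hRmem m (Multiset.mem_of_le hR'R hm)
  have hle : R' + Multiset.replicate κ μ ≤ S := by
    refine le_trans ?_ (Multiset.filter_le (1 ≤ ·) S)
    rw [hR, add_comm]
    exact add_le_add_right hR'R _
  refine GM.mono (Multiset.map_le_map hle) ?_
  rcases Nat.eq_or_lt_of_le hμ with hμ1 | hμ2
  · -- simple points: the window theorem
    rw [← hμ1] at hR'1 hR'2 ⊢
    rw [ell_one, mul_one] at hR'1 hR'2
    refine window_GM (s + 1) d (by omega) _ M ?_ ?_ ?_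
    · intro t ht
      rcases Multiset.mem_add.1 ht with ht | ht
      · exact (hR'mem t ht).2
      · rw [Multiset.eq_of_mem_replicate ht]
        omega
    · intro t ht ht2
      have htM : t ≤ M := by
        rcases Multiset.mem_add.1 ht with ht | ht
        · exact (hR'mem t ht).2
        · rw [Multiset.eq_of_mem_replicate ht]
          omega
      refine window_cond' (s + 1) (by omega) R' κ M _ ?_ t ht2 htM
      rw [← hμ1] at hκ
      rw [← hκ] at e4
      omega
    · rw [tot_add, tot_replicate, ell_one]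
      omega
  · rw [Multiset.map_add, Multiset.map_replicate]
    exact start (0 : Fin (s + 2)) (e1 hμ2) R' κ hR'mem e2 (by omega) (by omega)

end Pool.Agent.H21.NX
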