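import Pool.Agent.H18.Ex.Multi
import Pool.Agent.H18.Ex.Ell
import Pool.Agent.H18.FatToric

/-!
# Project NX: exactness in high dimension, definitions

`ell n m = binom(m + n - 1, n)` is the length of a point of multiplicity `m` in dimension `n`.
Forms of degree `σ` in `s + 2` variables (dimension `s + 1`): `ell (s + 1) (σ + 1)` exponents;
the exponents with `a l = 0` (dimension `s`): `ell s (σ + 1)`.
-/

namespace Pool.Agent.H21.NX

open Finset MvPolynomial Pool.Agent.H18.Fat Pool.Agent.H18.Ex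

/-- All exponent vectors of degree `σ`. -/
def Sx (ι : Type) [Fintype ι] [DecidableEq ι] (σ : ℕ) : Finset (ι → ℕ) :=
  (Fintype.piFinset fun _ => range (σ + 1)).filter fun a => ∑ i, a i = σ

theorem mem_Sx {ι : Type} [Fintype ι] [DecidableEq ι] {σ : ℕ} {a : ι → ℕ} :
    a ∈ Sx ι σ ↔ ∑ i, a i = σ := by
  unfold Sx
  rw [mem_filter, Fintype.mem_piFinset]
  constructor
  · exact fun h => h.2
  · intro h
    refine ⟨fun i => ?_, h⟩
    rw [mem_range, Nat.lt_succ_iff, ← h]
    exact single_le_sum (fun j _ => Nat.zero_le (a j)) (mem_univ i)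

/-- General points, for a finite index type. -/
def Gen (r : ℕ) (κ : Type) (P : (κ → Fin (r + 1) → ℂ) → Prop) : Prop :=
  ∃ G : MvPolynomial (κ × Fin (r + 1)) ℂ, G ≠ 0 ∧
    ∀ p : κ → Fin (r + 1) → ℂ, eval (fun x => p x.1 x.2) G ≠ 0 → P p

/-- The dimension of `V_d(Γ)` for general points. -/
noncomputable def gdim (r d : ℕ) {κ : Type} (m : κ → ℕ) : ℕ :=
  sInf (Set.range fun p : κ → Fin (r + 1) → ℂ => Module.finrank ℂ (fatForms r d p m))

/-- The total length of a multiset of multiplicities in dimension `n`. -/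
def tot (n : ℕ) (S : Multiset ℕ) : ℕ := (S.map (ell n)).sum

/-- The forced conditions on `x_l = 0` given by a multiset of pairs `(c, e)`. -/
def fk {ι : Type} (l : ι) (Φ : Multiset (ℕ × ℕ)) : Multiset (Kind ι) :=
  Φ.map fun x => Kind.forced l x.1 x.2

/-- Validity of a multiset of forced conditions with multiplicities at most `B`. -/
def OKF (B : ℕ) (Φ : Multiset (ℕ × ℕ)) : Prop :=
  ∀ x ∈ Φ, 1 ≤ x.2 ∧ x.2 ≤ 2 ∧ x.2 ≤ x.1 ∧ x.1 ≤ B

/-- The trace length (dimension `s`) of forced conditions. -/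
def tl (s : ℕ) (Φ : Multiset (ℕ × ℕ)) : ℕ := (Φ.map fun x => ell s x.1).sum

/-- The length (dimension `s + 1`) of forced conditions. -/
def fl (s : ℕ) (Φ : Multiset (ℕ × ℕ)) : ℕ := (Φ.map fun x => ell (s + 1) x.1 + 1 - x.2).sum

/-- The forced conditions after a Horace step: `Φ` were forced before, the points of `N0` and
`α` points of multiplicity `μ` are put on the hyperplane, `ρ` points of multiplicity `μ` are
differential. -/
def nxt (Φ : Multiset (ℕ × ℕ)) (N0 : Multiset ℕ) (μ α ρ : ℕ) : Multiset (ℕ × ℕ) :=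
  (Φ.map (fun x : ℕ × ℕ => (x.1 - 1, x.2)) + N0.map (fun m => (m - 1, 1)) +
    Multiset.replicate α (μ - 1, 1) + Multiset.replicate ρ (μ, 2)).filter fun x : ℕ × ℕ => x.2 ≤ x.1

/-- The multiplicities of the traces in the Horace step. -/
def trc (Φ : Multiset (ℕ × ℕ)) (N0 : Multiset ℕ) (μ α ρ : ℕ) : Multiset ℕ :=
  Φ.map Prod.fst + N0 + Multiset.replicate α μ + Multiset.replicate ρ 1

/-- The bound for the multiplicities on the hyperplane at stage `c`. -/
def Bc (M μ c : ℕ) : ℕ := max (M - μ + c) μ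

/-- The numerical conditions. -/
structure Num (d s μ M A : ℕ) : Prop where
  hμ : 2 ≤ μ
  hμM : μ ≤ M
  h2 : 2 * μ + M ≤ d + 1
  hds : d + 1 ≤ s
  nc : ∀ c, 2 ≤ c → c ≤ μ →
    4 * (d + 1) * (ell s c * ell s (Bc M μ c) + ell s μ) * ell s μ ≤ ell s (d - μ + c)
  q : ∀ c, 1 ≤ c → c ≤ μ → ell s (Bc M μ c) ^ 2 ≤ A * ell s c
  f1 : ell (s + 1) (d - μ + 1) + ell (s + 1) M + ell s (Bc M μ 1) ^ 2 ≤ A
  f2 : 8 * (d + 1) * ell (s + 1) μ * ell (s + 1) (d + 2 - 2 * μ) ≤ ell s (d - μ + 2)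

end Pool.Agent.H21.NX
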