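import Pool.Agent.H21.NX.Core
import Pool.Agent.H21.NX.MaxGM

/-!
# Module Final: exactness in high dimension
-/

namespace Pool.Agent.H21.NX

open Finset Pool.Agent.H18.Fat Pool.Agent.H18.Ex

theorem ell_eq_choose (r d : ℕ) : ell r (d + 1) = (d + r).choose r := by
  unfold ell
  rw [show d + 1 + r - 1 = d + r by omega]

/-- The multiplicities together with simple points up to the expected number of conditions. -/
def aug (r d : ℕ) {k : ℕ} (m : Fin k → ℕ) : Multiset ℕ :=
  (univ : Finset (Fin k)).val.map m +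
    Multiset.replicate ((d + r).choose r - ∑ i, ell r (m i)) 1

theorem aug_map (r d : ℕ) {k : ℕ} (m : Fin k → ℕ) :
    (aug r d m).map (Kind.free (ι := Fin (r + 1))) =
      ((univ : Finset (Fin k)).val.map fun i => Kind.free (m i)) +
      Multiset.replicate ((d + r).choose r - ∑ i, ell r (m i)) (Kind.free 1) := by
  unfold aug
  rw [Multiset.map_add, Multiset.map_map, Multiset.map_replicate]
  rfl

theorem le_tot_aug (r d : ℕ) {k : ℕ} (m : Fin k → ℕ) :
    ell r (d + 1) ≤ tot r (aug r d m) := by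
  unfold aug
  rw [tot_add, tot_replicate, ell_one, mul_one, ell_eq_choose]
  have : tot r ((univ : Finset (Fin k)).val.map m) = ∑ i, ell r (m i) := by
    unfold tot
    rw [Multiset.map_map]
    rfl
  omega

theorem mem_aug {r d k : ℕ} {m : Fin k → ℕ} {M : ℕ} (hM : 1 ≤ M) (h : ∀ i, m i ≤ M) :
    ∀ x ∈ aug r d m, x ≤ M := by
  intro x hx
  rcases Multiset.mem_add.1 hx with hx | hx
  · obtain ⟨i, -, rfl⟩ := Multiset.mem_map.1 hx
    exact h i
  · rw [Multiset.eq_of_mem_replicate hx]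
    exact hM

theorem count_le_aug (r d : ℕ) {k : ℕ} (m : Fin k → ℕ) (μ : ℕ) :
    (univ.filter fun i => m i = μ).card ≤ (aug r d m).count μ := by
  unfold aug
  rw [Multiset.count_add]
  refine le_trans (le_of_eq ?_) (Nat.le_add_right _ _)
  rw [Multiset.count_map, ← Finset.filter_val, Finset.card_def]
  congr 2
  exact Finset.filter_congr fun x _ => eq_comm

/-- Part 2. -/
theorem exact_many (d : ℕ) : ∃ K r₀ : ℕ, ∀ r, r₀ ≤ r → ∀ μ M : ℕ, 1 ≤ μ → μ ≤ M →
    2 * M ≤ d + 1 → 2 * μ + M ≤ d + 1 → ∀ (k : ℕ) (m : Fin k → ℕ), (∀ i, m i ≤ M) →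
    K * r ^ (d - μ) ≤ (univ.filter fun i => m i = μ).card →
    ForGeneralPoints r k fun p => ImposesMaximalConditions r d p m := by
  obtain ⟨K', s0, hK', hs0, hcore⟩ := core d
  refine ⟨K', s0 + 1, fun r hr μ M hμ hμM hM h k m hm hcount => ?_⟩
  obtain ⟨s, rfl⟩ : ∃ s, r = s + 1 := ⟨r - 1, by omega⟩
  obtain ⟨-, hc⟩ := hcore s (by omega) μ M hμ hμM hM h
  refine max_of_GM (s + 1) k d (by omega) m ?_
  rw [← aug_map]
  refine hc (aug (s + 1) d m) (mem_aug (by omega) hm) ?_ (le_tot_aug _ _ m)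
  refine le_trans ?_ (le_trans hcount (count_le_aug _ _ m μ))
  exact Nat.mul_le_mul_left _ (Nat.pow_le_pow_left (Nat.le_succ _) _)

/-- Pigeonhole. -/
theorem exists_count (n M X : ℕ) (S : Multiset ℕ) (hn : 1 ≤ n) (hS : ∀ m ∈ S, m ≤ M)
    (hM : M * X < tot n S) : ∃ μ, 1 ≤ μ ∧ μ ≤ M ∧ X ≤ S.count μ * ell n μ := by
  by_contra hcon
  push Not at hcon
  have h1 : tot n S = ∑ μ ∈ Finset.range (M + 1), S.count μ * ell n μ := by
    unfold tot
    have h2 := Finset.sum_multiset_map_count S (ell n)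
    rw [h2]
    rw [Finset.sum_subset (s₂ := Finset.range (M + 1))]
    · exact Finset.sum_congr rfl fun x _ => by rw [smul_eq_mul]
    · intro x hx
      rw [Finset.mem_range, Nat.lt_succ_iff]
      exact hS x (Multiset.mem_toFinset.1 hx)
    · intro x _ hx
      rw [Multiset.count_eq_zero_of_notMem (fun h => hx (Multiset.mem_toFinset.2 h)), zero_smul]
  rw [Finset.sum_range_succ', ell_zero hn, mul_zero, add_zero] at h1
  have h3 : ∑ μ ∈ Finset.range M, S.count (μ + 1) * ell n (μ + 1) ≤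
      ∑ μ ∈ Finset.range M, X := by
    refine Finset.sum_le_sum fun μ hμ => ?_
    exact (hcon (μ + 1) (by omega) (by have := Finset.mem_range.1 hμ; omega)).le
  rw [Finset.sum_const, Finset.card_range, smul_eq_mul] at h3
  omega

/-- Part 1. -/
theorem exact_small (d : ℕ) : ∃ r₀ : ℕ, ∀ r, r₀ ≤ r → ∀ (k : ℕ) (m : Fin k → ℕ),
    (∀ i, 3 * m i ≤ d + 1) →
    ForGeneralPoints r k fun p => ImposesMaximalConditions r d p m := by
  obtain ⟨K', s0, hK', hs0, hcore⟩ := core d
  refine ⟨s0 + 1, fun r hr k m hm => ?_⟩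
  obtain ⟨s, rfl⟩ : ∃ s, r = s + 1 := ⟨r - 1, by omega⟩
  set M := (d + 1) / 3 with hMdef
  have hmM : ∀ i, m i ≤ M := fun i => by
    have := hm i
    omega
  rcases Nat.eq_zero_or_pos M with hM0 | hM1
  · exact window_fin (s + 1) d (by omega) 0 m (fun i => by have := hmM i; omega)
      (fun i hi => by have := hmM i; omega)
  refine max_of_GM (s + 1) k d (by omega) m ?_
  rw [← aug_map]
  have hS := mem_aug (r := s + 1) (d := d) hM1 hmM
  have htot := le_tot_aug (s + 1) d m
  have hs1 : 1 ≤ s := by omega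
  -- the lengths are large
  have hX : ∀ μ, 1 ≤ μ → μ ≤ M → (d + 1) * (K' * s ^ (d - μ) * ell (s + 1) μ) ≤
      ell (s + 1) (d + 1) := fun μ h1 h2 =>
    (hcore s (by omega) μ M h1 h2 (by omega) (by omega)).1
  have hpos : 1 ≤ ell (s + 1) (d + 1) := ell_pos _ (by omega)
  obtain ⟨μ, hμ1, hμM, hμ⟩ := exists_count (s + 1) M (ell (s + 1) (d + 1) / (d + 1))
    (aug (s + 1) d m) (by omega) hS (by
      refine lt_of_lt_of_le ?_ htot
      have h1 : M < d + 1 := by omega
      by_cases h0 : ell (s + 1) (d + 1) / (d + 1) = 0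
      · rw [h0, Nat.mul_zero]
        exact hpos
      · calc M * (ell (s + 1) (d + 1) / (d + 1)) < (d + 1) * (ell (s + 1) (d + 1) / (d + 1)) :=
              Nat.mul_lt_mul_of_pos_right h1 (Nat.pos_of_ne_zero h0)
          _ ≤ _ := Nat.mul_div_le _ _)
  have hcount : K' * s ^ (d - μ) ≤ (aug (s + 1) d m).count μ := by
    refine Nat.le_of_mul_le_mul_right ?_ (ell_pos (s + 1) hμ1)
    refine le_trans ?_ hμ
    rw [Nat.le_div_iff_mul_le (by omega), mul_comm]
    exact hX μ hμ1 hμM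
  exact (hcore s (by omega) μ M hμ1 hμM (by omega) (by omega)).2 _ hS hcount htot

end Pool.Agent.H21.NX
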