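import Pool.Agent.H21.NX.GenB
import Pool.Agent.H21.HD.PowSpanL

/-!
# Module GL: the span of the spaces `V_d(Γ)`

If `V_d(Γ)` is, for general `Γ`, contained in a fixed subspace `X` not containing all forms of
degree `d`, then `V_d(Γ) = 0` for general `Γ`.

Proof.  Let `φ` be a linear functional killing `X` but not all forms of degree `d`
(`Submodule.exists_le_ker_of_notMem`), and `G ≠ 0` the polynomial of `h`; take `p₀` with
`G(p₀) ≠ 0` and show `fatForms r d p₀ m = ⊥` (then `gdim_le`).  Let `F ∈ fatForms r d p₀ m`.  For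
a square matrix `A` put `p_A i = adjugate(A) *ᵥ p₀ i`.  Then `linSubst A F` (`F(Ax)`) is
homogeneous of degree `d` and vanishes to order `m i` at `p_A i` if `det A ≠ 0`, since
`A p_A i = det A • p₀ i` (`linSubst_shift`, `vanishes_linSubst` etc. in H18/FatToric; vanishing of
a homogeneous form at `c • q`, `c ≠ 0`, is the same as at `q`: `linSubst` with a scalar matrix).  So
`φ(linSubst A F) = 0` whenever `det A * G(p_A) ≠ 0`; both sides are polynomials in the entries of
`A`, and `det A * G(p_A)` is not the zero polynomial (value `G(p₀)` at `A = 1`), hence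
`φ(linSubst A F) = 0` for all `A`.  For the rank one matrix `A i j = c i * v j` one has
`linSubst A F = C (F(c)) * lin v ^ d` (`lin` from H21/HD/Defs), so `F(c) * φ(lin v ^ d) = 0`
for all `c`, `v`.  If `F ≠ 0` there is `c` with `F(c) ≠ 0`, so `φ` kills all `lin v ^ d`, which span
the forms of degree `d` (`Pool.Agent.H21.HD.PowSpanLX.span_all`): contradiction.
-/

namespace Pool.Agent.H21.NX

open Finset MvPolynomial Pool.Agent.H18.Fat Pool.Agent.H18.Ex Pool.Agent.H21.HD

namespace GLX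

/-- Homogeneous polynomials and scalar multiples of the arguments. -/
theorem aeval_mul_homog {n d : ℕ} {S : Type*} [CommRing S] [Algebra ℂ S]
    {F : MvPolynomial (Fin n) ℂ} (hF : F.IsHomogeneous d) (z : S) (f : Fin n → S) :
    aeval (fun i => z * f i) F = z ^ d * aeval f F := by
  rw [aeval_def, aeval_def, eval₂_eq', eval₂_eq', mul_sum]
  refine sum_congr rfl fun s hs => ?_
  have h1 : s.degree = d := by
    by_contra hne
    exact (mem_support_iff.1 hs) (hF.coeff_eq_zero hne)
  have h2 : ∏ i, (z * f i) ^ s i = z ^ d * ∏ i, f i ^ s i := by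
    simp_rw [mul_pow]
    rw [prod_mul_distrib, prod_pow_eq_pow_sum, ← Finsupp.degree_eq_sum, h1]
  rw [h2]
  ring

theorem linSubst_scalar {n d : ℕ} {F : MvPolynomial (Fin n) ℂ} (hF : F.IsHomogeneous d) (c : ℂ) :
    linSubst (c • (1 : Matrix (Fin n) (Fin n) ℂ)) F = C (c ^ d) * F := by
  have h1 : linSubst (c • (1 : Matrix (Fin n) (Fin n) ℂ)) F =
      aeval (fun i => (C c : MvPolynomial (Fin n) ℂ) * X i) F := by
    unfold linSubst
    refine congrArg (fun f : Fin n → MvPolynomial (Fin n) ℂ => aeval f F) (funext fun i => ?_)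
    rw [sum_eq_single i]
    · simp
    · intro j _ hj
      simp [Ne.symm hj]
    · intro h
      exact absurd (mem_univ i) h
  rw [h1, aeval_mul_homog hF, C_pow, aeval_X_left, AlgHom.id_apply]

theorem vanishes_smul {n d m : ℕ} {F : MvPolynomial (Fin n) ℂ} (hF : F.IsHomogeneous d)
    {q : Fin n → ℂ} (h : VanishesToOrder F q m) {c : ℂ} (hc : c ≠ 0) :
    VanishesToOrder F (c • q) m := by
  have h1 : ((c⁻¹ • (1 : Matrix (Fin n) (Fin n) ℂ)).mulVec (c • q)) = q := by
    rw [Matrix.smul_mulVec, Matrix.one_mulVec, smul_smul, inv_mul_cancel₀ hc, one_smul]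
  have h2 : VanishesToOrder (linSubst (c⁻¹ • (1 : Matrix (Fin n) (Fin n) ℂ)) F) (c • q) m :=
    vanishes_linSubst (by rw [h1]; exact h)
  rw [linSubst_scalar hF] at h2
  intro β hβ
  have h3 := h2 β hβ
  unfold shift at h3 ⊢
  rw [map_mul, aeval_C, algebraMap_eq, coeff_C_mul] at h3
  rcases mul_eq_zero.1 h3 with h4 | h4
  · exact absurd h4 (pow_ne_zero _ (inv_ne_zero hc))
  · exact h4

/-- The generic substitution. -/
noncomputable def gF {n : ℕ} :
    MvPolynomial (Fin n) ℂ →+* MvPolynomial (Fin n) (MvPolynomial (Fin n × Fin n) ℂ) :=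
  eval₂Hom (C.comp C) (fun i => ∑ j, C (X (i, j)) * X j)

theorem map_gF {n : ℕ} (A : Matrix (Fin n) (Fin n) ℂ) (F : MvPolynomial (Fin n) ℂ) :
    MvPolynomial.map (eval fun x : Fin n × Fin n => A x.1 x.2) (gF F) = linSubst A F := by
  have h : (MvPolynomial.map (eval fun x : Fin n × Fin n => A x.1 x.2)).comp gF =
      (linSubst A).toRingHom := by
    apply ringHom_ext
    · intro c
      simp [gF, linSubst]
    · intro i
      simp [gF, linSubst]
  exact DFunLike.congr_fun h F

theorem aeval_C_eq {n : ℕ} (c : Fin n → ℂ) (F : MvPolynomial (Fin n) ℂ) :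
    aeval (fun i => (C (c i) : MvPolynomial (Fin n) ℂ)) F = C (eval c F) := by
  induction F using MvPolynomial.induction_on with
  | C c => simp
  | add p q hp hq => rw [map_add, map_add, map_add, hp, hq]
  | mul_X p i hp => rw [map_mul, map_mul, map_mul, hp, aeval_X, eval_X]

theorem homog_eq' {n d : ℕ} {F : MvPolynomial (Fin n) ℂ} (hF : F.IsHomogeneous d) :
    F = ∑ s ∈ mons n d, monomial s (coeff s F) := by
  classical
  ext s
  rw [coeff_sum]
  simp only [coeff_monomial]
  rw [Finset.sum_ite_eq']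
  split_ifs with h
  · rfl
  · rw [mem_mons] at h
    exact hF.coeff_eq_zero h

theorem eval_aeval' {σ τ : Type*} (a : τ → ℂ) (g : σ → MvPolynomial τ ℂ)
    (G : MvPolynomial σ ℂ) : eval a (aeval g G) = eval (fun x => eval a (g x)) G := by
  induction G using MvPolynomial.induction_on with
  | C c => simp
  | add p q hp hq => rw [map_add, map_add, map_add, hp, hq]
  | mul_X p i hp => rw [map_mul, map_mul, map_mul, hp, aeval_X, eval_X]

theorem functional_poly {n d : ℕ} (φ : MvPolynomial (Fin n) ℂ →ₗ[ℂ] ℂ)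
    {F : MvPolynomial (Fin n) ℂ} (hF : F.IsHomogeneous d) :
    ∃ Q : MvPolynomial (Fin n × Fin n) ℂ, ∀ A : Matrix (Fin n) (Fin n) ℂ,
      eval (fun x => A x.1 x.2) Q = φ (linSubst A F) := by
  refine ⟨∑ t ∈ mons n d, coeff t (gF F) * C (φ (monomial t 1)), fun A => ?_⟩
  conv_rhs => rw [homog_eq' (linSubst_isHomogeneous A hF), map_sum]
  rw [map_sum]
  refine sum_congr rfl fun t _ => ?_
  rw [map_mul, eval_C]
  have h1 : (monomial t) (coeff t (linSubst A F)) =
      (coeff t (linSubst A F)) • (monomial t (1 : ℂ)) := by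
    rw [smul_monomial, smul_eq_mul, mul_one]
  rw [h1, map_smul, smul_eq_mul, ← map_gF, coeff_map]

end GLX

open GLX

/-- Step 1: the polynomial identity in the entries of the matrix. -/
theorem gl_all {r d : ℕ} {κ : Type} [Fintype κ] (m : κ → ℕ)
    (φ : MvPolynomial (Fin (r + 1)) ℂ →ₗ[ℂ] ℂ) (G : MvPolynomial (κ × Fin (r + 1)) ℂ)
    (hG : ∀ p : κ → Fin (r + 1) → ℂ, eval (fun x => p x.1 x.2) G ≠ 0 →
      ∀ F ∈ fatForms r d p m, φ F = 0)
    (p₀ : κ → Fin (r + 1) → ℂ) (hp₀ : eval (fun x => p₀ x.1 x.2) G ≠ 0)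
    (F : MvPolynomial (Fin (r + 1)) ℂ) (hF : F ∈ fatForms r d p₀ m)
    (A : Matrix (Fin (r + 1)) (Fin (r + 1)) ℂ) : φ (linSubst A F) = 0 := by
  classical
  obtain ⟨Q, hQ⟩ := functional_poly φ hF.1
  -- the polynomial `det A * G(p_A)`
  let N := Matrix.mvPolynomialX (Fin (r + 1)) (Fin (r + 1)) ℂ
  have hN : ∀ A : Matrix (Fin (r + 1)) (Fin (r + 1)) ℂ,
      (eval fun x : Fin (r + 1) × Fin (r + 1) => A x.1 x.2).mapMatrix N = A :=
    fun A => Matrix.mvPolynomialX_mapMatrix_eval A
  let D : MvPolynomial (Fin (r + 1) × Fin (r + 1)) ℂ :=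
    N.det * aeval (fun x : κ × Fin (r + 1) => ∑ j, N.adjugate x.2 j * C (p₀ x.1 j)) G
  have hD : ∀ A : Matrix (Fin (r + 1)) (Fin (r + 1)) ℂ,
      eval (fun x => A x.1 x.2) D = A.det *
        eval (fun x : κ × Fin (r + 1) => (A.adjugate.mulVec (p₀ x.1)) x.2) G := by
    intro A
    have h1 : eval (fun x : Fin (r + 1) × Fin (r + 1) => A x.1 x.2) N.det = A.det := by
      rw [RingHom.map_det, hN]
    have h2 : ∀ i j, eval (fun x : Fin (r + 1) × Fin (r + 1) => A x.1 x.2) (N.adjugate i j) =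
        A.adjugate i j := by
      intro i j
      have h3 := RingHom.map_adjugate (eval fun x : Fin (r + 1) × Fin (r + 1) => A x.1 x.2) N
      rw [hN] at h3
      have h4 := congrFun (congrFun h3 i) j
      simpa using h4
    simp only [D, map_mul, h1]
    rw [eval_aeval']
    have h6 : (fun x : κ × Fin (r + 1) => eval (fun x : Fin (r + 1) × Fin (r + 1) => A x.1 x.2)
        (∑ j, N.adjugate x.2 j * C (p₀ x.1 j))) =
        fun x : κ × Fin (r + 1) => (A.adjugate.mulVec (p₀ x.1)) x.2 := by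
      funext x
      rw [map_sum]
      simp only [map_mul, h2, eval_C]
      rfl
    rw [h6]
  have hQD : Q * D = 0 := by
    apply MvPolynomial.funext
    intro a
    let A : Matrix (Fin (r + 1)) (Fin (r + 1)) ℂ := Matrix.of fun i j => a (i, j)
    have ha : a = fun x : Fin (r + 1) × Fin (r + 1) => A x.1 x.2 := by
      funext x
      rfl
    rw [map_mul, map_zero, ha, hQ, hD]
    by_cases hdet : A.det = 0
    · rw [hdet, zero_mul, mul_zero]
    by_cases hGA : eval (fun x : κ × Fin (r + 1) => (A.adjugate.mulVec (p₀ x.1)) x.2) G = 0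
    · rw [hGA, mul_zero, mul_zero]
    have h1 : φ (linSubst A F) = 0 := by
      refine hG (fun i => A.adjugate.mulVec (p₀ i)) hGA _ ?_
      refine ⟨linSubst_isHomogeneous A hF.1, fun i => ?_⟩
      apply vanishes_linSubst
      have h2 : A.mulVec (A.adjugate.mulVec (p₀ i)) = A.det • p₀ i := by
        rw [Matrix.mulVec_mulVec, Matrix.mul_adjugate, Matrix.smul_mulVec, Matrix.one_mulVec]
      rw [h2]
      exact vanishes_smul hF.1 (hF.2 i) hdet
    rw [h1, zero_mul]
  have hD0 : D ≠ 0 := by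
    intro h0
    have h1 := hD 1
    rw [h0, map_zero, Matrix.det_one, one_mul] at h1
    apply hp₀
    rw [h1]
    have h2 : (fun x : κ × Fin (r + 1) => p₀ x.1 x.2) = fun x : κ × Fin (r + 1) =>
        ((1 : Matrix (Fin (r + 1)) (Fin (r + 1)) ℂ).adjugate.mulVec (p₀ x.1)) x.2 := by
      funext x
      rw [Matrix.adjugate_one, Matrix.one_mulVec]
    rw [h2]
  have hQ0 : Q = 0 := (mul_eq_zero.1 hQD).resolve_right hD0
  rw [← hQ, hQ0, map_zero]

/-- Step 2: rank one matrices. -/
theorem linSubst_rank_one {r d : ℕ} (F : MvPolynomial (Fin (r + 1)) ℂ) (hF : F.IsHomogeneous d)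
    (c v : Fin (r + 1) → ℂ) :
    linSubst (Matrix.of fun i j => c i * v j) F = C (eval c F) * lin v ^ d := by
  have h1 : linSubst (Matrix.of fun i j => c i * v j) F =
      aeval (fun i => lin v * (C (c i) : MvPolynomial (Fin (r + 1)) ℂ)) F := by
    unfold linSubst lin
    refine congrArg (fun f : Fin (r + 1) → MvPolynomial (Fin (r + 1)) ℂ => aeval f F)
      (funext fun i => ?_)
    rw [sum_mul]
    refine sum_congr rfl fun j _ => ?_
    rw [Matrix.of_apply, C_mul]
    ring
  rw [h1, aeval_mul_homog hF, mul_comm, aeval_C_eq]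

theorem gl_lemma (r d : ℕ) {κ : Type} [Fintype κ] (m : κ → ℕ)
    (X : Submodule ℂ (MvPolynomial (Fin (r + 1)) ℂ))
    (hX : ¬ homogeneousSubmodule (Fin (r + 1)) ℂ d ≤ X)
    (h : Gen r κ fun p => fatForms r d p m ≤ X) : gdim r d m = 0 := by
  classical
  obtain ⟨F₀, hF₀, hF₀X⟩ := SetLike.not_le_iff_exists.1 hX
  obtain ⟨φ, hφF₀, hφ⟩ := Submodule.exists_le_ker_of_notMem hF₀X
  obtain ⟨G, hG0, hG⟩ := h
  obtain ⟨a, ha⟩ : ∃ a, eval a G ≠ 0 := by
    by_contra hcon
    push Not at hcon
    exact hG0 (MvPolynomial.funext fun a => by rw [hcon a, map_zero])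
  let p₀ : κ → Fin (r + 1) → ℂ := fun i j => a (i, j)
  have hp₀ : eval (fun x : κ × Fin (r + 1) => p₀ x.1 x.2) G ≠ 0 := ha
  have hbot : fatForms r d p₀ m = ⊥ := by
    rw [Submodule.eq_bot_iff]
    intro F hF
    by_contra hF0
    obtain ⟨c, hc⟩ : ∃ c, eval c F ≠ 0 := by
      by_contra hcon
      push Not at hcon
      exact hF0 (MvPolynomial.funext fun a => by rw [hcon a, map_zero])
    have h1 : ∀ v : Fin (r + 1) → ℂ, φ (lin v ^ d) = 0 := by
      intro v
      have h2 := gl_all m φ G (fun p hp F hF => hφ (hG p hp hF)) p₀ hp₀ F hF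
        (Matrix.of fun i j => c i * v j)
      rw [linSubst_rank_one F hF.1, ← smul_eq_C_mul, map_smul, smul_eq_mul] at h2
      exact (mul_eq_zero.1 h2).resolve_left hc
    have h3 : homogeneousSubmodule (Fin (r + 1)) ℂ d ≤ LinearMap.ker φ := by
      rw [PowSpanLX.span_all, Submodule.span_le]
      rintro _ ⟨v, rfl⟩
      exact h1 v
    exact hφF₀ (h3 hF₀)
  have h4 := gdim_le r d m p₀
  rw [hbot, finrank_bot] at h4
  omega

end Pool.Agent.H21.NX
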