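import Pool.Agent.H21.NX.Defs

/-!
# Module GenA: general points for finite index types

`Gen` is the analogue of `ForGeneralPoints` (file `H18/FatToric`: `ForGeneralPoints.mono`, `.and`,
`.coord_ne_zero`) for an arbitrary index type.
-/

namespace Pool.Agent.H21.NX

open Finset MvPolynomial Pool.Agent.H18.Fat Pool.Agent.H18.Ex

theorem Gen.mono {r : ℕ} {κ : Type} {P Q : (κ → Fin (r + 1) → ℂ) → Prop}
    (h : Gen r κ P) (hPQ : ∀ p, P p → Q p) : Gen r κ Q := by
  obtain ⟨G, hG, h⟩ := h
  exact ⟨G, hG, fun p hp => hPQ p (h p hp)⟩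

theorem Gen.and {r : ℕ} {κ : Type} {P Q : (κ → Fin (r + 1) → ℂ) → Prop}
    (h : Gen r κ P) (h' : Gen r κ Q) : Gen r κ fun p => P p ∧ Q p := by
  obtain ⟨G, hG, h⟩ := h
  obtain ⟨G', hG', h'⟩ := h'
  refine ⟨G * G', mul_ne_zero hG hG', fun p hp => ?_⟩
  rw [map_mul] at hp
  exact ⟨h p (left_ne_zero_of_mul hp), h' p (right_ne_zero_of_mul hp)⟩

/-- A nonzero polynomial over `ℂ` has a non-root (`MvPolynomial.funext`). -/
theorem Gen.exists {r : ℕ} {κ : Type} {P : (κ → Fin (r + 1) → ℂ) → Prop}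
    (h : Gen r κ P) : ∃ p, P p := by
  obtain ⟨G, hG, h⟩ := h
  by_contra hcon
  push Not at hcon
  apply hG
  apply MvPolynomial.funext
  intro x
  rw [map_zero]
  by_contra hx
  exact hcon (fun i j => x (i, j)) (h (fun i j => x (i, j)) hx)

theorem Gen.all {r : ℕ} {κ α : Type} (s : Finset α) {P : α → (κ → Fin (r + 1) → ℂ) → Prop}
    (h : ∀ a ∈ s, Gen r κ (P a)) : Gen r κ fun p => ∀ a ∈ s, P a p := by
  classical
  induction s using Finset.induction_on with
  | empty => exact ⟨1, one_ne_zero, fun p _ a ha => absurd ha (Finset.notMem_empty a)⟩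
  | insert a s has ih =>
    have h1 := h a (Finset.mem_insert_self a s)
    have h2 := ih fun b hb => h b (Finset.mem_insert_of_mem hb)
    refine (h1.and h2).mono fun p hp b hb => ?_
    rcases Finset.mem_insert.mp hb with rfl | hb
    · exact hp.1
    · exact hp.2 b hb

/-- Use `MvPolynomial.rename` with the injective map `(i, j) ↦ (φ i, j)`. -/
theorem Gen.comap {r : ℕ} {κ κ' : Type} (φ : κ' → κ) (hφ : Function.Injective φ)
    {P : (κ' → Fin (r + 1) → ℂ) → Prop} (h : Gen r κ' P) :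
    Gen r κ fun p => P fun i => p (φ i) := by
  obtain ⟨G, hG, h⟩ := h
  have hinj : Function.Injective (fun x : κ' × Fin (r + 1) => (φ x.1, x.2)) := by
    intro x y hxy
    have h1 := congrArg Prod.fst hxy
    have h2 := congrArg Prod.snd hxy
    exact Prod.ext (hφ h1) h2
  refine ⟨rename (fun x : κ' × Fin (r + 1) => (φ x.1, x.2)) G, ?_, fun p hp => ?_⟩
  · intro h0
    apply hG
    apply rename_injective _ hinj
    rw [h0, map_zero]
  · apply h
    rw [eval_rename] at hp
    exact hp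

theorem Gen.coord_ne_zero (r : ℕ) (κ : Type) [Fintype κ] :
    Gen r κ fun p => ∀ i j, p i j ≠ 0 := by
  refine ⟨∏ x : κ × Fin (r + 1), X x, ?_, fun p hp i j => ?_⟩
  · rw [Finset.prod_ne_zero_iff]
    intro x _
    exact X_ne_zero x
  · rw [map_prod, Finset.prod_ne_zero_iff] at hp
    have := hp (i, j) (Finset.mem_univ _)
    rwa [eval_X] at this

end Pool.Agent.H21.NX
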