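import Pool.Agent.H21.NX.Conv
import Pool.Agent.H21.HD.PowSpanL
import Pool.Agent.H21.HD.BridgeB
import Pool.Agent.H21.HD.SpanRestrict

/-!
# Module KillMu: many general points of multiplicity `μ` kill everything

Proof.  Let `e = σ + 1 - μ`.  The forms of degree `e` are spanned by the powers `lin v ^ e`
(`PowSpanLX.span_all`), a space of dimension `ell (s + 1) (e + 1) = (Sx _ e).card ≤ f`; so there
are `f` vectors `p i` such that the `lin (p i) ^ e` span all forms of degree `e`
(a spanning set contains a basis, e.g. `Submodule.exists_fun_fin_finrank_span_eq` or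
`exists_linearIndependent`; the remaining `p i` are arbitrary).  Then every monomial of degree `σ`
is a product of a form of degree `μ - 1` and a form of degree `e`, so
`homogeneousSubmodule _ ℂ σ ≤ powSpan σ p (fun _ => σ + 1 - μ)`, and `fat_eq_bot_of_span`
(H21/HD/BridgeB) gives `finrank (fatForms ..) = 0`; `GI_of_fat`, `GM_iff`.
-/

namespace Pool.Agent.H21.NX

open Finset Pool.Agent.H18.Ex

open MvPolynomial Pool.Agent.H21.HD in
/-- There are `f` vectors whose powers generate all forms of degree `σ`. -/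
private theorem killMu_points (s e σ f : ℕ) (he : e ≤ σ)
    (hf : (s + 1 + e).choose e ≤ f) :
    ∃ p : Fin f → Fin (s + 2) → ℂ,
      homogeneousSubmodule (Fin (s + 2)) ℂ σ ≤ powSpan σ p (fun _ => e) := by
  obtain ⟨w, hw⟩ := pow_span (Fin (s + 2)) e
  have hcard : (Fintype.card (Fin (s + 2)) - 1 + e).choose e ≤ f := by
    rw [Fintype.card_fin, show s + 2 - 1 = s + 1 by omega]
    exact hf
  refine ⟨fun i => if hi : (i : ℕ) < (Fintype.card (Fin (s + 2)) - 1 + e).choose e then w ⟨i, hi⟩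
    else 0, ?_⟩
  apply powSpan_up e σ he
  refine hw.trans ?_
  rw [Submodule.span_le]
  rintro _ ⟨k, rfl⟩
  refine Submodule.subset_span ⟨⟨k, lt_of_lt_of_le k.2 hcard⟩, 1, le_refl _, ?_, ?_⟩
  · rw [Nat.sub_self]
    exact isHomogeneous_one _ _
  · show lin (w k) ^ e = 1 * lin (dite ((k : ℕ) < _) _ _) ^ e
    rw [dif_pos k.2, one_mul]

theorem kill_mu (s μ σ f : ℕ) (hμ : 1 ≤ μ) (h : μ ≤ σ + 1)
    (hf : ell (s + 1) (σ + 2 - μ) ≤ f) :
    GM (Sx (Fin (s + 2)) σ) (Multiset.replicate f (Kind.free μ)) := by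
  have hf' : (s + 1 + (σ + 1 - μ)).choose (σ + 1 - μ) ≤ f := by
    refine le_trans (le_of_eq ?_) hf
    unfold ell
    rw [show σ + 2 - μ + (s + 1) - 1 = s + 1 + (σ + 1 - μ) by omega]
    exact Nat.choose_symm_of_eq_add (by omega)
  obtain ⟨p, hp⟩ := killMu_points s (σ + 1 - μ) σ f (by omega) hf'
  have h1 := Pool.Agent.H21.HD.fat_eq_bot_of_span (r := s + 1) σ p (fun _ => μ) hp
  have h2 := GI_of_fat (n := s + 1) (d := σ) p (fun _ => μ) h1
  have h3 := (GM_iff (Sx (Fin (s + 2)) σ) (fun _ : Fin f => Kind.free μ)).mpr h2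
  rw [Multiset.map_const', Finset.card_val, Finset.card_univ, Fintype.card_fin] at h3
  exact h3

end Pool.Agent.H21.NX
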