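import Pool.Agent.H21.NX.Defs

/-!
# Module Layer: forms not involving a variable
-/

namespace Pool.Agent.H21.NX

open Finset MvPolynomial Pool.Agent.H18.Fat Pool.Agent.H18.Ex

/-- insertion of the value `c` at the coordinate `l` -/
private def lins {α : Type} {n : ℕ} (l : Fin (n + 1)) (c : α) (a : Fin n → α) : Fin (n + 1) → α :=
  l.insertNth (α := fun _ => α) c a

private theorem lins_same {α : Type} {n : ℕ} (l : Fin (n + 1)) (c : α) (a : Fin n → α) :
    lins l c a l = c := by
  unfold lins
  simp

private theorem lins_succ {α : Type} {n : ℕ} (l : Fin (n + 1)) (c : α) (a : Fin n → α)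
    (i : Fin n) : lins l c a (l.succAbove i) = a i := by
  unfold lins
  simp

private theorem lins_eta {α : Type} {n : ℕ} (l : Fin (n + 1)) (c : α) (a : Fin (n + 1) → α)
    (h : a l = c) : lins l c (fun i => a (l.succAbove i)) = a := by
  funext i
  rcases Fin.eq_self_or_eq_succAbove l i with h1 | ⟨j, h1⟩
  · rw [h1, lins_same, h]
  · rw [h1, lins_succ]

private theorem lins_inj {α : Type} {n : ℕ} (l : Fin (n + 1)) (c : α) :
    Function.Injective (lins l c : (Fin n → α) → Fin (n + 1) → α) := by
  intro a b h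
  funext i
  rw [← lins_succ l c a i, h, lins_succ]

private theorem lins_sum {n : ℕ} (l : Fin (n + 1)) (a : Fin n → ℕ) :
    ∑ i, lins l 0 a i = ∑ i, a i := by
  rw [Fin.sum_univ_succAbove _ l, lins_same, zero_add]
  exact sum_congr rfl fun i _ => lins_succ l 0 a i

private theorem lins_tcr {n : ℕ} (l : Fin (n + 1)) (q : Fin n → ℂ) (a b : Fin n → ℕ) :
    tcr (lins l 1 q) (lins l 0 a) (lins l 0 b) = tcr q a b := by
  unfold tcr
  rw [Fin.prod_univ_succAbove _ l]
  simp only [lins_same, lins_succ]
  simp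

/-- Forms not involving the variable `l`.  Positions: insert any value (say `1`) at the
coordinate `l` (`Fin.insertNth`).  For `a l = 0` the Taylor coefficients `tcr q a b` with
`b l ≥ 1` are zero and those with `b l = 0` are the Taylor coefficients in the other variables
(`Fin.succAbove`, `Fin.prod_univ_succAbove`, `Fin.sum_univ_succAbove`). -/
theorem GI_layer {n σ : ℕ} {κ : Type} (l : Fin (n + 1)) (m : κ → ℕ)
    (h : GI (Sx (Fin n) σ) fun i => Kind.free (m i)) :
    GI ((Sx (Fin (n + 1)) σ).filter fun a => a l = 0) fun i => Kind.free (m i) := by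
  obtain ⟨pos, hpos⟩ := h
  refine ⟨fun i => lins l 1 (pos i), fun f hf => ?_⟩
  have key : ∀ a ∈ Sx (Fin n) σ, f (lins l 0 a) = 0 := by
    refine hpos (fun a => f (lins l 0 a)) fun i b hb => ?_
    have h1 := hf i (lins l 0 b) (by
      show ∑ j, lins l 0 b j < m i
      rw [lins_sum]
      exact hb)
    rw [← h1]
    refine sum_nbij (fun a => lins l 0 a) ?_ ?_ ?_ ?_
    · intro a ha
      rw [mem_filter, mem_Sx, lins_sum]
      exact ⟨mem_Sx.1 ha, lins_same _ _ _⟩
    · intro a _ a' _ haa
      exact lins_inj l 0 haa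
    · intro a ha
      rw [mem_coe, mem_filter, mem_Sx] at ha
      refine ⟨fun j => a (l.succAbove j), ?_, lins_eta l 0 a ha.2⟩
      rw [mem_coe, mem_Sx, ← ha.1, Fin.sum_univ_succAbove _ l, ha.2, zero_add]
    · intro a _
      show f (lins l 0 a) * tcr (pos i) a b =
        f (lins l 0 a) * tcr (lins l 1 (pos i)) (lins l 0 a) (lins l 0 b)
      rw [lins_tcr]
  intro a ha
  rw [mem_filter, mem_Sx] at ha
  have h2 := key (fun j => a (l.succAbove j)) (by
    rw [mem_Sx, ← ha.1, Fin.sum_univ_succAbove _ l, ha.2, zero_add])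
  rwa [lins_eta l 0 a ha.2] at h2

end Pool.Agent.H21.NX
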