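import Pool.Agent.H21.NX.Defs

/-!
# Module LensA: lengths and bounds for the Horace step (only multiset arithmetic and `ell`)

Facts about `ell` (H18/Ex/Ell): `ell_zero`, `ell_one`, `ell_mono`, `ell_pos`, `ell_succ`.
-/

namespace Pool.Agent.H21.NX

open Finset Pool.Agent.H18.Ex

/-- `ell s c * (c + s) = ell s (c + 1) * c` (see the proof of `ell_ratio`). -/
theorem ell_mul_add (s c : ℕ) (hs : 1 ≤ s) : ell s c * (c + s) = ell s (c + 1) * c := by
  rcases Nat.eq_zero_or_pos c with h | h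
  · subst h
    rw [ell_zero hs, mul_zero, zero_mul]
  unfold ell
  have := Nat.choose_mul_succ_eq (c + s - 1) s
  rw [show c + s - 1 + 1 = c + s by omega, show c + s - s = c by omega] at this
  rw [show c + 1 + s - 1 = c + s by omega]
  exact this

/-- `(c + s) * ell s c = (s + 1) * ell (s + 1) c` (see the proof of `ell_le_mul`; `c = 0` too). -/
theorem ell_succ_mul (s c : ℕ) (hs : 1 ≤ s) : (c + s) * ell s c = (s + 1) * ell (s + 1) c := by
  rcases Nat.eq_zero_or_pos c with h | h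
  · subst h
    rw [ell_zero hs, ell_zero (by omega)]
    simp
  unfold ell
  have := Nat.add_one_mul_choose_eq (c + s - 1) s
  rw [show c + s - 1 + 1 = c + s by omega] at this
  rw [show c + (s + 1) - 1 = c + s by omega, this, mul_comm]

/-- `(x + s) * ell s (c - 1) ≤ x * ell s c` for `c ≤ x + 1`. -/
theorem ell_pred_le (s c x : ℕ) (hs : 1 ≤ s) (hc : c ≤ x + 1) :
    (x + s) * ell s (c - 1) ≤ x * ell s c := by
  rcases Nat.eq_zero_or_pos c with h | h
  · subst h
    rw [Nat.zero_sub, ell_zero hs, mul_zero]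
    exact Nat.zero_le _
  obtain ⟨k, rfl⟩ : ∃ k, c = k + 1 := ⟨c - 1, by omega⟩
  rw [Nat.add_sub_cancel]
  have key := ell_mul_add s k hs
  have h1 : 0 < k + s := by omega
  refine Nat.le_of_mul_le_mul_right ?_ h1
  calc (x + s) * ell s k * (k + s) = (x + s) * (ell s k * (k + s)) := by ring
    _ = ((x + s) * k) * ell s (k + 1) := by rw [key]; ring
    _ ≤ (x * (k + s)) * ell s (k + 1) := by
        refine Nat.mul_le_mul_right _ ?_
        have : s * k ≤ s * x := Nat.mul_le_mul_left _ (by omega)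
        nlinarith
    _ = x * ell s (k + 1) * (k + s) := by ring

theorem OKF_nxt {B B' : ℕ} {Φ : Multiset (ℕ × ℕ)} {N0 : Multiset ℕ} {μ α ρ : ℕ}
    (hΦ : OKF B Φ) (hN0 : ∀ m ∈ N0, m ≤ B) (hB : B ≤ B' + 1) (hμ : μ ≤ B' + 1)
    (hρ : ρ = 0 ∨ μ ≤ B') : OKF B' (nxt Φ N0 μ α ρ) := by
  intro y hy
  unfold nxt at hy
  rw [Multiset.mem_filter, Multiset.mem_add, Multiset.mem_add, Multiset.mem_add,
    Multiset.mem_map, Multiset.mem_map, Multiset.mem_replicate, Multiset.mem_replicate] at hy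
  obtain ⟨((⟨x, hx, rfl⟩ | ⟨m, hm, rfl⟩) | ⟨hα, rfl⟩) | ⟨hρ', rfl⟩, h2⟩ := hy
  · have h := hΦ x hx
    simp only at h2 ⊢
    omega
  · have h := hN0 m hm
    simp only at h2 ⊢
    omega
  · simp only at h2 ⊢
    omega
  · simp only at h2 ⊢
    omega

/-- The weight of a condition which may be empty. -/
def wgt (s : ℕ) (x : ℕ × ℕ) : ℕ := if x.2 ≤ x.1 then ell (s + 1) x.1 + 1 - x.2 else 0

theorem fl_filter (s : ℕ) (S : Multiset (ℕ × ℕ)) :
    fl s (S.filter fun x : ℕ × ℕ => x.2 ≤ x.1) = (S.map (wgt s)).sum := by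
  induction S using Multiset.induction_on with
  | empty => rfl
  | cons a S ih =>
    rw [Multiset.map_cons, Multiset.sum_cons, ← ih]
    by_cases h : a.2 ≤ a.1
    · rw [Multiset.filter_cons_of_pos (p := fun x : ℕ × ℕ => x.2 ≤ x.1) S h, wgt, if_pos h, fl,
        Multiset.map_cons, Multiset.sum_cons]
      rfl
    · rw [Multiset.filter_cons_of_neg (p := fun x : ℕ × ℕ => x.2 ≤ x.1) S h, wgt, if_neg h,
        zero_add]

theorem ell_pred_add (s c : ℕ) (hc : 1 ≤ c) : ell (s + 1) (c - 1) + ell s c = ell (s + 1) c := by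
  obtain ⟨k, rfl⟩ : ∃ k, c = k + 1 := ⟨c - 1, by omega⟩
  rw [Nat.add_sub_cancel, ← ell_succ]

theorem wgt_here (s c e : ℕ) (h1 : 1 ≤ e) (h2 : e ≤ 2) (h3 : e ≤ c) :
    wgt s (c - 1, e) + ell s c = ell (s + 1) c + 1 - e := by
  have h := ell_pred_add s c (by omega)
  unfold wgt
  simp only
  split_ifs with h4
  · have := ell_pos (s + 1) (m := c - 1) (by omega)
    omega
  · have hce : c = e := by omega
    subst hce
    have h5 : ell (s + 1) (c - 1) + 1 = c := by
      obtain h6 | h6 : c = 1 ∨ c = 2 := by omega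
      · rw [h6, Nat.sub_self, ell_zero (by omega)]
      · rw [h6, ell_one]
    omega

/-- Lengths: the total length drops by the length of the trace. -/
theorem fl_nxt {B : ℕ} {Φ : Multiset (ℕ × ℕ)} {N0 : Multiset ℕ} {μ α ρ : ℕ} (s : ℕ)
    (hs : 1 ≤ s) (hΦ : OKF B Φ) (hN0 : ∀ m ∈ N0, 1 ≤ m) (hμ : 1 ≤ μ) (hρ : ρ = 0 ∨ 2 ≤ μ) :
    fl s (nxt Φ N0 μ α ρ) + (tl s Φ + tot s N0 + α * ell s μ + ρ) =
      fl s Φ + tot (s + 1) N0 + (α + ρ) * ell (s + 1) μ := by
  unfold nxt
  rw [fl_filter]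
  simp only [Multiset.map_add, Multiset.sum_add, Multiset.map_map, Multiset.map_replicate,
    Multiset.sum_replicate, smul_eq_mul]
  have h1 : (Φ.map (wgt s ∘ fun x : ℕ × ℕ => (x.1 - 1, x.2))).sum + tl s Φ = fl s Φ := by
    unfold tl fl
    rw [← Multiset.sum_map_add]
    refine congrArg _ (Multiset.map_congr rfl fun x hx => ?_)
    have h := hΦ x hx
    exact wgt_here s x.1 x.2 h.1 h.2.1 h.2.2.1
  have h2 : (N0.map (wgt s ∘ fun m => (m - 1, 1))).sum + tot s N0 = tot (s + 1) N0 := by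
    unfold tot
    rw [← Multiset.sum_map_add]
    refine congrArg _ (Multiset.map_congr rfl fun m hm => ?_)
    exact wgt_here s m 1 le_rfl (by omega) (hN0 m hm)
  have h3 : α * wgt s (μ - 1, 1) + α * ell s μ = α * ell (s + 1) μ := by
    rw [← mul_add, wgt_here s μ 1 le_rfl (by omega) hμ, Nat.add_sub_cancel]
  have h4 : ρ * wgt s (μ, 2) + ρ = ρ * ell (s + 1) μ := by
    rcases hρ with h | h
    · rw [h]
      simp
    · unfold wgt
      rw [if_pos h]
      simp only
      have h5 := ell_pos (s + 1) hμ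
      calc ρ * (ell (s + 1) μ + 1 - 2) + ρ = ρ * ((ell (s + 1) μ + 1 - 2) + 1) := by ring
        _ = ρ * ell (s + 1) μ := by
            congr 1
            omega
  rw [add_mul]
  omega

theorem tl_filter_le (s : ℕ) (S : Multiset (ℕ × ℕ)) :
    tl s (S.filter fun x : ℕ × ℕ => x.2 ≤ x.1) ≤ tl s S := by
  induction S using Multiset.induction_on with
  | empty => exact le_rfl
  | cons a S ih =>
    have h2 : tl s (a ::ₘ S) = ell s a.1 + tl s S := by
      rw [tl, Multiset.map_cons, Multiset.sum_cons]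
      rfl
    by_cases h : a.2 ≤ a.1
    · rw [Multiset.filter_cons_of_pos (p := fun x : ℕ × ℕ => x.2 ≤ x.1) S h, h2, tl,
        Multiset.map_cons, Multiset.sum_cons]
      exact Nat.add_le_add_left ih _
    · rw [Multiset.filter_cons_of_neg (p := fun x : ℕ × ℕ => x.2 ≤ x.1) S h, h2]
      omega

theorem tl_add (s : ℕ) (S T : Multiset (ℕ × ℕ)) : tl s (S + T) = tl s S + tl s T := by
  simp only [tl, Multiset.map_add, Multiset.sum_add]

theorem tl_replicate (s n : ℕ) (x : ℕ × ℕ) :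
    tl s (Multiset.replicate n x) = n * ell s x.1 := by
  simp only [tl, Multiset.map_replicate, Multiset.sum_replicate, smul_eq_mul]

/-- The new traces. -/
theorem tl_nxt {B : ℕ} {Φ : Multiset (ℕ × ℕ)} {N0 : Multiset ℕ} {μ α ρ : ℕ} (s x : ℕ)
    (hs : 1 ≤ s) (hΦ : OKF B Φ) (hN0 : ∀ m ∈ N0, m ≤ B) (hμ : μ ≤ x + 1) (hB : B ≤ x + 1) :
    (x + s) * tl s (nxt Φ N0 μ α ρ) ≤
      x * (tl s Φ + tot s N0 + α * ell s μ) + (x + s) * (ρ * ell s μ) := by
  have h1 : (x + s) * tl s (Φ.map fun y : ℕ × ℕ => (y.1 - 1, y.2)) ≤ x * tl s Φ := by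
    unfold tl
    rw [Multiset.map_map, ← Multiset.sum_map_mul_left, ← Multiset.sum_map_mul_left]
    refine Multiset.sum_map_le_sum_map _ _ fun y hy => ?_
    have h := hΦ y hy
    exact ell_pred_le s y.1 x hs (by omega)
  have h2 : (x + s) * tl s (N0.map fun m => (m - 1, 1)) ≤ x * tot s N0 := by
    unfold tl tot
    rw [Multiset.map_map, ← Multiset.sum_map_mul_left, ← Multiset.sum_map_mul_left]
    refine Multiset.sum_map_le_sum_map _ _ fun y hy => ?_
    have h := hN0 y hy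
    exact ell_pred_le s y x hs (by omega)
  have h3 : (x + s) * (α * ell s (μ - 1)) ≤ x * (α * ell s μ) := by
    have := Nat.mul_le_mul_left α (ell_pred_le s μ x hs hμ)
    calc (x + s) * (α * ell s (μ - 1)) = α * ((x + s) * ell s (μ - 1)) := by ring
      _ ≤ α * (x * ell s μ) := this
      _ = x * (α * ell s μ) := by ring
  unfold nxt
  refine (Nat.mul_le_mul_left _ (tl_filter_le s _)).trans ?_
  rw [tl_add, tl_add, tl_add, tl_replicate, tl_replicate]
  simp only
  rw [mul_add, mul_add, mul_add, mul_add, mul_add]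
  omega

end Pool.Agent.H21.NX
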