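import Pool.Agent.H21.NX.LensA

/-!
# Module LensB: lengths and bounds for the Horace step (only multiset arithmetic and `ell`)

Facts about `ell` (H18/Ex/Ell): `ell_zero`, `ell_one`, `ell_mono`, `ell_pos`, `ell_succ`.
-/

namespace Pool.Agent.H21.NX

open Finset Pool.Agent.H18.Ex

/-- The main batch of `a` points of multiplicity `c ≥ 2`. -/
theorem nxt_batch (Ψ : Multiset (ℕ × ℕ)) (a c μ α ρ : ℕ) (hc : 2 ≤ c) :
    nxt (Ψ + Multiset.replicate a (c, 1)) 0 μ α ρ =
      nxt Ψ 0 μ α ρ + Multiset.replicate a (c - 1, 1) := by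
  have h : (Multiset.replicate a (c - 1, 1)).filter (fun x : ℕ × ℕ => x.2 ≤ x.1) =
      Multiset.replicate a (c - 1, 1) := by
    rw [Multiset.filter_eq_self]
    intro x hx
    rw [Multiset.eq_of_mem_replicate hx]
    simp only
    omega
  unfold nxt
  simp only [Multiset.map_add, Multiset.map_replicate, Multiset.filter_add, h]
  abel

/-- In the first step `α` points of multiplicity `μ ≥ 2` become the main batch. -/
theorem nxt_start (N0 : Multiset ℕ) (μ α ρ : ℕ) (hμ : 2 ≤ μ) :
    nxt 0 N0 μ α ρ = nxt 0 N0 μ 0 ρ + Multiset.replicate α (μ - 1, 1) := by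
  have h : (Multiset.replicate α (μ - 1, 1)).filter (fun x : ℕ × ℕ => x.2 ≤ x.1) =
      Multiset.replicate α (μ - 1, 1) := by
    rw [Multiset.filter_eq_self]
    intro x hx
    rw [Multiset.eq_of_mem_replicate hx]
    simp only
    omega
  unfold nxt
  simp only [Multiset.filter_add, h, Multiset.replicate_zero, Multiset.filter_zero]
  abel

/-- The length of a forced condition is at least the length of its trace. -/
theorem tl_le_fl {B : ℕ} {Φ : Multiset (ℕ × ℕ)} (s : ℕ) (hs : 1 ≤ s) (hΦ : OKF B Φ) :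
    tl s Φ ≤ fl s Φ := by
  have _ := hs
  unfold tl fl
  refine Multiset.sum_map_le_sum_map _ _ fun x hx => ?_
  have h := hΦ x hx
  have h2 := wgt_here s x.1 x.2 h.1 h.2.1 h.2.2.1
  omega

/-- `(s + 1) * fl ≤ (B + s) * tl`. -/
theorem fl_le_tl {B : ℕ} {Φ : Multiset (ℕ × ℕ)} (s : ℕ) (hs : 1 ≤ s) (hΦ : OKF B Φ) :
    (s + 1) * fl s Φ ≤ (B + s) * tl s Φ := by
  unfold tl fl
  rw [← Multiset.sum_map_mul_left, ← Multiset.sum_map_mul_left]
  refine Multiset.sum_map_le_sum_map _ _ fun x hx => ?_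
  have h := hΦ x hx
  calc (s + 1) * (ell (s + 1) x.1 + 1 - x.2) ≤ (s + 1) * ell (s + 1) x.1 :=
        Nat.mul_le_mul_left _ (by omega)
    _ = (x.1 + s) * ell s x.1 := (ell_succ_mul s x.1 hs).symm
    _ ≤ (B + s) * ell s x.1 := Nat.mul_le_mul_right _ (by omega)

theorem tot_succ_le {B : ℕ} {N0 : Multiset ℕ} (s : ℕ) (hs : 1 ≤ s) (hN0 : ∀ m ∈ N0, m ≤ B) :
    (s + 1) * tot (s + 1) N0 ≤ (B + s) * tot s N0 := by
  unfold tot
  rw [← Multiset.sum_map_mul_left, ← Multiset.sum_map_mul_left]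
  refine Multiset.sum_map_le_sum_map _ _ fun x hx => ?_
  rw [← ell_succ_mul s x hs]
  exact Nat.mul_le_mul_right _ (by have := hN0 x hx; omega)

theorem tot_le_tot_succ {N0 : Multiset ℕ} (s : ℕ) (hs : 1 ≤ s) :
    tot s N0 ≤ tot (s + 1) N0 := by
  unfold tot
  refine Multiset.sum_map_le_sum_map _ _ fun x _ => ?_
  rcases Nat.eq_zero_or_pos x with h | h
  · rw [h, ell_zero hs]
    exact Nat.zero_le _
  · rw [← ell_pred_add s x h]
    exact Nat.le_add_left _ _

theorem tot_add (n : ℕ) (S T : Multiset ℕ) : tot n (S + T) = tot n S + tot n T := by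
  simp only [tot, Multiset.map_add, Multiset.sum_add]

theorem tot_replicate (n k x : ℕ) : tot n (Multiset.replicate k x) = k * ell n x := by
  simp only [tot, Multiset.map_replicate, Multiset.sum_replicate, smul_eq_mul]

theorem tot_filter_le (n t : ℕ) (S : Multiset ℕ) : tot n (S.filter (t ≤ ·)) ≤ tot n S := by
  conv_rhs => rw [← Multiset.filter_add_not (t ≤ ·) S, tot_add]
  exact Nat.le_add_right _ _

theorem filter_replicate_lt (k x t : ℕ) (h : x < t) :
    (Multiset.replicate k x).filter (t ≤ ·) = 0 := by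
  rw [Multiset.filter_eq_nil]
  intro y hy
  rw [Multiset.eq_of_mem_replicate hy]
  omega

/-- The conditions of the window theorem for a trace which contains `a` points of multiplicity
`c` and `ρ` simple points, with `ell c * ell B ≤ ρ` and `ell B ^ 2 ≤ a * ell c`: for `2 ≤ t ≤ c`
the simple points are not in the filter, for `t > c` neither are the points of multiplicity `c`. -/
theorem window_cond (s : ℕ) (hs : 1 ≤ s) (T1 : Multiset ℕ) (a c ρ B E : ℕ) (hcB : c ≤ B)
    (hc1 : 1 ≤ c) (hT1 : ∀ t ∈ T1, t ≤ B) (hρ : ell s c * ell s B ≤ ρ)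
    (ha : ell s B ^ 2 ≤ a * ell s c) (hE : tot s T1 + a * ell s c + ρ ≤ E) (t : ℕ) (ht : 2 ≤ t)
    (htB : t ≤ B) :
    tot s ((T1 + Multiset.replicate a c + Multiset.replicate ρ 1).filter (t ≤ ·)) +
      (ell s t - 1) * (ell s B - 1) ≤ E := by
  have _ := hs
  have _ := hcB
  have _ := hc1
  have _ := hT1
  rw [Multiset.filter_add, Multiset.filter_add, filter_replicate_lt ρ 1 t (by omega), add_zero,
    tot_add]
  have h1 := tot_filter_le s t T1
  have h2 := tot_filter_le s t (Multiset.replicate a c)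
  rw [tot_replicate] at h2
  rcases Nat.lt_or_ge c t with h | h
  · rw [filter_replicate_lt a c t h]
    have h3 : (ell s t - 1) * (ell s B - 1) ≤ ell s B ^ 2 := by
      rw [pow_two]
      exact Nat.mul_le_mul ((Nat.sub_le _ _).trans (ell_mono s htB)) (Nat.sub_le _ _)
    have h4 : tot s (0 : Multiset ℕ) = 0 := rfl
    omega
  · have h3 : (ell s t - 1) * (ell s B - 1) ≤ ell s c * ell s B :=
      Nat.mul_le_mul ((Nat.sub_le _ _).trans (ell_mono s h)) (Nat.sub_le _ _)
    omega

/-- The conditions of the window theorem for a trace with `τ + ell B ^ 2 ≤ E`, `τ` the length of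
the part without the `q` simple points. -/
theorem window_cond' (s : ℕ) (hs : 1 ≤ s) (T1 : Multiset ℕ) (q B E : ℕ)
    (hE : tot s T1 + ell s B ^ 2 ≤ E) (t : ℕ) (ht : 2 ≤ t) (htB : t ≤ B) :
    tot s ((T1 + Multiset.replicate q 1).filter (t ≤ ·)) +
      (ell s t - 1) * (ell s B - 1) ≤ E := by
  have _ := hs
  rw [Multiset.filter_add, filter_replicate_lt q 1 t (by omega), add_zero]
  have h1 := tot_filter_le s t T1
  have h3 : (ell s t - 1) * (ell s B - 1) ≤ ell s B ^ 2 := by
    rw [pow_two]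
    exact Nat.mul_le_mul ((Nat.sub_le _ _).trans (ell_mono s htB)) (Nat.sub_le _ _)
  omega

theorem tot_trc (s : ℕ) (Φ : Multiset (ℕ × ℕ)) (N0 : Multiset ℕ) (μ α ρ : ℕ) :
    tot s (trc Φ N0 μ α ρ) = tl s Φ + tot s N0 + α * ell s μ + ρ := by
  unfold trc
  rw [tot_add, tot_add, tot_add, tot_replicate, tot_replicate, ell_one, mul_one]
  congr 3
  unfold tot tl
  rw [Multiset.map_map]
  rfl

end Pool.Agent.H21.NX
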