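import Pool.Agent.H21.NX.Stage
import Pool.Agent.H21.NX.LensB

/-!
# Module PeelAll: complete peeling with many free simple points

Proof of `peel_all`: induction on `B`.  If `B = 0` then `Φ = 0` and `N0 = 0`, and `GM.of_card`
with `card_Sx`.  In the step let `q = ell s S - tl s Φ - tot s N0`.  If `S = 1` then `B = 1` and
`ell s 1 = 1` forces `Φ = 0`, `N0 = 0` (all their lengths are positive), and `GM.of_card` again.
Otherwise apply `stage` with `μ = 1`, `α = q`, `ρ = 0`, `f = p - q`, `M = B`, `σ = S - 1`
(`window_cond'`), and the induction hypothesis to `nxt Φ N0 1 q 0` (`OKF_nxt`), `N0 = 0`, `S - 1`.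
* `q ≤ p`: `(s + 1) * (fl Φ + tot (s + 1) N0) ≤ (B + s) * τ` with `τ = tl Φ + tot s N0`
  (`fl_le_tl`, `tot_succ_le`) and `(s + 1) * ell (s + 1) S = (S + s) * ell s S` (`ell_succ_mul`),
  so `(s + 1) p ≥ (S + s) ell s S - (B + s) τ ≥ (s + 1) (ell s S - τ)` since `τ ≤ ell s S`,
  `B ≤ S`.
* lengths: `fl_nxt` and `ell (s + 1) S = ell (s + 1) (S - 1) + ell s S`.
* traces: with `x = B - 1`, `tl_nxt` gives `(x + s) * τ' ≤ x * (τ + q * ell s 1) ≤ ...`; careful:
  the simple points disappear, so use `tl_nxt` only for the part without them, that is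
  `nxt Φ N0 1 q 0 = nxt Φ N0 1 0 0`; so `(x + s) τ' ≤ x τ`, `(x + s) * ell s (B - 1) ≤ x * ell s B`
  (`ell_pred_le`) and `x * ell s S * (S - 1 + s) ... `: from `τ + ell s B ^ 2 ≤ ell s S` follows
  `(x + s) * (τ' + ell s (B - 1) ^ 2) ≤ x * ell s S`, and
  `x * ell s S ≤ (x + s) * ell s (S - 1)` because `ell s (S - 1) * (S - 1 + s) = ell s S * (S - 1)`
  and `x ≤ S - 1`.
-/

namespace Pool.Agent.H21.NX

open Finset Pool.Agent.H18.Ex

namespace PeelAllX

theorem of_simple (s : ℕ) (S : ℕ) (hS : 1 ≤ S) (T : Multiset (Kind (Fin (s + 2)))) (p : ℕ)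
    (h : ell (s + 1) S ≤ p) :
    GM (Sx (Fin (s + 2)) (S - 1)) (T + Multiset.replicate p (Kind.free 1)) := by
  have h1 : Multiset.replicate p (Kind.free 1 : Kind (Fin (s + 2))) =
      (Multiset.replicate p 1).map Kind.free := by
    rw [Multiset.map_replicate]
  rw [h1, add_comm T]
  refine GM.of_card _ _ _ (fun m hm => ?_) ?_
  · rw [Multiset.eq_of_mem_replicate hm]
  · rw [Multiset.card_replicate, card_Sx (s + 1) (S - 1), Nat.sub_add_cancel hS]
    exact h

theorem nxt_simple (Φ : Multiset (ℕ × ℕ)) (N0 : Multiset ℕ) (q : ℕ) :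
    nxt Φ N0 1 q 0 = nxt Φ N0 1 0 0 := by
  unfold nxt
  simp only [Multiset.filter_add, Multiset.replicate_zero, add_zero]
  have : Multiset.filter (fun x : ℕ × ℕ => x.2 ≤ x.1) (Multiset.replicate q (1 - 1, 1)) = 0 := by
    rw [Multiset.filter_eq_nil]
    intro a ha
    rw [Multiset.eq_of_mem_replicate ha]
    simp
  rw [this, add_zero]

end PeelAllX

open PeelAllX in
theorem peel_all (s : ℕ) (hs : 1 ≤ s) (l : Fin (s + 2)) (B : ℕ) :
    ∀ (S : ℕ) (Φ : Multiset (ℕ × ℕ)) (N0 : Multiset ℕ) (p : ℕ), OKF B Φ →
      (∀ m ∈ N0, 1 ≤ m ∧ m ≤ B) → 1 ≤ S → B ≤ S →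
      tl s Φ + tot s N0 + ell s B ^ 2 ≤ ell s S →
      ell (s + 1) S ≤ fl s Φ + tot (s + 1) N0 + p →
      GM (Sx (Fin (s + 2)) (S - 1)) (fk l Φ + N0.map Kind.free +
        Multiset.replicate p (Kind.free 1)) := by
  induction B with
  | zero =>
    intro S Φ N0 p hΦ hN0 hS _ _ hl
    have h1 : Φ = 0 := by
      rw [Multiset.eq_zero_iff_forall_notMem]
      intro x hx
      have := hΦ x hx
      omega
    have h2 : N0 = 0 := by
      rw [Multiset.eq_zero_iff_forall_notMem]
      intro m hm
      have := hN0 m hm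
      omega
    subst h1 h2
    refine of_simple s S hS _ p ?_
    simpa [fl, tot] using hl
  | succ B ih =>
    intro S Φ N0 p hΦ hN0 hS hBS htr hl
    have hfl : (s + 1) * fl s Φ ≤ (B + 1 + s) * tl s Φ := fl_le_tl s hs hΦ
    have hto : (s + 1) * tot (s + 1) N0 ≤ (B + 1 + s) * tot s N0 :=
      tot_succ_le s hs fun m hm => (hN0 m hm).2
    rcases Nat.lt_or_ge S 2 with hS2 | hS2
    · -- S = 1
      have hS1 : S = 1 := by omega
      have hB0 : B = 0 := by omega
      subst hS1 hB0
      rw [ell_one] at htr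
      have h1 : tl s Φ = 0 := by omega
      have h2 : tot s N0 = 0 := by omega
      rw [h1, mul_zero] at hfl
      rw [h2, mul_zero] at hto
      have h3 : fl s Φ = 0 := by
        rcases Nat.mul_eq_zero.1 (Nat.le_zero.1 hfl) with h | h
        · omega
        · exact h
      have h4 : tot (s + 1) N0 = 0 := by
        rcases Nat.mul_eq_zero.1 (Nat.le_zero.1 hto) with h | h
        · omega
        · exact h
      refine of_simple s 1 le_rfl _ p ?_
      omega
    · -- the step
      obtain ⟨S, rfl⟩ : ∃ S', S = S' + 1 := ⟨S - 1, by omega⟩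
      have hS1 : 1 ≤ S := by omega
      have hBS' : B ≤ S := by omega
      set τ := tl s Φ + tot s N0 with hτ
      have hτL : τ ≤ ell s (S + 1) := le_trans (Nat.le_add_right _ _) htr
      obtain ⟨q, hq⟩ : ∃ q, ell s (S + 1) = τ + q := ⟨ell s (S + 1) - τ, by omega⟩
      have hmul : (S + 1 + s) * ell s (S + 1) = (s + 1) * ell (s + 1) (S + 1) :=
        ell_succ_mul s (S + 1) hs
      have hqp : q ≤ p := by
        by_contra hcon
        rw [not_le] at hcon
        have h1 : (s + 1) * ell (s + 1) (S + 1) ≤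
            (s + 1) * (fl s Φ + tot (s + 1) N0 + p) := Nat.mul_le_mul_left _ hl
        have h2 : (s + 1) * (fl s Φ + tot (s + 1) N0) ≤ (B + 1 + s) * τ := by
          rw [hτ, mul_add, mul_add]
          exact add_le_add hfl hto
        have h3 : (s + 1) * (p + 1) ≤ (s + 1) * q := Nat.mul_le_mul_left _ hcon
        have h4 : B * τ ≤ S * (τ + q) := Nat.mul_le_mul hBS' (Nat.le_add_right _ _)
        rw [← hmul, hq] at h1
        nlinarith [h1, h2, h3, h4]
      have hp : q + 0 + (p - q) = p := by omega
      rw [← hp, Nat.add_sub_cancel]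
      have htrc : trc Φ N0 1 q 0 = Φ.map Prod.fst + N0 + Multiset.replicate q 1 := by
        unfold trc
        rw [Multiset.replicate_zero, add_zero]
      have htot : tot s (Φ.map Prod.fst + N0) = τ := by
        rw [hτ]
        unfold tot tl
        rw [Multiset.map_add, Multiset.sum_add, Multiset.map_map]
        rfl
      have hM : ∀ t ∈ trc Φ N0 1 q 0, t ≤ B + 1 := by
        intro t ht
        rw [htrc, Multiset.mem_add, Multiset.mem_add, Multiset.mem_map] at ht
        rcases ht with (⟨x, hx, rfl⟩ | ht) | ht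
        · exact (hΦ x hx).2.2.2
        · exact (hN0 t ht).2
        · rw [Multiset.eq_of_mem_replicate ht]
          omega
      refine stage s hs l S hS1 Φ N0 1 q 0 (p - q) (B + 1) le_rfl (fun x hx => (hΦ x hx).2.2.1)
        hM ?_ ?_ ?_
      · intro t ht ht2
        have htB := hM t ht
        rw [htrc]
        refine window_cond' s hs _ q (B + 1) _ ?_ t ht2 htB
        rw [htot]
        exact htr
      · rw [ell_one, mul_one, add_zero, hq]
      · have hΦ' : OKF B (nxt Φ N0 1 q 0) :=
          OKF_nxt hΦ (fun m hm => (hN0 m hm).2) le_rfl (by omega) (Or.inl rfl)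
        have key := ih S (nxt Φ N0 1 q 0) 0 (p - q) hΦ' (by simp) hS1 hBS' ?_ ?_
        · rw [Multiset.map_zero, add_zero] at key
          exact key
        · -- traces
          rw [nxt_simple]
          have h0 : tot s (0 : Multiset ℕ) = 0 := rfl
          rw [h0, add_zero]
          have h1 := tl_nxt (α := 0) (ρ := 0) (μ := 1) s B hs hΦ
            (fun m hm => (hN0 m hm).2) (by omega) le_rfl
          rw [zero_mul, mul_zero, add_zero, add_zero, ← hτ] at h1
          have h2 : (B + s) * ell s B ≤ B * ell s (B + 1) := by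
            have := ell_pred_le s (B + 1) B hs le_rfl
            rwa [Nat.add_sub_cancel] at this
          have h3 : ell s B ≤ ell s (B + 1) := ell_mono s (Nat.le_succ B)
          have h4 : ell s S * (S + s) = ell s (S + 1) * S := ell_mul_add s S hs
          set T' := tl s (nxt Φ N0 1 0 0) with hT'
          -- (B + s) * (T' + ell s B ^ 2) ≤ B * ell s (S + 1)
          have h5 : (B + s) * (T' + ell s B ^ 2) ≤ B * ell s (S + 1) := by
            calc (B + s) * (T' + ell s B ^ 2) = (B + s) * T' + ((B + s) * ell s B) * ell s B := by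
                  ring
              _ ≤ B * τ + (B * ell s (B + 1)) * ell s (B + 1) :=
                  add_le_add h1 (Nat.mul_le_mul h2 h3)
              _ = B * (τ + ell s (B + 1) ^ 2) := by ring
              _ ≤ B * ell s (S + 1) := Nat.mul_le_mul_left _ htr
          have h6 : B * ell s (S + 1) ≤ (B + s) * ell s S := by
            refine Nat.le_of_mul_le_mul_right ?_ hS1
            calc B * ell s (S + 1) * S = B * (ell s (S + 1) * S) := by ring
              _ = B * (S + s) * ell s S := by rw [← h4]; ring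
              _ ≤ ((B + s) * S) * ell s S := by
                  refine Nat.mul_le_mul_right _ ?_
                  nlinarith [Nat.mul_le_mul_right s hBS']
              _ = (B + s) * ell s S * S := by ring
          exact Nat.le_of_mul_le_mul_left (h5.trans h6) (by omega)
        · -- lengths
          have h1 := fl_nxt (μ := 1) (α := q) (ρ := 0) s hs hΦ (fun m hm => (hN0 m hm).1)
            le_rfl (Or.inl rfl)
          rw [ell_one, ell_one, mul_one, mul_one, add_zero, add_zero, ← hτ] at h1
          have h2 := ell_succ s S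
          have h0 : tot (s + 1) (0 : Multiset ℕ) = 0 := rfl
          rw [h0]
          omega

end Pool.Agent.H21.NX
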