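import Pool.Agent.H21.NX.PeelAll
import Pool.Agent.H21.NX.KillMu
import Pool.Agent.H21.NX.Arith

/-!
# Module Phase: the Horace steps with the main batch
-/

namespace Pool.Agent.H21.NX

open Finset Pool.Agent.H18.Ex

theorem fk_add {ι : Type} (l : ι) (Φ Φ' : Multiset (ℕ × ℕ)) : fk l (Φ + Φ') = fk l Φ + fk l Φ' :=
  Multiset.map_add _ _ _

theorem fk_replicate {ι : Type} (l : ι) (a c e : ℕ) :
    fk l (Multiset.replicate a (c, e)) = Multiset.replicate a (Kind.forced l c e) :=
  Multiset.map_replicate _ _ _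

theorem tlr (s a c e : ℕ) : tl s (Multiset.replicate a (c, e)) = a * ell s c := by
  unfold tl
  rw [Multiset.map_replicate, Multiset.sum_replicate, smul_eq_mul]

theorem tot_zero (n : ℕ) : tot n 0 = 0 := rfl

theorem tot_fst (s : ℕ) (Φ : Multiset (ℕ × ℕ)) : tot s (Φ.map Prod.fst) = tl s Φ := by
  unfold tot tl
  rw [Multiset.map_map]
  rfl

theorem Bc_ge (M μ c : ℕ) : μ ≤ Bc M μ c := le_max_right _ _

theorem Bc_le {d s μ M A : ℕ} (hn : Num d s μ M A) (c : ℕ) (hc : c ≤ μ) :
    Bc M μ c ≤ d - μ + c ∨ c ≤ 1 := by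
  have h1 := hn.h2
  have h2 := hn.hμ
  have h3 := hn.hμM
  by_cases h : c ≤ 1
  · exact Or.inr h
  · left
    unfold Bc
    omega

theorem Num.ell_step {d s μ M A : ℕ} (hn : Num d s μ M A) : 1 ≤ s := by
  have := hn.hds
  omega

/-- The bound for the number of the remaining points at the end. -/
theorem f_bound {d s μ M A : ℕ} (hn : Num d s μ M A) (Ψ : Multiset (ℕ × ℕ)) (a f : ℕ)
    (hΨ : OKF (Bc M μ 1) Ψ)
    (hT1 : ell (s + 1) (d - μ + 1 + 1) ≤
      fl s Ψ + a * ell (s + 1) 1 + f * ell (s + 1) μ)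
    (hload : 4 * (d + 1) * (tl s Ψ + a * ell s 1) ≤
      (4 * (d + 1) - 1) * ell s (d - μ + 1 + 1)) :
    ell (s + 1) (d + 2 - 2 * μ) ≤ f := by
  have hs := hn.ell_step
  have h1 := hn.h2
  have h2 := hn.hμ
  have h3 := hn.hμM
  have hB1 : 1 ≤ Bc M μ 1 := le_trans (by omega) (Bc_ge M μ 1)
  have hB : Bc M μ 1 ≤ d - μ + 1 + 1 := by
    unfold Bc
    omega
  have hZ : (s + 1) * (fl s Ψ + a * ell (s + 1) 1) ≤
      (Bc M μ 1 + s) * (tl s Ψ + a * ell s 1) := by
    have e1 := fl_le_tl s hs hΨ
    have e2 : (s + 1) * (a * ell (s + 1) 1) ≤ (Bc M μ 1 + s) * (a * ell s 1) := by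
      calc (s + 1) * (a * ell (s + 1) 1) = a * ((s + 1) * ell (s + 1) 1) := by ring
        _ = a * ((1 + s) * ell s 1) := by rw [ell_succ_mul s 1 hs]
        _ ≤ a * ((Bc M μ 1 + s) * ell s 1) :=
            Nat.mul_le_mul_left _ (Nat.mul_le_mul_right _ (by omega))
        _ = _ := by ring
    rw [Nat.mul_add, Nat.mul_add]
    exact Nat.add_le_add e1 e2
  have hK : 4 * (d + 1) = (4 * (d + 1) - 1) + 1 := by omega
  have e3 := rest_arith s (d - μ + 1 + 1) (Bc M μ 1) f (tl s Ψ + a * ell s 1)
    (fl s Ψ + a * ell (s + 1) 1) (ell s (d - μ + 1 + 1)) (ell (s + 1) (d - μ + 1 + 1))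
    (ell (s + 1) μ) (4 * (d + 1) - 1) (ell_succ_mul s _ hs) hT1 hZ (by rw [← hK]; exact hload)
    hB hB1
  rw [← hK] at e3
  have e4 := hn.f2
  rw [show d - μ + 2 = d - μ + 1 + 1 by omega] at e4
  have e5 : 0 < 4 * (d + 1) * ell (s + 1) μ := Nat.mul_pos (by omega) (ell_pos _ (by omega))
  have e6 : 4 * (d + 1) * ell (s + 1) μ * (2 * ell (s + 1) (d + 2 - 2 * μ)) ≤
      4 * (d + 1) * ell (s + 1) μ * f := by
    calc 4 * (d + 1) * ell (s + 1) μ * (2 * ell (s + 1) (d + 2 - 2 * μ)) =
        8 * (d + 1) * ell (s + 1) μ * ell (s + 1) (d + 2 - 2 * μ) := by ring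
      _ ≤ ell s (d - μ + 1 + 1) := e4
      _ ≤ 4 * (d + 1) * (f * ell (s + 1) μ) := e3
      _ = _ := by ring
  have e7 := Nat.le_of_mul_le_mul_left e6 e5
  omega

/-- The last stage. -/
theorem phase_one {d s μ M A : ℕ} (l : Fin (s + 2)) (hn : Num d s μ M A) (Ψ : Multiset (ℕ × ℕ))
    (a f : ℕ) (hΨ : OKF (Bc M μ 1) Ψ) (ha : A ≤ a)
    (hT1 : ell (s + 1) (d - μ + 1 + 1) ≤
      fl s Ψ + a * ell (s + 1) 1 + f * ell (s + 1) μ)
    (hT2 : fl s Ψ + a * ell (s + 1) 1 + f * ell (s + 1) μ ≤
      ell (s + 1) (d - μ + 1 + 1) + ell (s + 1) M)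
    (hload : 4 * (d + 1) * (tl s Ψ + a * ell s 1) ≤
      (4 * (d + 1) - 1) * ell s (d - μ + 1 + 1)) :
    GM (Sx (Fin (s + 2)) (d - μ + 1)) (fk l Ψ + Multiset.replicate a (Kind.forced l 1 1) +
      Multiset.replicate f (Kind.free μ)) := by
  have hs := hn.ell_step
  have h1 := hn.h2
  have h2 := hn.hμ
  have h3 := hn.hμM
  have hB : Bc M μ 1 ≤ d - μ + 1 + 1 := by
    unfold Bc
    omega
  have hf := f_bound hn Ψ a f hΨ hT1 hload
  rw [add_right_comm]
  refine GM.bridge _ (Sx (Fin (s + 2)) (d - μ)) l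
    (fun b => by
      have := Sx_resid (d - μ + 1) (by omega) l b
      rwa [Nat.add_sub_cancel] at this) _ _ ?_ ?_
  · have e1 := peel_all s hs l (Bc M μ 1) (d - μ + 1 + 1) Ψ (Multiset.replicate f μ) a hΨ
      (fun m hm => by
        rw [Multiset.eq_of_mem_replicate hm]
        exact ⟨by omega, Bc_ge _ _ _⟩) (by omega) hB ?_ ?_
    · rwa [Nat.add_sub_cancel, Multiset.map_replicate] at e1
    · rw [tot_replicate]
      have e2 := tl_le_fl s hs hΨ
      have e3 : f * ell s μ ≤ f * ell (s + 1) μ := by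
        refine Nat.mul_le_mul_left _ ?_
        have := tot_le_tot_succ (N0 := {μ}) s hs
        simpa [tot] using this
      have e4 := hn.f1
      have e5 := ell_succ s (d - μ + 1)
      rw [ell_one, mul_one] at hT2
      omega
    · rw [tot_replicate]
      rw [ell_one, mul_one] at hT1
      omega
  · rw [Multiset.map_add, Multiset.map_replicate]
    refine GM.mono (Multiset.le_add_left _ _) ?_
    exact kill_mu s μ (d - μ) f (by omega) (by omega)
      (by rwa [show d - μ + 2 - μ = d + 2 - 2 * μ by omega])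

/-- The choice of the numbers in a step: `Δ = E0 - τ` is the room. -/
theorem choose_arith (Δ W Eμ : ℕ) (hE : 1 ≤ Eμ) (hW : W ≤ Δ) :
    ∃ α ρ, α * Eμ + ρ = Δ ∧ W ≤ ρ ∧ ρ ≤ W + Eμ ∧ (Δ - W) / Eμ = α := by
  refine ⟨(Δ - W) / Eμ, Δ - (Δ - W) / Eμ * Eμ, ?_, ?_, ?_, rfl⟩
  · have := Nat.div_mul_le_self (Δ - W) Eμ
    omega
  · have := Nat.div_mul_le_self (Δ - W) Eμ
    omega
  · have := Nat.lt_div_mul_add (a := Δ - W) (b := Eμ) (by omega)
    omega

theorem phase {d s μ M A : ℕ} (l : Fin (s + 2)) (hn : Num d s μ M A) :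
    ∀ c, c < μ → 1 ≤ c → ∀ (Ψ : Multiset (ℕ × ℕ)) (a f : ℕ), OKF (Bc M μ c) Ψ → A ≤ a →
      ell (s + 1) (d - μ + 1 + c) ≤ fl s Ψ + a * ell (s + 1) c + f * ell (s + 1) μ →
      fl s Ψ + a * ell (s + 1) c + f * ell (s + 1) μ ≤
        ell (s + 1) (d - μ + 1 + c) + ell (s + 1) M →
      4 * (d + 1) * (tl s Ψ + a * ell s c) ≤ (4 * (d + 1) - 1) * ell s (d - μ + 1 + c) →
      GM (Sx (Fin (s + 2)) (d - μ + c)) (fk l Ψ + Multiset.replicate a (Kind.forced l c 1) +
        Multiset.replicate f (Kind.free μ)) := by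
  have hs := hn.ell_step
  have h1 := hn.h2
  have h2 := hn.hμ
  have h3 := hn.hμM
  have h4 := hn.hds
  intro c
  induction c with
  | zero => intro _ h; omega
  | succ c ih =>
    intro hcμ _ Ψ a f hΨ ha hT1 hT2 hload
    rcases Nat.eq_zero_or_pos c with hc0 | hc0
    · subst hc0
      exact phase_one l hn Ψ a f hΨ ha hT1 hT2 hload
    set B := Bc M μ (c + 1) with hBdef
    set S := d - μ + 1 + (c + 1) with hSdef
    have hBμ : μ ≤ B := Bc_ge _ _ _
    have hBS : B + 1 ≤ S := by
      rw [hBdef, hSdef]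
      unfold Bc
      omega
    have hcB : c + 1 ≤ B := by omega
    have hSd : S ≤ d + 1 := by omega
    have hE0 : 0 < ell s S := ell_pos _ (by omega)
    have hEμ : 1 ≤ ell s μ := ell_pos _ (by omega)
    have hS1 : S - 1 = d - μ + (c + 1) := by omega
    -- the numerical condition
    have hnc := hn.nc (c + 1) (by omega) (by omega)
    rw [← hS1, ← hBdef] at hnc
    -- the relation of `ell s (S - 1)` and `ell s S`
    have hrel : ell s (S - 1) * (S - 1 + s) = ell s S * (S - 1) := by
      have := ell_mul_add s (S - 1) hs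
      rwa [Nat.sub_add_cancel (by omega)] at this
    have hmono : ell s (S - 1) ≤ ell s S := ell_mono _ (by omega)
    set τ := tl s Ψ + a * ell s (c + 1) with hτ
    set W := ell s (c + 1) * ell s B with hW
    have hK : 4 * (d + 1) = (4 * (d + 1) - 1) + 1 := by omega
    have hτE : τ ≤ ell s S := by
      have e1 : (4 * (d + 1) - 1) * ell s S ≤ 4 * (d + 1) * ell s S :=
        Nat.mul_le_mul_right _ (by omega)
      exact Nat.le_of_mul_le_mul_left (le_trans hload e1) (by omega)
    have hroom : W + ell s μ ≤ ell s S - τ := by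
      have e1 : ell s S ≤ 4 * (d + 1) * (ell s S - τ) := by
        rw [Nat.mul_sub]
        have e2 : 4 * (d + 1) * ell s S = (4 * (d + 1) - 1) * ell s S + ell s S := by
          conv_lhs => rw [hK]
          ring
        omega
      have e3 : 4 * (d + 1) * (W + ell s μ) ≤ 4 * (d + 1) * (ell s S - τ) := by
        calc 4 * (d + 1) * (W + ell s μ) = 4 * (d + 1) * (W + ell s μ) * 1 := by ring
          _ ≤ 4 * (d + 1) * (W + ell s μ) * ell s μ := Nat.mul_le_mul_left _ hEμ
          _ ≤ ell s (S - 1) := hnc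
          _ ≤ ell s S := hmono
          _ ≤ _ := e1
      exact Nat.le_of_mul_le_mul_left e3 (by omega)
    obtain ⟨α, ρ, hαρ, hρ1, hρ2, -⟩ := choose_arith (ell s S - τ) W (ell s μ) hEμ (by omega)
    have hρE : 4 * (d + 1) * (ρ * ell s μ) ≤ ell s (S - 1) := by
      calc 4 * (d + 1) * (ρ * ell s μ) ≤ 4 * (d + 1) * ((W + ell s μ) * ell s μ) :=
            Nat.mul_le_mul_left _ (Nat.mul_le_mul_right _ hρ2)
        _ = 4 * (d + 1) * (W + ell s μ) * ell s μ := by ring
        _ ≤ _ := hnc
    have hsum : α * ell s μ + ρ + τ = ell s S := by omega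
    -- enough points
    have hZ : (s + 1) * (fl s Ψ + a * ell (s + 1) (c + 1)) ≤ (B + s) * τ := by
      have e1 := fl_le_tl s hs hΨ
      have e2 : (s + 1) * (a * ell (s + 1) (c + 1)) ≤ (B + s) * (a * ell s (c + 1)) := by
        calc (s + 1) * (a * ell (s + 1) (c + 1)) = a * ((s + 1) * ell (s + 1) (c + 1)) := by ring
          _ = a * ((c + 1 + s) * ell s (c + 1)) := by rw [ell_succ_mul s (c + 1) hs]
          _ ≤ a * ((B + s) * ell s (c + 1)) :=
              Nat.mul_le_mul_left _ (Nat.mul_le_mul_right _ (by omega))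
          _ = _ := by ring
      rw [hτ, Nat.mul_add, Nat.mul_add]
      exact Nat.add_le_add e1 e2
    have hfit : α + ρ ≤ f := by
      refine fit_arith s S B μ α ρ f τ _ (ell s S) (ell (s + 1) S) (ell s μ) (ell (s + 1) μ)
        (ell_succ_mul s μ hs) (ell_succ_mul s S hs) hT1 hZ hsum hBμ hBS ?_ hE0
      exact room_arith d s S B ρ (ell s S) (ell s (S - 1)) (ell s μ) hrel hρE hBS hSd (by omega)
    obtain ⟨f', hf'⟩ : ∃ f', f = α + ρ + f' := ⟨f - (α + ρ), by omega⟩
    -- the step
    have hmain := stage s hs l (d - μ + (c + 1)) (by omega)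
      (Ψ + Multiset.replicate a (c + 1, 1)) 0 μ α ρ f' B (by omega) ?_ ?_ ?_ ?_ ?_
    · rw [fk_add, fk_replicate, Multiset.map_zero, add_zero, ← hf'] at hmain
      exact hmain
    · intro x hx
      rcases Multiset.mem_add.1 hx with hx | hx
      · exact (hΨ x hx).2.2.1
      · rw [Multiset.eq_of_mem_replicate hx]
        change 1 ≤ c + 1
        omega
    · -- multiplicities at most `B`
      intro t ht
      unfold trc at ht
      rw [Multiset.map_add, Multiset.map_replicate, add_zero] at ht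
      rcases Multiset.mem_add.1 ht with ht | ht
      · rcases Multiset.mem_add.1 ht with ht | ht
        · rcases Multiset.mem_add.1 ht with ht | ht
          · obtain ⟨x, hx, rfl⟩ := Multiset.mem_map.1 ht
            exact (hΨ x hx).2.2.2
          · rw [Multiset.eq_of_mem_replicate ht]
            exact hcB
        · rw [Multiset.eq_of_mem_replicate ht]
          exact hBμ
      · rw [Multiset.eq_of_mem_replicate ht]
        omega
    · -- the conditions of the window theorem
      intro t ht ht2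
      have hre : trc (Ψ + Multiset.replicate a (c + 1, 1)) 0 μ α ρ =
          (Ψ.map Prod.fst + Multiset.replicate α μ) + Multiset.replicate a (c + 1) +
            Multiset.replicate ρ 1 := by
        unfold trc
        rw [Multiset.map_add, Multiset.map_replicate, add_zero, add_right_comm (Ψ.map Prod.fst)]
      have hT1B : ∀ t ∈ Ψ.map Prod.fst + Multiset.replicate α μ, t ≤ B := by
        intro t ht
        rcases Multiset.mem_add.1 ht with ht | ht
        · obtain ⟨x, hx, rfl⟩ := Multiset.mem_map.1 ht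
          exact (hΨ x hx).2.2.2
        · rw [Multiset.eq_of_mem_replicate ht]
          exact hBμ
      have htB : t ≤ B := by
        rw [hre] at ht
        rcases Multiset.mem_add.1 ht with ht | ht
        · rcases Multiset.mem_add.1 ht with ht | ht
          · exact hT1B t ht
          · rw [Multiset.eq_of_mem_replicate ht]
            exact hcB
        · rw [Multiset.eq_of_mem_replicate ht]
          omega
      rw [hre]
      refine window_cond s hs _ a (c + 1) ρ B _ hcB (by omega) hT1B hρ1 ?_ ?_ t ht2 htB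
      · calc ell s B ^ 2 ≤ A * ell s (c + 1) := hn.q (c + 1) (by omega) (by omega)
          _ ≤ a * ell s (c + 1) := Nat.mul_le_mul_right _ ha
      · rw [tot_add, tot_fst, tot_replicate]
        have : d - μ + (c + 1) + 1 = S := by omega
        rw [this]
        omega
    · rw [tl_add, tlr, tot_zero, ← hτ]
      have : d - μ + (c + 1) + 1 = S := by omega
      rw [this]
      omega
    · rw [nxt_batch _ _ _ _ _ _ (by omega), fk_add, fk_replicate, Nat.add_sub_cancel]
      have hσ : d - μ + (c + 1) - 1 = d - μ + c := by omega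
      rw [hσ]
      have hfl := fl_nxt (α := α) (ρ := ρ) (μ := μ) (N0 := 0) s hs hΨ
        (fun m hm => absurd hm (Multiset.notMem_zero m)) (by omega) (Or.inr (by omega))
      rw [tot_zero, tot_zero, add_zero, add_zero] at hfl
      have hc1 : ell (s + 1) (c + 1) = ell (s + 1) c + ell s (c + 1) := ell_succ s c
      have hF : ell (s + 1) S = ell (s + 1) (d - μ + 1 + c) + ell s S := by
        rw [show S = (d - μ + 1 + c) + 1 by omega]
        exact ell_succ s _
      have ea : a * ell (s + 1) (c + 1) = a * ell (s + 1) c + a * ell s (c + 1) := by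
        rw [hc1, Nat.mul_add]
      have ef : f * ell (s + 1) μ = (α + ρ) * ell (s + 1) μ + f' * ell (s + 1) μ := by
        rw [hf', Nat.add_mul]
      refine ih (by omega) hc0 (nxt Ψ 0 μ α ρ) a f' ?_ ha ?_ ?_ ?_
      · refine OKF_nxt hΨ (fun m hm => absurd hm (Multiset.notMem_zero m)) ?_ ?_ ?_
        · rw [hBdef]
          unfold Bc
          omega
        · exact le_trans (Bc_ge M μ c) (Nat.le_succ _)
        · exact Or.inr (Bc_ge _ _ _)
      · omega
      · omega
      · have hx : B - 1 + 1 = B := by omega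
        have htl := tl_nxt (α := α) (ρ := ρ) (μ := μ) (N0 := 0) s (B - 1) hs hΨ
          (fun m hm => absurd hm (Multiset.notMem_zero m)) (by omega) (by omega)
        rw [tot_zero, add_zero] at htl
        have e1 : (B - 1 + s) * (a * ell s c) ≤ (B - 1) * (a * ell s (c + 1)) := by
          have e2 := ell_pred_le s (c + 1) (B - 1) hs (by omega)
          rw [Nat.add_sub_cancel] at e2
          calc (B - 1 + s) * (a * ell s c) = a * ((B - 1 + s) * ell s c) := by ring
            _ ≤ a * ((B - 1) * ell s (c + 1)) := Nat.mul_le_mul_left _ e2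
            _ = _ := by ring
        have e3 : (B - 1 + s) * (tl s (nxt Ψ 0 μ α ρ) + a * ell s c) ≤
            (B - 1) * ell s S + (B - 1 + s) * (ρ * ell s μ) := by
          have e4 : tl s Ψ + α * ell s μ + a * ell s (c + 1) ≤ ell s S := by omega
          calc (B - 1 + s) * (tl s (nxt Ψ 0 μ α ρ) + a * ell s c) =
              (B - 1 + s) * tl s (nxt Ψ 0 μ α ρ) + (B - 1 + s) * (a * ell s c) := by ring
            _ ≤ ((B - 1) * (tl s Ψ + α * ell s μ) + (B - 1 + s) * (ρ * ell s μ)) +
                (B - 1) * (a * ell s (c + 1)) := Nat.add_le_add htl e1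
            _ = (B - 1) * (tl s Ψ + α * ell s μ + a * ell s (c + 1)) +
                (B - 1 + s) * (ρ * ell s μ) := by ring
            _ ≤ _ := Nat.add_le_add_right (Nat.mul_le_mul_left _ e4) _
        have e5 := load_arith d s (B - 1) S _ _ _ _ hrel e3 hρE (by omega) hSd h4
        rwa [show S - 1 = d - μ + 1 + c by omega] at e5

end Pool.Agent.H21.NX
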