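import Pool.Agent.H21.NX.Phase

/-!
# Module Start: the first Horace step
-/

namespace Pool.Agent.H21.NX

open Finset Pool.Agent.H18.Ex

theorem Bc_self {M μ : ℕ} (h : μ ≤ M) : Bc M μ μ = M := by
  unfold Bc
  omega

/-- Many points of multiplicity `μ ≥ 2`. -/
theorem start {d s μ M A : ℕ} (l : Fin (s + 2)) (hn : Num d s μ M A) (N0 : Multiset ℕ) (u : ℕ)
    (hN0 : ∀ m ∈ N0, 1 ≤ m ∧ m ≤ M)
    (hu : (A + 1) * ell s μ + ell s μ * ell s M + ell (s + 1) d + ell (s + 1) M ≤
      u * ell (s + 1) μ)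
    (hT1 : ell (s + 1) (d + 1) ≤ tot (s + 1) N0 + u * ell (s + 1) μ)
    (hT2 : tot (s + 1) N0 + u * ell (s + 1) μ ≤ ell (s + 1) (d + 1) + ell (s + 1) M) :
    GM (Sx (Fin (s + 2)) d) (N0.map Kind.free + Multiset.replicate u (Kind.free μ)) := by
  have hs := hn.ell_step
  have h1 := hn.h2
  have h2 := hn.hμ
  have h3 := hn.hμM
  have h4 := hn.hds
  have hB : Bc M μ μ = M := Bc_self h3
  have hnc := hn.nc μ h2 le_rfl
  have hq := hn.q μ (by omega) le_rfl
  rw [hB] at hnc hq
  rw [show d - μ + μ = d by omega] at hnc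
  have hMS : M + 1 ≤ d + 1 := by omega
  have hE0 : 0 < ell s (d + 1) := ell_pos _ (by omega)
  have hEμ : 1 ≤ ell s μ := ell_pos _ (by omega)
  have hrel : ell s d * (d + s) = ell s (d + 1) * d := ell_mul_add s d hs
  set τ := tot s N0 with hτ
  set W := ell s μ * ell s M with hW
  have hττ : τ ≤ tot (s + 1) N0 := tot_le_tot_succ s hs
  have hFd : ell (s + 1) (d + 1) = ell (s + 1) d + ell s (d + 1) := ell_succ s d
  have hA1 : (A + 1) * ell s μ = A * ell s μ + ell s μ := by ring
  have hroom : W + (A + 1) * ell s μ ≤ ell s (d + 1) - τ := by omega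
  obtain ⟨α, ρ, hαρ, hρ1, hρ2, hα⟩ := choose_arith (ell s (d + 1) - τ) W (ell s μ) hEμ (by omega)
  have hαA : A ≤ α := by
    rw [← hα, Nat.le_div_iff_mul_le (by omega)]
    omega
  have hρE : 4 * (d + 1) * (ρ * ell s μ) ≤ ell s d := by
    calc 4 * (d + 1) * (ρ * ell s μ) ≤ 4 * (d + 1) * ((W + ell s μ) * ell s μ) :=
          Nat.mul_le_mul_left _ (Nat.mul_le_mul_right _ hρ2)
      _ = 4 * (d + 1) * (W + ell s μ) * ell s μ := by ring
      _ ≤ _ := hnc
  have hsum : α * ell s μ + ρ + τ = ell s (d + 1) := by omega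
  have hZ : (s + 1) * tot (s + 1) N0 ≤ (M + s) * τ := tot_succ_le s hs fun m hm => (hN0 m hm).2
  have hfit : α + ρ ≤ u := by
    refine fit_arith s (d + 1) M μ α ρ u τ _ (ell s (d + 1)) (ell (s + 1) (d + 1)) (ell s μ)
      (ell (s + 1) μ) (ell_succ_mul s μ hs) (ell_succ_mul s (d + 1) hs) hT1 hZ hsum h3 hMS ?_ hE0
    exact room_arith d s (d + 1) M ρ (ell s (d + 1)) (ell s d) (ell s μ)
      (by rw [Nat.add_sub_cancel]; exact hrel) hρE hMS le_rfl (by omega)
  obtain ⟨f', hf'⟩ : ∃ f', u = α + ρ + f' := ⟨u - (α + ρ), by omega⟩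
  have hmain := stage s hs l d (by omega) 0 N0 μ α ρ f' M (by omega) ?_ ?_ ?_ ?_ ?_
  · rw [show fk l (0 : Multiset (ℕ × ℕ)) = 0 from rfl, zero_add, ← hf'] at hmain
    exact hmain
  · exact fun x hx => absurd hx (Multiset.notMem_zero x)
  · -- multiplicities at most `M`
    intro t ht
    unfold trc at ht
    rw [Multiset.map_zero, zero_add] at ht
    rcases Multiset.mem_add.1 ht with ht | ht
    · rcases Multiset.mem_add.1 ht with ht | ht
      · exact (hN0 t ht).2
      · rw [Multiset.eq_of_mem_replicate ht]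
        exact h3
    · rw [Multiset.eq_of_mem_replicate ht]
      omega
  · intro t ht ht2
    have htB : t ≤ M := by
      unfold trc at ht
      rw [Multiset.map_zero, zero_add] at ht
      rcases Multiset.mem_add.1 ht with ht | ht
      · rcases Multiset.mem_add.1 ht with ht | ht
        · exact (hN0 t ht).2
        · rw [Multiset.eq_of_mem_replicate ht]
          exact h3
      · rw [Multiset.eq_of_mem_replicate ht]
        omega
    unfold trc
    rw [Multiset.map_zero, zero_add]
    refine window_cond s hs N0 α μ ρ M _ h3 (by omega) (fun t ht => (hN0 t ht).2) hρ1 ?_ ?_ t ht2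
      htB
    · exact le_trans hq (Nat.mul_le_mul_right _ hαA)
    · omega
  · rw [show tl s (0 : Multiset (ℕ × ℕ)) = 0 from rfl]
    omega
  · have hOK0 : OKF M (0 : Multiset (ℕ × ℕ)) := fun x hx => absurd hx (Multiset.notMem_zero x)
    have hph := phase l hn (μ - 1) (by omega) (by omega) (nxt 0 N0 μ 0 ρ) α f' ?_ hαA ?_ ?_ ?_
    · rw [nxt_start _ _ _ _ h2, fk_add, fk_replicate]
      rwa [show d - μ + (μ - 1) = d - 1 by omega] at hph
    · refine OKF_nxt hOK0 (fun m hm => (hN0 m hm).2) ?_ ?_ ?_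
      · unfold Bc
        omega
      · exact le_trans (Bc_ge M μ (μ - 1)) (Nat.le_succ _)
      · exact Or.inr (Bc_ge _ _ _)
    · have hfl := fl_nxt (α := 0) (ρ := ρ) (μ := μ) (N0 := N0) s hs hOK0
        (fun m hm => (hN0 m hm).1) (by omega) (Or.inr h2)
      rw [show tl s (0 : Multiset (ℕ × ℕ)) = 0 from rfl,
        show fl s (0 : Multiset (ℕ × ℕ)) = 0 from rfl, Nat.zero_mul, Nat.zero_add, Nat.zero_add,
        Nat.zero_add, Nat.add_zero] at hfl
      have hc1 : ell (s + 1) μ = ell (s + 1) (μ - 1) + ell s μ := by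
        have := ell_succ s (μ - 1)
        rwa [Nat.sub_add_cancel (by omega)] at this
      have ea : α * ell (s + 1) μ = α * ell (s + 1) (μ - 1) + α * ell s μ := by
        rw [hc1, Nat.mul_add]
      have ef : u * ell (s + 1) μ = α * ell (s + 1) μ + ρ * ell (s + 1) μ +
          f' * ell (s + 1) μ := by
        rw [hf']
        ring
      rw [show d - μ + 1 + (μ - 1) = d by omega]
      omega
    · have hfl := fl_nxt (α := 0) (ρ := ρ) (μ := μ) (N0 := N0) s hs hOK0
        (fun m hm => (hN0 m hm).1) (by omega) (Or.inr h2)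
      rw [show tl s (0 : Multiset (ℕ × ℕ)) = 0 from rfl,
        show fl s (0 : Multiset (ℕ × ℕ)) = 0 from rfl, Nat.zero_mul, Nat.zero_add, Nat.zero_add,
        Nat.zero_add, Nat.add_zero] at hfl
      have hc1 : ell (s + 1) μ = ell (s + 1) (μ - 1) + ell s μ := by
        have := ell_succ s (μ - 1)
        rwa [Nat.sub_add_cancel (by omega)] at this
      have ea : α * ell (s + 1) μ = α * ell (s + 1) (μ - 1) + α * ell s μ := by
        rw [hc1, Nat.mul_add]
      have ef : u * ell (s + 1) μ = α * ell (s + 1) μ + ρ * ell (s + 1) μ +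
          f' * ell (s + 1) μ := by
        rw [hf']
        ring
      rw [show d - μ + 1 + (μ - 1) = d by omega]
      omega
    · have htl := tl_nxt (α := α) (ρ := ρ) (μ := μ) (N0 := N0) s (M - 1) hs hOK0
        (fun m hm => (hN0 m hm).2) (by omega) (by omega)
      rw [nxt_start _ _ _ _ h2, tl_add, tlr,
        show tl s (0 : Multiset (ℕ × ℕ)) = 0 from rfl, zero_add] at htl
      have e3 : (M - 1 + s) * (tl s (nxt 0 N0 μ 0 ρ) + α * ell s (μ - 1)) ≤
          (M - 1) * ell s (d + 1) + (M - 1 + s) * (ρ * ell s μ) := by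
        refine le_trans htl (Nat.add_le_add_right (Nat.mul_le_mul_left _ ?_) _)
        omega
      have e5 := load_arith d s (M - 1) (d + 1) _ _ _ _
        (by rw [Nat.add_sub_cancel]; exact hrel) e3 hρE (by omega) le_rfl h4
      rwa [show d - μ + 1 + (μ - 1) = d by omega]

end Pool.Agent.H21.NX
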