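import Pool.Agent.H21.NX.GL

/-!
# Module Swap: the swap lemma

Write `c(A, t) = dim V(A) - dim V(A, t)` for general points (the number of conditions which a
further general point of multiplicity `t` imposes).  Suppose that adding a general point `b` of
multiplicity `M ≥ m a` (all `a`) does not change it: `c(A, t) = c(A + b, t)`.  Then `V(A) = 0` or
`c(A, t) = N - dim V(t)` (the value for empty `A`).

Proof.  Positions: `κ ⊕ κ ⊕ Unit` (points `x a`, `y a`, and `ℓ`), general.  For `T ⊆ κ` let
`z_T a = y a` for `a ∈ T` and `x a` otherwise, and `X(T) = V(z_T) ⊔ V(ℓ)` (`ℓ` of multiplicity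
`t`).  By generality (finitely many conditions `gen_gdim`, pulled back along injections by
`Gen.comap`) `finrank X(T) + gdim (m, t) = gdim m + gdim t` for all `T`
(`Submodule.finrank_sup_add_finrank_inf_eq`, `V(z_T) ⊓ V(ℓ) = V(z_T, ℓ)`), and for `a ∉ T`, `b = y a`
with multiplicity `M`, the space `V(z_T, b) ⊔ V(ℓ)` has dimension
`gdim (m, M) + gdim t - gdim (m, M, t)`, the same number by `hc`; it is contained in `X(T)` and in
`X(insert a T)` (the point `z_{insert a T} a = b` has multiplicity `m a ≤ M`), so
`X(T) = X(insert a T)`.  By induction `X(∅) = X(univ)`, so `V(y) ≤ V(x) ⊔ V(ℓ)` for general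
`(x, y, ℓ)`.  Fix general `(x, ℓ)` such that this holds for general `y` (a nonzero polynomial in
`(x, ℓ, y)` is nonzero at some `(x₀, ℓ₀)` as a polynomial in `y`).  If `X = V(x₀) ⊔ V(ℓ₀)` does
not contain all forms of degree `d`, then `gl_lemma` gives `gdim m = 0`; otherwise
`finrank X = binom(d + r, r)`.
-/

namespace Pool.Agent.H21.NX

open Finset MvPolynomial Pool.Agent.H18.Fat Pool.Agent.H18.Ex

namespace SwapX

theorem fat_elim {r d : ℕ} {κ κ' : Type} (p : κ → Fin (r + 1) → ℂ) (q : κ' → Fin (r + 1) → ℂ)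
    (m : κ → ℕ) (n : κ' → ℕ) :
    fatForms r d (Sum.elim p q) (Sum.elim m n) = fatForms r d p m ⊓ fatForms r d q n := by
  ext F
  constructor
  · intro h
    exact ⟨⟨h.1, fun i => h.2 (Sum.inl i)⟩, ⟨h.1, fun i => h.2 (Sum.inr i)⟩⟩
  · rintro ⟨h1, h2⟩
    refine ⟨h1.1, ?_⟩
    rintro (i | i)
    · exact h1.2 i
    · exact h2.2 i

theorem fin_fat {r d : ℕ} {κ : Type} (p : κ → Fin (r + 1) → ℂ) (m : κ → ℕ) :
    FiniteDimensional ℂ (fatForms r d p m) := Pool.Agent.H21.HD.BridgeCX.finite_fat p m

theorem finrank_sup {r d : ℕ} {κ κ' : Type} (p : κ → Fin (r + 1) → ℂ)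
    (q : κ' → Fin (r + 1) → ℂ) (m : κ → ℕ) (n : κ' → ℕ) :
    Module.finrank ℂ (fatForms r d p m ⊔ fatForms r d q n : Submodule ℂ _) +
      Module.finrank ℂ (fatForms r d (Sum.elim p q) (Sum.elim m n)) =
      Module.finrank ℂ (fatForms r d p m) + Module.finrank ℂ (fatForms r d q n) := by
  have h1 := fin_fat (d := d) p m
  have h2 := fin_fat (d := d) q n
  rw [fat_elim]
  exact Submodule.finrank_sup_add_finrank_inf_eq _ _

/-- The index of the point used at `a`: `y a` if `a ∈ T`, else `x a`. -/
def zt {κ : Type} [DecidableEq κ] (T : Finset κ) (a : κ) : κ ⊕ (κ ⊕ Unit) :=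
  if a ∈ T then Sum.inr (Sum.inl a) else Sum.inl a

theorem zt_inj {κ : Type} [DecidableEq κ] (T : Finset κ) : Function.Injective (zt T) := by
  intro a b h
  unfold zt at h
  split_ifs at h with h1 h2 h2
  · exact Sum.inl_injective (Sum.inr_injective h)
  · exact Sum.inl_injective h

theorem zt_ne_ell {κ : Type} [DecidableEq κ] (T : Finset κ) (a : κ) :
    zt T a ≠ Sum.inr (Sum.inr ()) := by
  unfold zt
  split_ifs
  · intro h
    cases h
  · intro h
    cases h

theorem zt_ne_y {κ : Type} [DecidableEq κ] (T : Finset κ) (a b : κ) (hb : b ∉ T) :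
    zt T a ≠ Sum.inr (Sum.inl b) := by
  unfold zt
  split_ifs with h1
  · intro h
    have := Sum.inl_injective (Sum.inr_injective h)
    exact hb (this ▸ h1)
  · intro h
    cases h

theorem elim_inj {α β : Type} (f : α → β) (b : β) (hf : Function.Injective f)
    (hb : ∀ a, f a ≠ b) : Function.Injective (Sum.elim f fun _ : Unit => b) := by
  rintro (x | x) (y | y) h
  · exact congrArg Sum.inl (hf h)
  · exact absurd h (hb x)
  · exact absurd h.symm (hb y)
  · rfl

theorem comp_elim {α β γ : Type} (p : β → γ) (f : α → β) (b : β) :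
    (fun i => p (Sum.elim f (fun _ : Unit => b) i)) =
      Sum.elim (fun i => p (f i)) fun _ : Unit => p b := by
  funext i
  rcases i with i | i <;> rfl

/-- Pulling back a general statement along points where the other coordinates are fixed. -/
theorem gen_fix {r : ℕ} {κ : Type} (G : MvPolynomial ((κ ⊕ (κ ⊕ Unit)) × Fin (r + 1)) ℂ)
    (p₀ : κ ⊕ (κ ⊕ Unit) → Fin (r + 1) → ℂ) (h0 : eval (fun x => p₀ x.1 x.2) G ≠ 0)
    (P : (κ → Fin (r + 1) → ℂ) → Prop)
    (hP : ∀ y : κ → Fin (r + 1) → ℂ,
      eval (fun x : (κ ⊕ (κ ⊕ Unit)) × Fin (r + 1) =>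
        (Sum.elim (fun a => p₀ (Sum.inl a))
          (Sum.elim y fun _ : Unit => p₀ (Sum.inr (Sum.inr ())))) x.1 x.2) G ≠ 0 → P y) :
    Gen r κ P := by
  let s : (κ ⊕ (κ ⊕ Unit)) × Fin (r + 1) → MvPolynomial (κ × Fin (r + 1)) ℂ := fun x =>
    Sum.elim (fun a => C (p₀ (Sum.inl a) x.2))
      (Sum.elim (fun a => X (a, x.2)) fun _ : Unit => C (p₀ (Sum.inr (Sum.inr ())) x.2)) x.1
  have hs : ∀ y : κ → Fin (r + 1) → ℂ, eval (fun x => y x.1 x.2) (aeval s G) =
      eval (fun x : (κ ⊕ (κ ⊕ Unit)) × Fin (r + 1) =>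
        (Sum.elim (fun a => p₀ (Sum.inl a))
          (Sum.elim y fun _ : Unit => p₀ (Sum.inr (Sum.inr ())))) x.1 x.2) G := by
    intro y
    have h1 : eval (fun x => y x.1 x.2) (aeval s G) =
        ((aeval (fun x => y x.1 x.2) : MvPolynomial (κ × Fin (r + 1)) ℂ →ₐ[ℂ] ℂ).comp
          (aeval s)) G := by
      rw [AlgHom.comp_apply, aeval_eq_eval]
    rw [h1, comp_aeval, aeval_eq_eval]
    congr 1
    congr 1
    funext x
    obtain ⟨x, j⟩ := x
    rcases x with a | a | a <;> simp [s]
  refine ⟨aeval s G, ?_, ?_⟩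
  · intro h
    have h1 := hs fun a => p₀ (Sum.inr (Sum.inl a))
    rw [h, map_zero] at h1
    apply h0
    rw [h1]
    congr 1
    congr 1
    funext x
    obtain ⟨x, j⟩ := x
    rcases x with a | a | a <;> rfl
  · intro y hy
    rw [hs] at hy
    exact hP y hy

end SwapX

open SwapX

theorem swap_step (r d : ℕ) {κ : Type} [Fintype κ] [DecidableEq κ] (m : κ → ℕ) (t M : ℕ)
    (hm : ∀ a, m a ≤ M)
    (hc : gdim r d m +
        gdim r d (Sum.elim (Sum.elim m fun _ : Unit => M) fun _ : Unit => t) =
      gdim r d (Sum.elim m fun _ : Unit => t) + gdim r d (Sum.elim m fun _ : Unit => M)) :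
    gdim r d m = 0 ∨ gdim r d m + gdim r d (fun _ : Unit => t) =
      gdim r d (Sum.elim m fun _ : Unit => t) + (d + r).choose r := by
  -- the point `ℓ`
  let ℓ : κ ⊕ (κ ⊕ Unit) := Sum.inr (Sum.inr ())
  let yy : κ → κ ⊕ (κ ⊕ Unit) := fun a => Sum.inr (Sum.inl a)
  -- the general conditions
  have c1 : ∀ T ∈ (univ : Finset (Finset κ)), Gen r (κ ⊕ (κ ⊕ Unit)) fun p =>
      Module.finrank ℂ (fatForms r d (fun a => p (zt T a)) m) = gdim r d m := fun T _ =>
    Gen.comap (zt T) (zt_inj T) (gen_gdim r d m)
  have c2 : Gen r (κ ⊕ (κ ⊕ Unit)) fun p =>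
      Module.finrank ℂ (fatForms r d (fun _ : Unit => p ℓ) fun _ : Unit => t) =
        gdim r d fun _ : Unit => t :=
    Gen.comap (fun _ : Unit => ℓ) (fun _ _ _ => rfl) (gen_gdim r d fun _ : Unit => t)
  have c3 : ∀ T ∈ (univ : Finset (Finset κ)), Gen r (κ ⊕ (κ ⊕ Unit)) fun p =>
      Module.finrank ℂ (fatForms r d (Sum.elim (fun a => p (zt T a)) fun _ : Unit => p ℓ)
        (Sum.elim m fun _ : Unit => t)) = gdim r d (Sum.elim m fun _ : Unit => t) := by
    intro T _
    have h := Gen.comap (Sum.elim (zt T) fun _ : Unit => ℓ)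
      (elim_inj _ _ (zt_inj T) (zt_ne_ell T)) (gen_gdim r d (Sum.elim m fun _ : Unit => t))
    refine h.mono fun p hp => ?_
    rwa [comp_elim] at hp
  have c4 : ∀ T ∈ (univ : Finset (Finset κ)), Gen r (κ ⊕ (κ ⊕ Unit)) fun p =>
      ∀ a ∈ (univ : Finset κ), a ∉ T → Module.finrank ℂ (fatForms r d
        (Sum.elim (fun a => p (zt T a)) fun _ : Unit => p (yy a))
        (Sum.elim m fun _ : Unit => M)) = gdim r d (Sum.elim m fun _ : Unit => M) := by
    intro T _
    refine Gen.all _ fun a _ => ?_
    by_cases ha : a ∈ T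
    · refine (c2).mono fun p _ h => absurd ha h
    · have h := Gen.comap (Sum.elim (zt T) fun _ : Unit => yy a)
        (elim_inj _ _ (zt_inj T) fun b => zt_ne_y T b a ha)
        (gen_gdim r d (Sum.elim m fun _ : Unit => M))
      refine h.mono fun p hp _ => ?_
      rwa [comp_elim] at hp
  have c5 : ∀ T ∈ (univ : Finset (Finset κ)), Gen r (κ ⊕ (κ ⊕ Unit)) fun p =>
      ∀ a ∈ (univ : Finset κ), a ∉ T → Module.finrank ℂ (fatForms r d
        (Sum.elim (Sum.elim (fun a => p (zt T a)) fun _ : Unit => p (yy a)) fun _ : Unit => p ℓ)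
        (Sum.elim (Sum.elim m fun _ : Unit => M) fun _ : Unit => t)) =
          gdim r d (Sum.elim (Sum.elim m fun _ : Unit => M) fun _ : Unit => t) := by
    intro T _
    refine Gen.all _ fun a _ => ?_
    by_cases ha : a ∈ T
    · refine (c2).mono fun p _ h => absurd ha h
    · have h := Gen.comap (Sum.elim (Sum.elim (zt T) fun _ : Unit => yy a) fun _ : Unit => ℓ)
        (elim_inj _ _ (elim_inj _ _ (zt_inj T) fun b => zt_ne_y T b a ha) (by
          rintro (b | b)
          · exact zt_ne_ell T b
          · intro h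
            exact absurd (Sum.inr_injective h) Sum.inl_ne_inr))
        (gen_gdim r d (Sum.elim (Sum.elim m fun _ : Unit => M) fun _ : Unit => t))
      refine h.mono fun p hp _ => ?_
      rwa [comp_elim, comp_elim] at hp
  have hall := ((Gen.all _ c1).and c2).and (((Gen.all _ c3).and (Gen.all _ c4)).and
    (Gen.all _ c5))
  -- the key inclusion for general points
  have hkey : Gen r (κ ⊕ (κ ⊕ Unit)) fun p =>
      Module.finrank ℂ (fatForms r d (fun a => p (Sum.inl a)) m ⊔
        fatForms r d (fun _ : Unit => p ℓ) fun _ : Unit => t : Submodule ℂ _) +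
          gdim r d (Sum.elim m fun _ : Unit => t) = gdim r d m + gdim r d (fun _ : Unit => t) ∧
      fatForms r d (fun a => p (yy a)) m ≤ fatForms r d (fun a => p (Sum.inl a)) m ⊔
        fatForms r d (fun _ : Unit => p ℓ) fun _ : Unit => t := by
    refine hall.mono ?_
    rintro p ⟨⟨h1, h2⟩, ⟨h3, h4⟩, h5⟩
    let XT : Finset κ → Submodule ℂ (MvPolynomial (Fin (r + 1)) ℂ) := fun T =>
      fatForms r d (fun a => p (zt T a)) m ⊔ fatForms r d (fun _ : Unit => p ℓ) fun _ : Unit => t
    have hX : ∀ T, Module.finrank ℂ (XT T) + gdim r d (Sum.elim m fun _ : Unit => t) =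
        gdim r d m + gdim r d (fun _ : Unit => t) := by
      intro T
      have h := finrank_sup (d := d) (fun a => p (zt T a)) (fun _ : Unit => p ℓ) m
        (fun _ : Unit => t)
      rw [h1 T (mem_univ _), h2, h3 T (mem_univ _)] at h
      exact h
    have hfin : ∀ T, FiniteDimensional ℂ (XT T) := by
      intro T
      have h1 := fin_fat (d := d) (fun a => p (zt T a)) m
      have h2 := fin_fat (d := d) (fun _ : Unit => p ℓ) fun _ : Unit => t
      exact inferInstanceAs (FiniteDimensional ℂ
        (fatForms r d (fun a => p (zt T a)) m ⊔ fatForms r d (fun _ : Unit => p ℓ)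
          fun _ : Unit => t : Submodule ℂ _))
    have hstep : ∀ (T : Finset κ) (a : κ), a ∉ T → XT T = XT (insert a T) := by
      intro T a ha
      let W : Submodule ℂ (MvPolynomial (Fin (r + 1)) ℂ) :=
        fatForms r d (Sum.elim (fun a => p (zt T a)) fun _ : Unit => p (yy a))
          (Sum.elim m fun _ : Unit => M) ⊔ fatForms r d (fun _ : Unit => p ℓ) fun _ : Unit => t
      have hW : Module.finrank ℂ W +
          gdim r d (Sum.elim (Sum.elim m fun _ : Unit => M) fun _ : Unit => t) =
          gdim r d (Sum.elim m fun _ : Unit => M) + gdim r d (fun _ : Unit => t) := by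
        have h := finrank_sup (d := d) (Sum.elim (fun a => p (zt T a)) fun _ : Unit => p (yy a))
          (fun _ : Unit => p ℓ) (Sum.elim m fun _ : Unit => M) (fun _ : Unit => t)
        rw [h4 T (mem_univ _) a (mem_univ _) ha, h2, h5 T (mem_univ _) a (mem_univ _) ha] at h
        exact h
      have hW1 : W ≤ XT T := by
        refine sup_le_sup_right ?_ _
        rw [fat_elim]
        exact inf_le_left
      have hW2 : W ≤ XT (insert a T) := by
        refine sup_le_sup_right ?_ _
        intro F hF
        refine ⟨hF.1, fun b => ?_⟩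
        by_cases hb : b = a
        · subst hb
          have h6 := hF.2 (Sum.inr ())
          have h7 : zt (insert b T) b = yy b := by
            unfold zt
            rw [if_pos (mem_insert_self b T)]
          change VanishesToOrder F (p (zt (insert b T) b)) (m b)
          rw [h7]
          intro β hβ
          exact h6 β (lt_of_lt_of_le hβ (hm b))
        · have h6 := hF.2 (Sum.inl b)
          have h7 : zt (insert a T) b = zt T b := by
            unfold zt
            by_cases hbT : b ∈ T
            · rw [if_pos hbT, if_pos (mem_insert_of_mem hbT)]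
            · rw [if_neg hbT, if_neg]
              intro h
              rcases mem_insert.1 h with h | h
              · exact hb h
              · exact hbT h
          change VanishesToOrder F (p (zt (insert a T) b)) (m b)
          rw [h7]
          exact h6
      have e1 : W = XT T := by
        have := hfin T
        refine Submodule.eq_of_le_of_finrank_eq hW1 ?_
        have := hX T
        omega
      have e2 : W = XT (insert a T) := by
        have := hfin (insert a T)
        refine Submodule.eq_of_le_of_finrank_eq hW2 ?_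
        have := hX (insert a T)
        omega
      rw [← e1, e2]
    have hind : ∀ T : Finset κ, XT T = XT ∅ := by
      intro T
      induction T using Finset.induction_on with
      | empty => rfl
      | insert a T ha ih => rw [← hstep T a ha, ih]
    have z0 : (fun a => p (zt (∅ : Finset κ) a)) = fun a => p (Sum.inl a) := by
      funext a
      unfold zt
      rw [if_neg (Finset.notMem_empty a)]
    have z1 : (fun a => p (zt (univ : Finset κ) a)) = fun a => p (yy a) := by
      funext a
      unfold zt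
      rw [if_pos (mem_univ a)]
    constructor
    · have e : XT ∅ = fatForms r d (fun a => p (Sum.inl a)) m ⊔
          fatForms r d (fun _ : Unit => p ℓ) fun _ : Unit => t := by
        simp only [XT]
        rw [z0]
      have h := hX ∅
      rw [e] at h
      exact h
    · have h := hind univ
      simp only [XT] at h
      rw [z0, z1] at h
      rw [← h]
      exact le_sup_left
  obtain ⟨G, hG0, hG⟩ := hkey
  obtain ⟨v, hv⟩ : ∃ v, eval v G ≠ 0 := by
    by_contra hcon
    push Not at hcon
    exact hG0 (MvPolynomial.funext fun v => by rw [hcon v, map_zero])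
  let p₀ : κ ⊕ (κ ⊕ Unit) → Fin (r + 1) → ℂ := fun i j => v (i, j)
  have hp₀ : eval (fun x => p₀ x.1 x.2) G ≠ 0 := hv
  let X : Submodule ℂ (MvPolynomial (Fin (r + 1)) ℂ) :=
    fatForms r d (fun a => p₀ (Sum.inl a)) m ⊔ fatForms r d (fun _ : Unit => p₀ ℓ) fun _ : Unit => t
  by_cases hX : homogeneousSubmodule (Fin (r + 1)) ℂ d ≤ X
  · right
    have h1 := (hG p₀ hp₀).1
    have h2 : X = homogeneousSubmodule (Fin (r + 1)) ℂ d := by
      refine le_antisymm (sup_le ?_ ?_) hX
      · intro F hF
        exact hF.1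
      · intro F hF
        exact hF.1
    have h3 : Module.finrank ℂ X = (d + r).choose r := by
      rw [h2, Pool.Agent.H21.HD.BridgeDX.finrank_homog']
    change Module.finrank ℂ X + _ = _ at h1
    rw [h3] at h1
    omega
  · left
    refine gl_lemma r d m X hX ?_
    refine gen_fix G p₀ hp₀ _ fun y hy => ?_
    exact (hG (Sum.elim (fun a => p₀ (Sum.inl a))
      (Sum.elim y fun _ : Unit => p₀ (Sum.inr (Sum.inr ())))) hy).2

end Pool.Agent.H21.NX
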