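import Pool.Agent.H21.NX.Window
import Pool.Agent.H21.NX.Conv
import Pool.Agent.H21.NX.Layer

/-!
# Module Trace: exactness from the window theorem, in the language `GM`
-/

namespace Pool.Agent.H21.NX

open Finset MvPolynomial Pool.Agent.H18.Fat Pool.Agent.H18.Ex

private theorem trace_GI (s d : ℕ) (hs : 1 ≤ s) (T : Multiset ℕ) (M : ℕ) (hM : ∀ t ∈ T, t ≤ M)
    (hc : ∀ t ∈ T, 2 ≤ t → tot s (T.filter (t ≤ ·)) + (ell s t - 1) * (ell s M - 1) ≤
      ell s (d + 1)) (ht : ell s (d + 1) ≤ tot s T) {k : ℕ} (m : Fin k → ℕ)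
    (hm : (univ : Finset (Fin k)).val.map m = T) :
    GI (Sx (Fin (s + 1)) d) fun i => Kind.free (m i) := by
  have he : ell s (d + 1) = (d + s).choose s := by
    unfold ell
    rw [show d + 1 + s - 1 = d + s by omega]
  rw [he] at ht
  simp only [he] at hc
  have h1 := window_multiset s d hs M m T hm hM hc
  rw [Nat.sub_eq_zero_of_le ht] at h1
  have h2 : gdim s d m ∈ Set.range fun p : Fin k → Fin (s + 1) → ℂ =>
      Module.finrank ℂ (fatForms s d p m) := Nat.sInf_mem (Set.range_nonempty _)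
  obtain ⟨p, hp⟩ := h2
  exact GI_of_fat p m (Eq.trans hp h1)

/-- `multi_exists_fin` (H18/Ex/Multi), `window_multiset`, `Gen.exists` for `gen_gdim`, `GI_of_fat`,
`GM_iff`. -/
theorem window_GM (s d : ℕ) (hs : 1 ≤ s) (T : Multiset ℕ) (M : ℕ) (hM : ∀ t ∈ T, t ≤ M)
    (hc : ∀ t ∈ T, 2 ≤ t → tot s (T.filter (t ≤ ·)) + (ell s t - 1) * (ell s M - 1) ≤
      ell s (d + 1)) (ht : ell s (d + 1) ≤ tot s T) :
    GM (Sx (Fin (s + 1)) d) (T.map Kind.free) := by
  obtain ⟨k, m, hm⟩ := multi_exists_fin T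
  have h := trace_GI s d hs T M hM hc ht m hm
  rw [← hm, Multiset.map_map]
  exact (GM_iff _ _).2 h

/-- The same on the hyperplane `x_l = 0` (`GI_layer`). -/
theorem trace_GM (s d : ℕ) (hs : 1 ≤ s) (l : Fin (s + 2)) (T : Multiset ℕ) (M : ℕ)
    (hM : ∀ t ∈ T, t ≤ M)
    (hc : ∀ t ∈ T, 2 ≤ t → tot s (T.filter (t ≤ ·)) + (ell s t - 1) * (ell s M - 1) ≤
      ell s (d + 1)) (ht : ell s (d + 1) ≤ tot s T) :
    GM ((Sx (Fin (s + 2)) d).filter fun a => a l = 0) (T.map Kind.free) := by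
  obtain ⟨k, m, hm⟩ := multi_exists_fin T
  have h := GI_layer l m (trace_GI s d hs T M hM hc ht m hm)
  rw [← hm, Multiset.map_map]
  exact (GM_iff _ _).2 h

end Pool.Agent.H21.NX
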