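import Pool.Agent.H21.NX.UNum
import Pool.Agent.H18.Ex.Norm

/-!
# Module UAll: all but finitely many pairs (dimension, degree)
-/

namespace Pool.Agent.H21.NX

open Finset Pool.Agent.H18.Ex
open Pool.Agent.H18.Fat hiding Rg mem_Rg

theorem Rg_eq_Sx (s d : ℕ) : Rg d (fun _ : Fin (s + 2) => d) = Sx (Fin (s + 2)) d := by
  ext a
  rw [mem_Rg, mem_Sx]
  constructor
  · exact fun h => h.2
  · intro h
    refine ⟨fun i => ?_, h⟩
    rw [← h]
    exact single_le_sum (fun j _ => Nat.zero_le (a j)) (mem_univ i)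

/-- Fixed dimension, large degree. -/
theorem exact_fixed (M r : ℕ) (hr : 1 ≤ r) : ∃ D : ℕ, ∀ d, D ≤ d →
    ∀ (k : ℕ) (m : Fin k → ℕ), (∀ i, m i ≤ M) →
    ForGeneralPoints r k fun p => ImposesMaximalConditions r d p m := by
  obtain ⟨s, rfl⟩ : ∃ s, r = s + 1 := ⟨r - 1, by omega⟩
  refine ⟨cF (M + 1) s, fun d hd k m hm => ?_⟩
  have hpos := cF_pos (M + 1) s
  have hE : Exa (s + 1) (M + 1) (Rg d fun _ : Fin (s + 2) => d) := by
    apply exa_fat (M + 1) (by omega) s
    refine ⟨?_, hd, fun l _ => hd, ?_⟩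
    · rw [filter_true_of_mem fun l _ => (by omega : 0 < d), card_univ, Fintype.card_fin]
    · rw [sum_const, card_univ, Fintype.card_fin, smul_eq_mul]
      have : (s + 2) * d = s * d + 2 * d := by ring
      omega
  rw [Rg_eq_Sx] at hE
  refine max_of_GM (s + 1) k d (by omega) m ?_
  rw [← aug_map]
  refine hE (aug (s + 1) d m) (mem_aug (by omega) fun i => le_trans (hm i) (Nat.le_succ M)) ?_
  rw [card_Sx]
  exact le_tot_aug _ _ m

/-- All but finitely many pairs `(r, d)`. -/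
theorem exact_cofinite (M : ℕ) : ∃ (K : ℕ) (X : Finset (ℕ × ℕ)), ∀ r d : ℕ, 1 ≤ r →
    2 * M ≤ d + 1 → (r, d) ∉ X → ∀ (k : ℕ) (m : Fin k → ℕ), (∀ i, m i ≤ M) →
    (3 * M ≤ d + 1 ∨ ∃ μ, 1 ≤ μ ∧ 2 * μ + M ≤ d + 1 ∧
      K * r ^ (d - μ) ≤ (univ.filter fun i => m i = μ).card) →
    ForGeneralPoints r k fun p => ImposesMaximalConditions r d p m := by
  obtain ⟨r₁, h1⟩ := exact_three M
  choose K₂ r₂ h2 using exact_many
  have h3 : ∀ r : ℕ, ∃ D : ℕ, 1 ≤ r → ∀ d, D ≤ d → ∀ (k : ℕ) (m : Fin k → ℕ),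
      (∀ i, m i ≤ M) → ForGeneralPoints r k fun p => ImposesMaximalConditions r d p m := by
    intro r
    by_cases hr : 1 ≤ r
    · obtain ⟨D, hD⟩ := exact_fixed M r hr
      exact ⟨D, fun _ => hD⟩
    · exact ⟨0, fun h => absurd h hr⟩
  choose D₃ h3 using h3
  -- bounds
  obtain ⟨R, hR⟩ : ∃ R, R = r₁ + (range (3 * M)).sup r₂ + 1 := ⟨_, rfl⟩
  refine ⟨(range (3 * M)).sup K₂ + 1,
    (range R ×ˢ range ((range R).sup D₃)), fun r d hr hd hX k m hm hcase => ?_⟩
  by_cases hrR : r < R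
  · -- small dimension
    refine h3 r hr d ?_ k m hm
    by_contra hcon
    refine hX ?_
    rw [mem_product, mem_range, mem_range]
    refine ⟨hrR, ?_⟩
    have h4 : D₃ r ≤ (range R).sup D₃ := le_sup (f := D₃) (mem_range.2 hrR)
    change d < (range R).sup D₃
    omega
  · by_cases hdM : 3 * M ≤ d + 1
    · exact h1 r (by omega) d hdM k m hm
    · rcases hcase with hcase | ⟨μ, hμ1, hμ2, hμ3⟩
      · exact absurd hcase hdM
      · have hr2 : r₂ d ≤ (range (3 * M)).sup r₂ := le_sup (f := r₂) (mem_range.2 (by omega))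
        have hK2 : K₂ d ≤ (range (3 * M)).sup K₂ := le_sup (f := K₂) (mem_range.2 (by omega))
        have hr1 : 1 ≤ r := hr
        have hpow : 1 ≤ r ^ (d - μ) := Nat.one_le_pow _ _ hr1
        have hK1 : 1 ≤ (univ.filter fun i => m i = μ).card := by
          refine le_trans ?_ hμ3
          calc 1 = 1 * 1 := rfl
            _ ≤ _ := Nat.mul_le_mul (by omega) hpow
        obtain ⟨i, hi⟩ := card_pos.1 hK1
        have hμM : μ ≤ M := by
          rw [← (mem_filter.1 hi).2]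
          exact hm i
        refine h2 d r (by omega) μ M hμ1 hμM hd hμ2 k m hm (le_trans ?_ hμ3)
        exact Nat.mul_le_mul_right _ (by omega)

end Pool.Agent.H21.NX
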