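import Pool.Agent.H21.NX.UStage
import Pool.Agent.H21.NX.PeelAll

/-!
# Module UDefs: the uniform version, numerical conditions
-/

namespace Pool.Agent.H21.NX

open Finset Pool.Agent.H18.Ex

/-- The maximal number of simple traces in a step. -/
def GG (s M : ℕ) : ℕ := ell s M ^ 2 + ell s M

/-- The numerical conditions of the uniform version. -/
structure UNum (s M D0 : ℕ) : Prop where
  hM : 1 ≤ M
  hs : 16 * M ≤ s
  hD : 16 * M ≤ D0
  room : 16 * M * ell (s + 1) M ^ 3 ≤ ell s D0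

/-- The size of the batch. -/
def a0 (s M D0 d : ℕ) : ℕ :=
  (d + 1) * GG s M + ell (s + 1) M + ell s M ^ 2 + ell (s + 1) D0

theorem ell_le_succ (s m : ℕ) (hs : 1 ≤ s) : ell s m ≤ ell (s + 1) m := by
  have := tot_le_tot_succ (N0 := {m}) s hs
  simpa [tot] using this

/-- Greedy choice of a sub-multiset, from below. -/
theorem greedy_below (n M x T : ℕ) (hx : x ≤ T) (R : Multiset ℕ) :
    (∀ m ∈ R, m ≤ M) → T ≤ x + tot n R →
      ∃ R' ≤ R, x + tot n R' ≤ T ∧ T ≤ x + tot n R' + ell n M := by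
  induction R using Multiset.induction_on with
  | empty =>
    intro _ hT
    refine ⟨0, le_rfl, ?_, ?_⟩
    · rw [show tot n 0 = 0 from rfl]
      exact hx
    · exact le_trans hT (Nat.le_add_right _ _)
  | cons a R ih =>
    intro hM hT
    have hcons : tot n (a ::ₘ R) = ell n a + tot n R := by
      unfold tot
      rw [Multiset.map_cons, Multiset.sum_cons]
    by_cases h : T ≤ x + tot n R
    · obtain ⟨R', h1, h2, h3⟩ := ih (fun m hm => hM m (Multiset.mem_cons_of_mem hm)) h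
      exact ⟨R', le_trans h1 (Multiset.le_cons_self _ _), h2, h3⟩
    · refine ⟨R, Multiset.le_cons_self _ _, by omega, ?_⟩
      have := ell_mono n (hM a (Multiset.mem_cons_self _ _))
      omega

namespace UNum

variable {s M D0 : ℕ} (h : UNum s M D0)

include h

theorem s1 : 1 ≤ s := by
  have := h.hs
  have := h.hM
  omega

theorem F1 : 1 ≤ ell (s + 1) M := ell_pos _ h.hM

theorem E1 : 1 ≤ ell s M := ell_pos _ h.hM

theorem EF : ell s M ≤ ell (s + 1) M := ell_le_succ s M h.s1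

theorem GG_le : GG s M ≤ 2 * ell (s + 1) M ^ 2 := by
  have h1 := h.E1
  have h2 := h.EF
  unfold GG
  have h3 : ell s M ^ 2 ≤ ell (s + 1) M ^ 2 := Nat.pow_le_pow_left h2 2
  have h4 : ell s M ≤ ell (s + 1) M ^ 2 := by nlinarith
  omega

theorem roomS {S : ℕ} (hS : D0 ≤ S) : 16 * M * ell (s + 1) M ^ 3 ≤ ell s S :=
  le_trans h.room (ell_mono _ hS)

/-- `2 * E(M)^2 ≤ E(S)`. -/
theorem r1 {S : ℕ} (hS : D0 ≤ S) : 2 * ell s M ^ 2 ≤ ell s S := by
  refine le_trans ?_ (h.roomS hS)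
  have h1 := h.F1
  have h2 := h.EF
  have h3 : ell s M ^ 2 ≤ ell (s + 1) M ^ 2 := Nat.pow_le_pow_left h2 2
  calc 2 * ell s M ^ 2 ≤ 2 * ell (s + 1) M ^ 2 := Nat.mul_le_mul_left _ h3
    _ = 2 * 1 * (ell (s + 1) M ^ 2 * 1) := by ring
    _ ≤ 16 * M * (ell (s + 1) M ^ 2 * ell (s + 1) M) :=
        Nat.mul_le_mul (Nat.mul_le_mul (by omega) h.hM) (Nat.mul_le_mul_left _ h1)
    _ = _ := by ring

/-- `8 * G * E(M) ≤ E(S)`. -/
theorem r2 {S : ℕ} (hS : D0 ≤ S) : 8 * (GG s M * ell s M) ≤ ell s S := by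
  refine le_trans ?_ (h.roomS hS)
  calc 8 * (GG s M * ell s M) ≤ 8 * (2 * ell (s + 1) M ^ 2 * ell (s + 1) M) :=
        Nat.mul_le_mul_left _ (Nat.mul_le_mul h.GG_le h.EF)
    _ = 16 * 1 * ell (s + 1) M ^ 3 := by ring
    _ ≤ _ := Nat.mul_le_mul_right _ (Nat.mul_le_mul_left _ h.hM)

/-- `2 * M * G * E(M) ≤ E(S)`. -/
theorem r3 {S : ℕ} (hS : D0 ≤ S) : 2 * (M * GG s M * ell s M) ≤ ell s S := by
  refine le_trans ?_ (h.roomS hS)
  calc 2 * (M * GG s M * ell s M) ≤ 2 * (M * (2 * ell (s + 1) M ^ 2) * ell (s + 1) M) :=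
        Nat.mul_le_mul_left _ (Nat.mul_le_mul (Nat.mul_le_mul_left _ h.GG_le) h.EF)
    _ = 4 * M * ell (s + 1) M ^ 3 := by ring
    _ ≤ _ := Nat.mul_le_mul_right _ (Nat.mul_le_mul_right _ (by omega))

/-- `2 * (F(M)^2 + F(M)) * F(M) ≤ E(S)`. -/
theorem r4 {S : ℕ} (hS : D0 ≤ S) :
    2 * ((ell (s + 1) M ^ 2 + ell (s + 1) M) * ell (s + 1) M) ≤ ell s S := by
  refine le_trans ?_ (h.roomS hS)
  have h1 := h.F1
  have h2 : ell (s + 1) M ≤ ell (s + 1) M ^ 2 := by nlinarith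
  calc 2 * ((ell (s + 1) M ^ 2 + ell (s + 1) M) * ell (s + 1) M) ≤
      2 * ((ell (s + 1) M ^ 2 + ell (s + 1) M ^ 2) * ell (s + 1) M) :=
        Nat.mul_le_mul_left _ (Nat.mul_le_mul_right _ (Nat.add_le_add_left h2 _))
    _ = 4 * 1 * ell (s + 1) M ^ 3 := by ring
    _ ≤ _ := Nat.mul_le_mul_right _ (Nat.mul_le_mul (by omega) h.hM)

/-- The new load is small: `8 * x * E(S) ≤ (x + s) * E(S - 1)` for `x = M - 1`. -/
theorem load {S : ℕ} (hS : D0 + 1 ≤ S) :
    8 * ((M - 1) * ell s S) ≤ (M - 1 + s) * ell s (S - 1) := by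
  have h1 := h.hs
  have h2 := h.hD
  have h3 := h.hM
  obtain ⟨k, rfl⟩ : ∃ k, S = k + 1 := ⟨S - 1, by omega⟩
  rw [Nat.add_sub_cancel]
  have hrel : ell s k * (k + s) = ell s (k + 1) * k := ell_mul_add s k h.s1
  have hk : 0 < k := by omega
  refine Nat.le_of_mul_le_mul_right ?_ (show 0 < k from hk)
  obtain ⟨x, hx⟩ : ∃ x, M - 1 = x := ⟨_, rfl⟩
  rw [hx]
  have e1 : 8 * (x * (k + s)) ≤ (x + s) * k := by
    have hxs : 16 * x ≤ s := by omega
    have hxk : 16 * x ≤ k := by omega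
    have e2 : 16 * x * k ≤ s * k := Nat.mul_le_mul_right _ hxs
    have e3 : 16 * x * s ≤ k * s := Nat.mul_le_mul_right _ hxk
    nlinarith
  calc 8 * (x * ell s (k + 1)) * k = 8 * x * (ell s (k + 1) * k) := by ring
    _ = 8 * x * (ell s k * (k + s)) := by rw [hrel]
    _ = 8 * (x * (k + s)) * ell s k := by ring
    _ ≤ (x + s) * k * ell s k := Nat.mul_le_mul_right _ e1
    _ = (x + s) * ell s k * k := by ring

end UNum

end Pool.Agent.H21.NX
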