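import Pool.Agent.H21.NX.UCore

/-!
# Module UNum: the numerical conditions of the uniform version
-/

namespace Pool.Agent.H21.NX

open Finset Pool.Agent.H18.Ex

theorem big_step (s M D0 d : ℕ) (hs : 1 ≤ s)
    (h : 2 * ((a0 s M D0 d + M * GG s M) * (M * ell (s + 1) M)) ≤ ell s (d + 1)) :
    2 * ((a0 s M D0 (d + 1) + M * GG s M) * (M * ell (s + 1) M)) ≤ ell s (d + 1 + 1) := by
  have hrel : ell s (d + 1) * (d + 1 + s) = ell s (d + 1 + 1) * (d + 1) :=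
    ell_mul_add s (d + 1) hs
  have ha : a0 s M D0 (d + 1) = a0 s M D0 d + GG s M := by
    unfold a0
    ring
  have h1 : 2 * ((d + 1) * GG s M * (M * ell (s + 1) M)) ≤ ell s (d + 1) := by
    refine le_trans ?_ h
    refine Nat.mul_le_mul_left _ (Nat.mul_le_mul_right _ ?_)
    unfold a0
    omega
  refine Nat.le_of_mul_le_mul_right ?_ (show 0 < d + 1 by omega)
  rw [← hrel, ha]
  calc 2 * ((a0 s M D0 d + GG s M + M * GG s M) * (M * ell (s + 1) M)) * (d + 1) =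
      2 * ((a0 s M D0 d + M * GG s M) * (M * ell (s + 1) M)) * (d + 1) +
        2 * ((d + 1) * GG s M * (M * ell (s + 1) M)) * 1 := by ring
    _ ≤ ell s (d + 1) * (d + 1) + ell s (d + 1) * s :=
        Nat.add_le_add (Nat.mul_le_mul_right _ h) (Nat.mul_le_mul h1 hs)
    _ = _ := by ring

theorem exists_unum (M : ℕ) (hM : 1 ≤ M) : ∃ D0 D1 s0 : ℕ, ∀ s, s0 ≤ s → ∀ d, D1 ≤ d →
    UNum s M D0 ∧ D0 + M ≤ d ∧
    2 * ((a0 s M D0 d + M * GG s M) * (M * ell (s + 1) M)) ≤ ell s (d + 1) := by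
  -- constants
  obtain ⟨D0, hD0⟩ : ∃ D0, D0 = 16 * M := ⟨_, rfl⟩
  obtain ⟨D1, hD1⟩ : ∃ D1, D1 = 20 * M := ⟨_, rfl⟩
  obtain ⟨C1, hC1⟩ : ∃ C1, C1 = 16 * M * 2 ^ (3 * (M - 1)) * D0 ^ D0 := ⟨_, rfl⟩
  obtain ⟨C2, hC2⟩ : ∃ C2, C2 = 2 * ((2 * (D1 + 1 + M) + 3) * M) * 2 ^ (D0 - 1 + (M - 1)) *
    (D1 + 1) ^ (D1 + 1) := ⟨_, rfl⟩
  refine ⟨D0, D1, 16 * M + C1 + C2 + D0 + D1 + 1, fun s hs d hd => ?_⟩
  have hs1 : 1 ≤ s := by omega
  have hs16 : 16 * M ≤ s := by omega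
  have hsC1 : C1 ≤ s := by omega
  have hsC2 : C2 ≤ s := by omega
  have hFM : ell (s + 1) M ≤ (2 * s) ^ (M - 1) := ell_succ_le_pow s M hM (by omega)
  have hEM : ell s M ≤ (2 * s) ^ (M - 1) := ell_le_pow s M hM (by omega)
  have hFD : ell (s + 1) D0 ≤ (2 * s) ^ (D0 - 1) := ell_succ_le_pow s D0 (by omega) (by omega)
  have hun : UNum s M D0 := by
    refine ⟨hM, hs16, by omega, ?_⟩
    have h1 : s ^ (D0 - 1) ≤ D0 ^ D0 * ell s D0 := pow_le_ell s D0 (by omega)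
    have h2 : 0 < D0 ^ D0 := Nat.pow_pos (by omega)
    refine Nat.le_of_mul_le_mul_left (le_trans ?_ h1) h2
    calc D0 ^ D0 * (16 * M * ell (s + 1) M ^ 3) ≤
        D0 ^ D0 * (16 * M * ((2 * s) ^ (M - 1)) ^ 3) :=
          Nat.mul_le_mul_left _ (Nat.mul_le_mul_left _ (Nat.pow_le_pow_left hFM 3))
      _ = 16 * M * 2 ^ (3 * (M - 1)) * D0 ^ D0 * s ^ (3 * (M - 1)) := by
          rw [← pow_mul, mul_pow, mul_comm (M - 1) 3]
          ring
      _ = C1 * s ^ (3 * (M - 1)) := by rw [hC1]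
      _ ≤ s * s ^ (3 * (M - 1)) := Nat.mul_le_mul_right _ hsC1
      _ = s ^ (3 * (M - 1) + 1) := by ring
      _ ≤ s ^ (D0 - 1) := Nat.pow_le_pow_right hs1 (by omega)
  refine ⟨hun, by omega, ?_⟩
  -- the base case of the induction on the degree
  have hbase : 2 * ((a0 s M D0 D1 + M * GG s M) * (M * ell (s + 1) M)) ≤ ell s (D1 + 1) := by
    have h1 : s ^ (D1 + 1 - 1) ≤ (D1 + 1) ^ (D1 + 1) * ell s (D1 + 1) :=
      pow_le_ell s (D1 + 1) (by omega)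
    have h2 : 0 < (D1 + 1) ^ (D1 + 1) := Nat.pow_pos (by omega)
    have hx1 : 1 ≤ 2 * s := by omega
    obtain ⟨x, hx⟩ : ∃ x, x = (2 * s) ^ (D0 - 1) := ⟨_, rfl⟩
    have hGx : GG s M ≤ 2 * x := by
      have e1 : ell s M ^ 2 ≤ x := by
        calc ell s M ^ 2 ≤ ((2 * s) ^ (M - 1)) ^ 2 := Nat.pow_le_pow_left hEM 2
          _ = (2 * s) ^ ((M - 1) * 2) := by rw [← pow_mul]
          _ ≤ (2 * s) ^ (D0 - 1) := Nat.pow_le_pow_right hx1 (by omega)
          _ = x := hx.symm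
      have e2 : ell s M ≤ x := by
        calc ell s M ≤ (2 * s) ^ (M - 1) := hEM
          _ ≤ (2 * s) ^ (D0 - 1) := Nat.pow_le_pow_right hx1 (by omega)
          _ = x := hx.symm
      unfold GG
      omega
    have hE2 : ell s M ^ 2 ≤ x := by
      calc ell s M ^ 2 ≤ ((2 * s) ^ (M - 1)) ^ 2 := Nat.pow_le_pow_left hEM 2
        _ = (2 * s) ^ ((M - 1) * 2) := by rw [← pow_mul]
        _ ≤ (2 * s) ^ (D0 - 1) := Nat.pow_le_pow_right hx1 (by omega)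
        _ = x := hx.symm
    have hFx : ell (s + 1) M ≤ x := by
      calc ell (s + 1) M ≤ (2 * s) ^ (M - 1) := hFM
        _ ≤ (2 * s) ^ (D0 - 1) := Nat.pow_le_pow_right hx1 (by omega)
        _ = x := hx.symm
    have hFDx : ell (s + 1) D0 ≤ x := by rw [hx]; exact hFD
    have ha : a0 s M D0 D1 + M * GG s M ≤ (2 * (D1 + 1 + M) + 3) * x := by
      unfold a0
      have e1 : (D1 + 1) * GG s M ≤ (D1 + 1) * (2 * x) := Nat.mul_le_mul_left _ hGx
      have e2 : M * GG s M ≤ M * (2 * x) := Nat.mul_le_mul_left _ hGx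
      calc (D1 + 1) * GG s M + ell (s + 1) M + ell s M ^ 2 + ell (s + 1) D0 + M * GG s M ≤
          (D1 + 1) * (2 * x) + x + x + x + M * (2 * x) := by omega
        _ = _ := by ring
    refine Nat.le_of_mul_le_mul_left (le_trans ?_ h1) h2
    calc (D1 + 1) ^ (D1 + 1) * (2 * ((a0 s M D0 D1 + M * GG s M) * (M * ell (s + 1) M))) ≤
        (D1 + 1) ^ (D1 + 1) * (2 * (((2 * (D1 + 1 + M) + 3) * x) * (M * (2 * s) ^ (M - 1)))) :=
          Nat.mul_le_mul_left _ (Nat.mul_le_mul_left _ (Nat.mul_le_mul ha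
            (Nat.mul_le_mul_left _ hFM)))
      _ = 2 * ((2 * (D1 + 1 + M) + 3) * M) * 2 ^ (D0 - 1 + (M - 1)) *
            (D1 + 1) ^ (D1 + 1) * s ^ (D0 - 1 + (M - 1)) := by
          rw [hx, mul_pow, mul_pow, pow_add, pow_add]
          ring
      _ = C2 * s ^ (D0 - 1 + (M - 1)) := by rw [hC2]
      _ ≤ s * s ^ (D0 - 1 + (M - 1)) := Nat.mul_le_mul_right _ hsC2
      _ = s ^ (D0 - 1 + (M - 1) + 1) := by ring
      _ ≤ s ^ (D1 + 1 - 1) := Nat.pow_le_pow_right hs1 (by omega)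
  exact Nat.le_induction hbase (fun d _ ih => big_step s M D0 d hs1 ih) d hd

/-- Exactness for large dimension and large degree, both bounds depending only on `M`. -/
theorem exact_uniform (M : ℕ) : ∃ D1 r₀ : ℕ, ∀ r, r₀ ≤ r → ∀ d, D1 ≤ d →
    ∀ (k : ℕ) (m : Fin k → ℕ), (∀ i, m i ≤ M) →
    Pool.Agent.H18.Fat.ForGeneralPoints r k fun p =>
      Pool.Agent.H18.Fat.ImposesMaximalConditions r d p m := by
  obtain ⟨D0, D1, s0, h⟩ := exists_unum (M + 1) (by omega)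
  refine ⟨D1, s0 + 1, fun r hr d hd k m hm => ?_⟩
  obtain ⟨s, rfl⟩ : ∃ s, r = s + 1 := ⟨r - 1, by omega⟩
  obtain ⟨h1, h2, h3⟩ := h s (by omega) d hd
  refine max_of_GM (s + 1) k d (by omega) m ?_
  rw [← aug_map]
  exact ucore h1 h2 h3 (aug (s + 1) d m) (mem_aug (by omega) fun i => le_trans (hm i)
    (Nat.le_succ M)) (le_tot_aug _ _ m)

/-- Exactness for large dimension and `d ≥ 3 M - 1`. -/
theorem exact_three (M : ℕ) : ∃ r₀ : ℕ, ∀ r, r₀ ≤ r → ∀ d, 3 * M ≤ d + 1 →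
    ∀ (k : ℕ) (m : Fin k → ℕ), (∀ i, m i ≤ M) →
    Pool.Agent.H18.Fat.ForGeneralPoints r k fun p =>
      Pool.Agent.H18.Fat.ImposesMaximalConditions r d p m := by
  obtain ⟨D1, r₁, h1⟩ := exact_uniform M
  choose r₂ h2 using exact_small
  refine ⟨r₁ + (Finset.range D1).sup r₂, fun r hr d hd k m hm => ?_⟩
  by_cases hdD : D1 ≤ d
  · exact h1 r (by omega) d hdD k m hm
  · refine h2 d r ?_ k m fun i => by
      have := hm i
      omega
    have : r₂ d ≤ (Finset.range D1).sup r₂ :=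
      Finset.le_sup (f := r₂) (Finset.mem_range.2 (by omega))
    omega

end Pool.Agent.H21.NX
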