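import Pool.Agent.H21.NX.UDefs

/-!
# Module UOver: too many points kill everything, from the window theorem
-/

namespace Pool.Agent.H21.NX

open Finset Pool.Agent.H18.Ex

/-- Simple points may be replaced by points of positive multiplicities. -/
theorem GM_free_up {ι : Type} [Fintype ι] [DecidableEq ι] (A : Finset (ι → ℕ))
    (X : Multiset (Kind ι)) (T : Multiset ℕ) (hT : ∀ m ∈ T, 1 ≤ m)
    (h : GM A (X + Multiset.replicate (Multiset.card T) (Kind.free 1))) :
    GM A (X + T.map Kind.free) := by
  obtain ⟨a, x, rfl⟩ := multi_exists_fin X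
  obtain ⟨b, t, rfl⟩ := multi_exists_fin T
  have hb : Multiset.card ((univ : Finset (Fin b)).val.map t) = b := by
    rw [Multiset.card_map, Finset.card_val, Finset.card_univ, Fintype.card_fin]
  have hr : Multiset.replicate b (Kind.free 1 : Kind ι) =
      (univ : Finset (Fin b)).val.map (fun _ => Kind.free 1) := by
    rw [Multiset.map_const', Finset.card_val, Finset.card_univ, Fintype.card_fin]
  rw [hb, hr, ← multi_map_sum, GM_iff] at h
  rw [Multiset.map_map, ← multi_map_sum, GM_iff]
  obtain ⟨pos, hpos⟩ := h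
  refine ⟨pos, fun f hf => hpos f fun i => ?_⟩
  rcases i with i | i
  · exact hf (Sum.inl i)
  · intro β hβ
    refine hf (Sum.inr i) β ?_
    have h1 : 1 ≤ t i := hT _ (Multiset.mem_map.2 ⟨i, by
      rw [Finset.mem_val]
      exact Finset.mem_univ _, rfl⟩)
    exact lt_of_lt_of_le hβ h1

/-- More conditions than forms, with a margin. -/
theorem over_GM (n σ M : ℕ) (hn : 1 ≤ n) (S : Multiset ℕ) (hS : ∀ m ∈ S, 1 ≤ m ∧ m ≤ M)
    (hroom : ell n M ^ 2 ≤ ell n (σ + 1))
    (h : ell n (σ + 1) + (ell n M ^ 2 + ell n M) * ell n M ≤ tot n S) :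
    GM (Sx (Fin (n + 1)) σ) (S.map Kind.free) := by
  rcases Nat.eq_zero_or_pos M with hM | hM
  · exfalso
    have h1 : S = 0 := by
      refine Multiset.eq_zero_of_forall_notMem fun m hm => ?_
      have := hS m hm
      omega
    have h2 : 1 ≤ ell n (σ + 1) := ell_pos _ (by omega)
    rw [h1, show tot n 0 = 0 from rfl] at h
    omega
  have hE : 1 ≤ ell n M := ell_pos _ hM
  obtain ⟨S', hS', h1, h2⟩ := greedy_below n M 0 (ell n (σ + 1) - ell n M ^ 2) (Nat.zero_le _) S
    (fun m hm => (hS m hm).2) (by omega)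
  obtain ⟨T, hT⟩ := Multiset.le_iff_exists_add.1 hS'
  rw [Nat.zero_add] at h1 h2
  have hTm : ∀ m ∈ T, 1 ≤ m ∧ m ≤ M := fun m hm => hS m (by
    rw [hT]
    exact Multiset.mem_add.2 (Or.inr hm))
  have hcard : tot n T ≤ Multiset.card T * ell n M := by
    clear hT
    induction T using Multiset.induction_on with
    | empty => exact Nat.zero_le _
    | cons a T ih =>
      have h3 := ih fun m hm => hTm m (Multiset.mem_cons_of_mem hm)
      have h4 := ell_mono n (hTm a (Multiset.mem_cons_self _ _)).2
      unfold tot at h3 ⊢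
      rw [Multiset.map_cons, Multiset.sum_cons, Multiset.card_cons, Nat.add_mul, Nat.one_mul]
      omega
  have htot : tot n S = tot n S' + tot n T := by rw [hT, tot_add]
  have hj : ell n M ^ 2 + ell n M ≤ Multiset.card T := by
    refine Nat.le_of_mul_le_mul_right (le_trans ?_ hcard) hE
    omega
  rw [hT, Multiset.map_add]
  refine GM_free_up _ _ T (fun m hm => (hTm m hm).1) ?_
  have hw := window_GM n σ hn (S' + Multiset.replicate (Multiset.card T) 1) M ?_ ?_ ?_
  · rwa [Multiset.map_add, Multiset.map_replicate] at hw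
  · intro t ht
    rcases Multiset.mem_add.1 ht with ht | ht
    · exact (hS t (Multiset.mem_of_le hS' ht)).2
    · rw [Multiset.eq_of_mem_replicate ht]
      exact hM
  · intro t ht ht2
    have htM : t ≤ M := by
      rcases Multiset.mem_add.1 ht with ht | ht
      · exact (hS t (Multiset.mem_of_le hS' ht)).2
      · rw [Multiset.eq_of_mem_replicate ht]
        exact hM
    exact window_cond' n hn S' _ M _ (by omega) t ht2 htM
  · rw [tot_add, tot_replicate, ell_one, mul_one]
    omega

end Pool.Agent.H21.NX
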