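import Pool.Agent.H21.NX.Stage
import Pool.Agent.H21.NX.LensB

/-!
# Module UStage: one Horace step, with arbitrary points which stay
-/

namespace Pool.Agent.H21.NX

open Finset Pool.Agent.H18.Ex

namespace UStageX

/-- The roles. -/
def roles {ι : Type} (Φ : Multiset (ℕ × ℕ)) (N0 Q : Multiset ℕ) (μ α ρ : ℕ) :
    Multiset (Role ι) :=
  Φ.map (fun x => Role.here x.1 x.2) + N0.map Role.ord + Multiset.replicate α (Role.ord μ) +
    Multiset.replicate ρ Role.dif + Q.map (fun m => Role.stay (Kind.free m))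

theorem roles_before {ι : Type} (l : ι) (Φ : Multiset (ℕ × ℕ)) (N0 Q : Multiset ℕ)
    (μ α ρ : ℕ) :
    (roles Φ N0 Q μ α ρ).map (Role.before l μ) = fk l Φ + N0.map Kind.free +
      Multiset.replicate (α + ρ) (Kind.free μ) + Q.map Kind.free := by
  unfold roles fk
  simp only [Multiset.map_add, Multiset.map_map, Multiset.map_replicate, Multiset.replicate_add]
  have e1 : (Role.before l μ ∘ fun x : ℕ × ℕ => Role.here x.1 x.2) =
      fun x : ℕ × ℕ => Kind.forced l x.1 x.2 := rfl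
  have e2 : (Role.before l μ ∘ (Role.ord : ℕ → Role ι)) = (Kind.free : ℕ → Kind ι) := rfl
  have e3 : Role.before l μ (Role.ord μ : Role ι) = Kind.free μ := rfl
  have e4 : Role.before l μ (Role.dif : Role ι) = Kind.free μ := rfl
  have e5 : (Role.before l μ ∘ fun m : ℕ => Role.stay (Kind.free m : Kind ι)) = Kind.free := rfl
  rw [e1, e2, e3, e4, e5]
  simp only [add_assoc]

theorem roles_layer {ι : Type} (Φ : Multiset (ℕ × ℕ)) (N0 Q : Multiset ℕ) (μ α ρ : ℕ)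
    (hΦ : ∀ x ∈ Φ, x.2 ≤ x.1) :
    ((trc Φ N0 μ α ρ).map (Kind.free : ℕ → Kind ι)) ≤
      (roles Φ N0 Q μ α ρ).map (fun r : Role ι => (Kind.free r.layer : Kind ι)) := by
  unfold roles trc
  simp only [Multiset.map_add, Multiset.map_map, Multiset.map_replicate]
  refine le_trans (le_of_eq ?_) (Multiset.le_add_right _ _)
  have e1 : Multiset.map ((Kind.free : ℕ → Kind ι) ∘ Prod.fst) Φ =
      Multiset.map ((fun r : Role ι => (Kind.free r.layer : Kind ι)) ∘
        fun x : ℕ × ℕ => Role.here x.1 x.2) Φ := by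
    refine Multiset.map_congr rfl fun x hx => ?_
    have h := hΦ x hx
    simp only [Function.comp, Role.layer, h, if_true]
  rw [e1]
  rfl

theorem roles_after {ι : Type} (l : ι) (Φ : Multiset (ℕ × ℕ)) (N0 Q : Multiset ℕ)
    (μ α ρ : ℕ) :
    fk l (nxt Φ N0 μ α ρ) + Q.map Kind.free ≤
      (roles Φ N0 Q μ α ρ).map (Role.after l μ) := by
  have h1 : fk l (nxt Φ N0 μ α ρ) ≤ fk l
      (Φ.map (fun x : ℕ × ℕ => (x.1 - 1, x.2)) + N0.map (fun m => (m - 1, 1)) +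
        Multiset.replicate α (μ - 1, 1) + Multiset.replicate ρ (μ, 2)) :=
    Multiset.map_le_map (Multiset.filter_le _ _)
  refine le_trans (add_le_add h1 le_rfl) (le_of_eq ?_)
  unfold roles fk
  simp only [Multiset.map_add, Multiset.map_map, Multiset.map_replicate]
  rfl

end UStageX

theorem stageQ (s : ℕ) (hs : 1 ≤ s) (l : Fin (s + 2)) (σ : ℕ) (hσ : 1 ≤ σ)
    (Φ : Multiset (ℕ × ℕ)) (N0 Q : Multiset ℕ) (μ α ρ M : ℕ) (hμ : 1 ≤ μ)
    (hΦ : ∀ x ∈ Φ, x.2 ≤ x.1) (hM : ∀ t ∈ trc Φ N0 μ α ρ, t ≤ M)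
    (hc : ∀ t ∈ trc Φ N0 μ α ρ, 2 ≤ t → tot s ((trc Φ N0 μ α ρ).filter (t ≤ ·)) +
      (ell s t - 1) * (ell s M - 1) ≤ ell s (σ + 1))
    (ht : ell s (σ + 1) ≤ tl s Φ + tot s N0 + α * ell s μ + ρ)
    (h1 : GM (Sx (Fin (s + 2)) (σ - 1)) (fk l (nxt Φ N0 μ α ρ) + Q.map Kind.free)) :
    GM (Sx (Fin (s + 2)) σ) (fk l Φ + N0.map Kind.free +
      Multiset.replicate (α + ρ) (Kind.free μ) + Q.map Kind.free) := by
  rw [← UStageX.roles_before l Φ N0 Q μ α ρ]
  refine GM.step (Sx (Fin (s + 2)) σ) (Sx (Fin (s + 2)) (σ - 1)) l (Sx_resid σ hσ l) μ hμ _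
    ?_ ?_ ?_
  · intro k hk
    have hk' : ∃ m, k = Kind.free m := by
      unfold UStageX.roles at hk
      simp only [Multiset.mem_add, Multiset.mem_map, Multiset.mem_replicate] at hk
      rcases hk with (((⟨x, _, hx⟩ | ⟨x, _, hx⟩) | ⟨_, hx⟩) | ⟨_, hx⟩) | ⟨x, _, hx⟩
      · cases hx
      · cases hx
      · cases hx
      · cases hx
      · cases hx
        exact ⟨x, rfl⟩
    obtain ⟨m, rfl⟩ := hk'
    trivial
  · refine GM.mono (UStageX.roles_layer Φ N0 Q μ α ρ hΦ) ?_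
    refine trace_GM s σ hs l (trc Φ N0 μ α ρ) M hM hc ?_
    rw [tot_trc]
    exact ht
  · exact GM.mono (UStageX.roles_after l Φ N0 Q μ α ρ) h1

end Pool.Agent.H21.NX
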