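import Pool.Agent.H21.NX.VRun
import Pool.Agent.H21.NX.Final

/-!
# Module VCore: exactness, every dimension
-/

namespace Pool.Agent.H21.NX

open Finset Pool.Agent.H18.Ex

theorem vcore {s M D0 d : ℕ} (h : VNum s M D0) (hd : D0 + M ≤ d)
    (hbig : 2 * ((a0 s M D0 d + M * GG s M) * (M * ell (s + 1) M)) ≤ ell s (d + 1))
    (he : 2 * M * ((d + 1) * (WW s M + ell s M) + base s M D0) ≤ ell s (d + 2 - M))
    (S : Multiset ℕ) (hS : ∀ m ∈ S, m ≤ M) (hT : ell (s + 1) (d + 1) ≤ tot (s + 1) S) :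
    GM (Sx (Fin (s + 2)) d) (S.map Kind.free) := by
  have hs := h.s1
  have hM := h.hM
  have hF1 := h.F1
  have hE1 := h.E1
  have hEF := h.EF
  have hED := ell_le_succ s (d + 1) hs
  have hpos : 1 ≤ ell s (d + 1) := ell_pos _ (by omega)
  -- a sub-multiset of nearly the right length
  obtain ⟨R1, hR1, hR1a, hR1b⟩ := greedy (s + 1) M 0 (ell (s + 1) (d + 1)) (Nat.zero_le _)
    (S.filter (1 ≤ ·)) (fun m hm => hS m (Multiset.mem_filter.1 hm).1)
    (by rw [tot_filter_pos (s + 1) (by omega), Nat.zero_add]; exact hT)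
  rw [Nat.zero_add] at hR1a hR1b
  have hR1m : ∀ m ∈ R1, 1 ≤ m ∧ m ≤ M := fun m hm => by
    have h1 := Multiset.mem_filter.1 (Multiset.mem_of_le hR1 hm)
    exact ⟨h1.2, hS m h1.1⟩
  have hle : R1 ≤ S := le_trans hR1 (Multiset.filter_le _ _)
  refine GM.mono (Multiset.map_le_map hle) ?_
  -- a frequent multiplicity
  set κ := a0 s M D0 d + M * GG s M with hκ
  obtain ⟨μ, hμ1, hμM, hμ⟩ := exists_count (s + 1) M (κ * ell (s + 1) M) R1 (by omega)
    (fun m hm => (hR1m m hm).2) (by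
      have e1 : 2 * (M * (κ * ell (s + 1) M)) ≤ ell s (d + 1) := by
        calc 2 * (M * (κ * ell (s + 1) M)) = 2 * (κ * (M * ell (s + 1) M)) := by ring
          _ ≤ _ := hbig
      omega)
  have hcount : κ ≤ R1.count μ := by
    have e1 : κ * ell (s + 1) M ≤ R1.count μ * ell (s + 1) M :=
      le_trans hμ (Nat.mul_le_mul_left _ (ell_mono _ hμM))
    exact Nat.le_of_mul_le_mul_right e1 hF1
  rw [Multiset.le_count_iff_replicate_le] at hcount
  obtain ⟨R2, hR2⟩ := Multiset.le_iff_exists_add.1 hcount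
  have hR2m : ∀ m ∈ R2, 1 ≤ m ∧ m ≤ M := fun m hm => hR1m m (by
    rw [hR2]
    exact Multiset.mem_add.2 (Or.inr hm))
  have htot : tot (s + 1) R1 = κ * ell (s + 1) μ + tot (s + 1) R2 := by
    rw [hR2, tot_add, tot_replicate]
  rcases Nat.eq_or_lt_of_le hμ1 with hμe | hμ2
  · -- many simple points
    subst hμe
    rw [ell_one, Nat.mul_one] at htot
    have hκ2 : ell (s + 1) M + ell (s + 1) M ^ 2 ≤ κ := by
      have e1 : ell s D0 ≤ ell (s + 1) D0 := ell_le_succ s D0 hs
      have e2 := h.room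
      have e3 : ell (s + 1) M ^ 2 ≤ 16 * M * ell (s + 1) M ^ 3 := by
        calc ell (s + 1) M ^ 2 = 1 * (ell (s + 1) M ^ 2 * 1) := by ring
          _ ≤ (16 * M) * (ell (s + 1) M ^ 2 * ell (s + 1) M) :=
              Nat.mul_le_mul (by omega) (Nat.mul_le_mul_left _ hF1)
          _ = _ := by ring
      have e4 : ell (s + 1) M + ell (s + 1) D0 ≤ a0 s M D0 d := by
        unfold a0
        omega
      omega
    rw [add_comm] at hR2
    have hmem : ∀ t ∈ R1, t ≤ M := fun t ht => (hR1m t ht).2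
    refine window_GM (s + 1) d (by omega) R1 M hmem ?_ hR1a
    intro t ht ht2
    have htM := hmem t ht
    rw [hR2]
    exact window_cond' (s + 1) (by omega) R2 κ M _ (by omega) t ht2 htM
  · -- the batch
    have hEμ : ell s μ ≤ ell (s + 1) M := le_trans (ell_mono _ hμM) hEF
    have hx : 2 * (tl s 0 + a0 s M D0 d * ell s μ) ≤ ell s (d + 1) := by
      refine le_trans ?_ hbig
      rw [show tl s 0 = 0 from rfl, Nat.zero_add]
      refine Nat.mul_le_mul_left _ (Nat.mul_le_mul (Nat.le_add_right _ _) ?_)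
      calc ell s μ ≤ 1 * ell (s + 1) M := by rw [Nat.one_mul]; exact hEμ
        _ ≤ _ := Nat.mul_le_mul_right _ hM
    have hxV : 2 * M * (tl s 0 + a0 s M D0 d * ell s μ) ≤ (2 * M - 1) * ell s (d + 1) := by
      calc 2 * M * (tl s 0 + a0 s M D0 d * ell s μ) =
          M * (2 * (tl s 0 + a0 s M D0 d * ell s μ)) := by ring
        _ ≤ M * ell s (d + 1) := Nat.mul_le_mul_left _ hx
        _ ≤ _ := Nat.mul_le_mul_right _ (by omega)
    have hGG : (μ - 1) * GG s M + GG s M = μ * GG s M := by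
      obtain ⟨j, rfl⟩ : ∃ j, μ = j + 1 := ⟨μ - 1, by omega⟩
      rw [Nat.add_sub_cancel]
      ring
    have hGG2 : μ * GG s M ≤ M * GG s M := Nat.mul_le_mul_right _ hμM
    have hOK0 : OKF M (0 : Multiset (ℕ × ℕ)) := fun x hx => absurd hx (Multiset.notMem_zero x)
    have hκm : κ * ell (s + 1) μ =
        a0 s M D0 d * ell (s + 1) μ + M * GG s M * ell (s + 1) μ := by
      rw [hκ]
      ring
    obtain ⟨N0, Q, ρ, hQ, hρ, hsum, hload, himp⟩ := ustepV h (0 : Fin (s + 2)) (d + 1) μ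
      (a0 s M D0 d) (by omega) hμ2 hμM 0 R2 (M * GG s M) hOK0 hR2m hxV (by omega) le_rfl (by
        rw [show fl s 0 = 0 from rfl]
        omega)
    rw [hR2, Multiset.map_add, Multiset.map_replicate]
    rw [Nat.add_sub_cancel, show fk (0 : Fin (s + 2)) 0 = 0 from rfl, Multiset.zero_add,
      add_comm (Multiset.map _ _)] at himp
    refine himp ?_
    have hN0 : ∀ m ∈ N0, 1 ≤ m ∧ m ≤ M := fun m hm => hR2m m (by
      rw [hQ]
      exact Multiset.mem_add.2 (Or.inl hm))
    have hQm : ∀ m ∈ Q, 1 ≤ m ∧ m ≤ M := fun m hm => hR2m m (by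
      rw [hQ]
      exact Multiset.mem_add.2 (Or.inr hm))
    have hfl := fl_nxt (α := a0 s M D0 d) (ρ := ρ) (μ := μ) (N0 := N0) s hs hOK0
      (fun m hm => (hN0 m hm).1) (by omega) (Or.inr hμ2)
    rw [show fl s (0 : Multiset (ℕ × ℕ)) = 0 from rfl] at hfl
    have hF : ell (s + 1) (d + 1) = ell (s + 1) d + ell s (d + 1) := ell_succ s d
    have htotR : tot (s + 1) R2 = tot (s + 1) N0 + tot (s + 1) Q := by rw [hQ, tot_add]
    have hgρ : M * GG s M * ell (s + 1) μ =
        ρ * ell (s + 1) μ + (M * GG s M - ρ) * ell (s + 1) μ := by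
      rw [← Nat.add_mul]
      congr 1
      omega
    rw [Nat.add_mul, Nat.zero_add] at hfl
    have hrun := urunV h (0 : Fin (s + 2)) (d := d) (μ := μ) (a := a0 s M D0 d) hμ2 hμM hd le_rfl
      he (μ - 1) (by omega) (by omega) (nxt 0 N0 μ (a0 s M D0 d) ρ) Q (M * GG s M - ρ) ?_
      (count_nxt_start hμ2) hQm ?_ ?_ ?_ ?_ ?_
    · rw [show d + 1 - 2 = d - μ + (μ - 1) by omega]
      exact hrun
    · exact OKF_nxt hOK0 (fun m hm => (hN0 m hm).2) (Nat.le_succ _) (by omega) (Or.inr hμM)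
    · rw [show d - μ + 1 + (μ - 1) = d by omega]
      omega
    · rw [show d - μ + 1 + (μ - 1) = d by omega]
      omega
    · rw [show d - μ + 1 + (μ - 1) = d by omega]
      rwa [Nat.add_sub_cancel] at hload
    · omega
    · omega

end Pool.Agent.H21.NX
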