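import Pool.Agent.H21.NX.VEll
import Pool.Agent.H21.NX.UNum

/-!
# Module VCrit: a numerical criterion for exactness
-/

namespace Pool.Agent.H21.NX

open Finset Pool.Agent.H18.Ex

theorem end_step (s M D0 d : ℕ) (hs : 1 ≤ s) (hM : 1 ≤ M) (hd : M ≤ d + 1)
    (h : 2 * M * ((d + 1) * (WW s M + ell s M) + base s M D0) ≤ ell s (d + 2 - M)) :
    2 * M * ((d + 1 + 1) * (WW s M + ell s M) + base s M D0) ≤ ell s (d + 1 + 2 - M) := by
  obtain ⟨y, hy⟩ : ∃ y, d + 2 - M = y := ⟨_, rfl⟩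
  have hy1 : 1 ≤ y := by omega
  have hyd : y ≤ d + 1 := by omega
  rw [hy] at h
  rw [show d + 1 + 2 - M = y + 1 by omega]
  have hrel : ell s y * (y + s) = ell s (y + 1) * y := ell_mul_add s y hs
  refine Nat.le_of_mul_le_mul_right ?_ (show 0 < y from hy1)
  rw [← hrel]
  obtain ⟨W, hW⟩ : ∃ W, WW s M + ell s M = W := ⟨_, rfl⟩
  rw [hW] at h ⊢
  have h1 : 2 * M * (W * y) ≤ ell s y := by
    refine le_trans ?_ h
    refine Nat.mul_le_mul_left _ (le_trans ?_ (Nat.le_add_right _ _))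
    rw [mul_comm]
    exact Nat.mul_le_mul_right _ hyd
  calc 2 * M * ((d + 1 + 1) * W + base s M D0) * y =
      2 * M * ((d + 1) * W + base s M D0) * y + 2 * M * (W * y) * 1 := by ring
    _ ≤ ell s y * y + ell s y * s :=
        Nat.add_le_add (Nat.mul_le_mul_right _ h) (Nat.mul_le_mul h1 hs)
    _ = _ := by ring

/-- Exactness in all degrees from `d0` on. -/
theorem exact_from {s M D0 d0 : ℕ} (h : VNum s M D0) (hd0 : D0 + M ≤ d0)
    (hB : 2 * ((a0 s M D0 d0 + M * GG s M) * (M * ell (s + 1) M)) ≤ ell s (d0 + 1))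
    (hE : 2 * M * ((d0 + 1) * (WW s M + ell s M) + base s M D0) ≤ ell s (d0 + 2 - M)) :
    ∀ d, d0 ≤ d → ∀ (k : ℕ) (m : Fin k → ℕ), (∀ i, m i ≤ M) →
    Pool.Agent.H18.Fat.ForGeneralPoints (s + 1) k fun p =>
      Pool.Agent.H18.Fat.ImposesMaximalConditions (s + 1) d p m := by
  intro d hd k m hm
  have hM := h.hM
  have hs := h.s1
  have hB' : 2 * ((a0 s M D0 d + M * GG s M) * (M * ell (s + 1) M)) ≤ ell s (d + 1) :=
    Nat.le_induction hB (fun d _ ih => big_step s M D0 d hs ih) d hd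
  have hE' : 2 * M * ((d + 1) * (WW s M + ell s M) + base s M D0) ≤ ell s (d + 2 - M) :=
    Nat.le_induction hE (fun d hd ih => end_step s M D0 d hs hM (by omega) ih) d hd
  refine max_of_GM (s + 1) k d (by omega) m ?_
  rw [← aug_map]
  exact vcore h (by omega) hB' hE' (aug (s + 1) d m) (mem_aug hM hm) (le_tot_aug _ _ m)

/-- The criterion. -/
theorem crit {s M D0 d0 : ℕ} (hs : 1 ≤ s) (hM : 1 ≤ M) (hD : 16 * M ≤ D0) (hd0 : D0 + M ≤ d0)
    (h1 : 16 * M ^ 4 * ell s M ^ 3 ≤ ell s D0)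
    (h2 : 16 * M ^ 2 * d0 * ell s M ^ 3 ≤ ell s (d0 + 2 - M))
    (h3 : 8 * M ^ 2 * D0 * (ell s M * ell s D0) ≤ ell s (d0 + 2 - M)) :
    ∀ d, d0 ≤ d → ∀ (k : ℕ) (m : Fin k → ℕ), (∀ i, m i ≤ M) →
    Pool.Agent.H18.Fat.ForGeneralPoints (s + 1) k fun p =>
      Pool.Agent.H18.Fat.ImposesMaximalConditions (s + 1) d p m := by
  obtain ⟨E, hE⟩ : ∃ E, ell s M = E := ⟨_, rfl⟩
  obtain ⟨F, hF⟩ : ∃ F, ell (s + 1) M = F := ⟨_, rfl⟩
  obtain ⟨E0, hE0⟩ : ∃ E0, ell s D0 = E0 := ⟨_, rfl⟩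
  obtain ⟨F0, hF0⟩ : ∃ F0, ell (s + 1) D0 = F0 := ⟨_, rfl⟩
  have hEpos : 1 ≤ E := by rw [← hE]; exact ell_pos _ hM
  have hE0pos : 1 ≤ E0 := by rw [← hE0]; exact ell_pos _ (by omega)
  have hFE : F ≤ M * E := by rw [← hF, ← hE]; exact ell_le_mul s M
  have hFE0 : F0 ≤ D0 * E0 := by rw [← hF0, ← hE0]; exact ell_le_mul s D0
  rw [hE, hE0] at h3
  rw [hE] at h1 h2
  rw [hE0] at h1
  have hG : GG s M ≤ 2 * E ^ 2 := by
    unfold GG
    rw [hE]
    nlinarith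
  have hGE : GG s M * E + E ≤ 3 * E ^ 3 := by
    have e1 : GG s M * E ≤ 2 * E ^ 2 * E := Nat.mul_le_mul_right _ hG
    have e2 : E ≤ E ^ 3 := by
      calc E = E ^ 1 := (pow_one _).symm
        _ ≤ _ := Nat.pow_le_pow_right hEpos (by omega)
    calc GG s M * E + E ≤ 2 * E ^ 2 * E + E ^ 3 := Nat.add_le_add e1 e2
      _ = _ := by ring
  have hE23 : E ^ 2 ≤ E ^ 3 := Nat.pow_le_pow_right hEpos (by omega)
  refine exact_from (D0 := D0) (d0 := d0) ⟨hM, hs, hD, ?_⟩ hd0 ?_ ?_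
  · rw [hF, hE0]
    refine le_trans ?_ h1
    calc 16 * M * F ^ 3 ≤ 16 * M * (M * E) ^ 3 :=
          Nat.mul_le_mul_left _ (Nat.pow_le_pow_left hFE 3)
      _ = _ := by ring
  · have e0 : a0 s M D0 d0 + M * GG s M ≤ 3 * d0 * E ^ 2 + D0 * E0 := by
      unfold a0
      rw [hF, hE, hF0]
      have e1 : (d0 + 1) * GG s M ≤ (d0 + 1) * (2 * E ^ 2) := Nat.mul_le_mul_left _ hG
      have e2 : M * GG s M ≤ M * (2 * E ^ 2) := Nat.mul_le_mul_left _ hG
      have e3 : F ≤ M * E ^ 2 := by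
        refine le_trans hFE (Nat.mul_le_mul_left _ ?_)
        nlinarith
      have e4 : (2 * (d0 + 1) + M + 1 + 2 * M) * E ^ 2 ≤ (3 * d0) * E ^ 2 :=
        Nat.mul_le_mul_right _ (by omega)
      have e5 : (2 * (d0 + 1) + M + 1 + 2 * M) * E ^ 2 = (d0 + 1) * (2 * E ^ 2) + M * E ^ 2 +
        E ^ 2 + M * (2 * E ^ 2) := by ring
      omega
    have e1 : ell s (d0 + 2 - M) ≤ ell s (d0 + 1) := ell_mono _ (by omega)
    refine le_trans ?_ e1
    rw [hF]
    have e2 : 2 * (2 * ((a0 s M D0 d0 + M * GG s M) * (M * F))) ≤ 2 * ell s (d0 + 2 - M) := by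
      calc 2 * (2 * ((a0 s M D0 d0 + M * GG s M) * (M * F))) ≤
          2 * (2 * ((3 * d0 * E ^ 2 + D0 * E0) * (M * (M * E)))) :=
            Nat.mul_le_mul_left _ (Nat.mul_le_mul_left _ (Nat.mul_le_mul e0
              (Nat.mul_le_mul_left _ hFE)))
        _ = 12 * M ^ 2 * d0 * E ^ 3 + 4 * M ^ 2 * D0 * (E * E0) := by ring
        _ ≤ 16 * M ^ 2 * d0 * E ^ 3 + 8 * M ^ 2 * D0 * (E * E0) := by
            refine Nat.add_le_add ?_ ?_
            · exact Nat.mul_le_mul_right _ (Nat.mul_le_mul_right _ (Nat.mul_le_mul_right _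
                (by omega)))
            · exact Nat.mul_le_mul_right _ (Nat.mul_le_mul_right _ (Nat.mul_le_mul_right _
                (by omega)))
        _ ≤ ell s (d0 + 2 - M) + ell s (d0 + 2 - M) := Nat.add_le_add h2 h3
        _ = _ := by ring
    omega
  · unfold WW base
    rw [hF, hE, hE0, hF0]
    have e1 : M * E0 ≤ M * (D0 * (E * E0)) := by
      refine Nat.mul_le_mul_left _ ?_
      calc E0 = 1 * (1 * E0) := by ring
        _ ≤ D0 * (E * E0) := Nat.mul_le_mul (by omega) (Nat.mul_le_mul_right _ hEpos)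
    have e2 : F0 * F ≤ M * (D0 * (E * E0)) := by
      calc F0 * F ≤ (D0 * E0) * (M * E) := Nat.mul_le_mul hFE0 hFE
        _ = _ := by ring
    have e3 : (d0 + 1) * (GG s M * E + E) ≤ (d0 + 1) * (3 * E ^ 3) := Nat.mul_le_mul_left _ hGE
    have hM2 : M ≤ M ^ 2 := by nlinarith
    have e4 : 2 * (2 * M * ((d0 + 1) * (GG s M * E + E) + (F0 * F + M * E0))) ≤
        2 * ell s (d0 + 2 - M) := by
      calc 2 * (2 * M * ((d0 + 1) * (GG s M * E + E) + (F0 * F + M * E0))) ≤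
          2 * (2 * M * ((d0 + 1) * (3 * E ^ 3) + (M * (D0 * (E * E0)) +
            M * (D0 * (E * E0))))) :=
            Nat.mul_le_mul_left _ (Nat.mul_le_mul_left _ (Nat.add_le_add e3
              (Nat.add_le_add e2 e1)))
        _ = (12 * (d0 + 1)) * M * E ^ 3 + 8 * M ^ 2 * D0 * (E * E0) := by ring
        _ ≤ (16 * d0) * M ^ 2 * E ^ 3 + 8 * M ^ 2 * D0 * (E * E0) := by
            refine Nat.add_le_add_right (Nat.mul_le_mul_right _ (Nat.mul_le_mul ?_ hM2)) _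
            omega
        _ = 16 * M ^ 2 * d0 * E ^ 3 + 8 * M ^ 2 * D0 * (E * E0) := by ring
        _ ≤ ell s (d0 + 2 - M) + ell s (d0 + 2 - M) := Nat.add_le_add h2 h3
        _ = _ := by ring
    omega

end Pool.Agent.H21.NX
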