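import Pool.Agent.H21.NX.URun

/-!
# Module VDefs: the version for every dimension, numerical conditions
-/

namespace Pool.Agent.H21.NX

open Finset Pool.Agent.H18.Ex

/-- The numerical conditions, every dimension. -/
structure VNum (s M D0 : ℕ) : Prop where
  hM : 1 ≤ M
  s1 : 1 ≤ s
  hD : 16 * M ≤ D0
  room : 16 * M * ell (s + 1) M ^ 3 ≤ ell s D0

/-- The excess needed on the hyperplane in the overfull case. -/
def WW (s M : ℕ) : ℕ := GG s M * ell s M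

/-- The base case of the overfull peeling. -/
def base (s M D0 : ℕ) : ℕ := ell (s + 1) D0 * ell (s + 1) M + M * ell s D0

namespace VNum

variable {s M D0 : ℕ} (h : VNum s M D0)

include h

theorem F1 : 1 ≤ ell (s + 1) M := ell_pos _ h.hM

theorem E1 : 1 ≤ ell s M := ell_pos _ h.hM

theorem EF : ell s M ≤ ell (s + 1) M := ell_le_succ s M h.s1

theorem GG_le : GG s M ≤ 2 * ell (s + 1) M ^ 2 := by
  have h1 := h.E1
  have h2 := h.EF
  unfold GG
  have h3 : ell s M ^ 2 ≤ ell (s + 1) M ^ 2 := Nat.pow_le_pow_left h2 2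
  have h4 : ell s M ≤ ell (s + 1) M ^ 2 := by nlinarith
  omega

theorem roomS {S : ℕ} (hS : D0 ≤ S) : 16 * M * ell (s + 1) M ^ 3 ≤ ell s S :=
  le_trans h.room (ell_mono _ hS)

/-- `2 * M * E(M)^2 ≤ E(S)`. -/
theorem r1 {S : ℕ} (hS : D0 ≤ S) : 2 * M * ell s M ^ 2 ≤ ell s S := by
  refine le_trans ?_ (h.roomS hS)
  have h1 := h.F1
  have h2 := h.EF
  have h3 : ell s M ^ 2 ≤ ell (s + 1) M ^ 2 := Nat.pow_le_pow_left h2 2
  calc 2 * M * ell s M ^ 2 ≤ 2 * M * ell (s + 1) M ^ 2 := Nat.mul_le_mul_left _ h3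
    _ = 2 * M * (ell (s + 1) M ^ 2 * 1) := by ring
    _ ≤ 16 * M * (ell (s + 1) M ^ 2 * ell (s + 1) M) :=
        Nat.mul_le_mul (Nat.mul_le_mul_right _ (by omega)) (Nat.mul_le_mul_left _ h1)
    _ = _ := by ring

/-- `4 * M * (G * E(M)) ≤ E(S)`. -/
theorem r2 {S : ℕ} (hS : D0 ≤ S) : 4 * M * (GG s M * ell s M) ≤ ell s S := by
  refine le_trans ?_ (h.roomS hS)
  calc 4 * M * (GG s M * ell s M) ≤ 4 * M * (2 * ell (s + 1) M ^ 2 * ell (s + 1) M) :=
        Nat.mul_le_mul_left _ (Nat.mul_le_mul h.GG_le h.EF)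
    _ = 8 * M * ell (s + 1) M ^ 3 := by ring
    _ ≤ _ := Nat.mul_le_mul_right _ (Nat.mul_le_mul_right _ (by omega))

/-- `2 * M * G * E(M) ≤ E(S)`. -/
theorem r3 {S : ℕ} (hS : D0 ≤ S) : 2 * (M * GG s M * ell s M) ≤ ell s S := by
  refine le_trans ?_ (h.r2 hS)
  calc 2 * (M * GG s M * ell s M) = 2 * M * (GG s M * ell s M) := by ring
    _ ≤ _ := Nat.mul_le_mul_right _ (Nat.mul_le_mul_right _ (by omega))

/-- `4 * M * (W + E(M)) ≤ E(S)`. -/
theorem r4 {S : ℕ} (hS : D0 ≤ S) : 4 * M * (WW s M + ell s M) ≤ ell s S := by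
  refine le_trans ?_ (h.roomS hS)
  have h1 := h.F1
  have h2 := h.EF
  have h3 : ell s M ≤ ell (s + 1) M ^ 3 := by
    calc ell s M ≤ ell (s + 1) M := h2
      _ = ell (s + 1) M ^ 1 := (pow_one _).symm
      _ ≤ _ := Nat.pow_le_pow_right h1 (by omega)
  have h4 : WW s M ≤ 2 * ell (s + 1) M ^ 3 := by
    unfold WW
    calc GG s M * ell s M ≤ 2 * ell (s + 1) M ^ 2 * ell (s + 1) M :=
          Nat.mul_le_mul h.GG_le h.EF
      _ = _ := by ring
  calc 4 * M * (WW s M + ell s M) ≤ 4 * M * (2 * ell (s + 1) M ^ 3 + ell (s + 1) M ^ 3) :=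
        Nat.mul_le_mul_left _ (Nat.add_le_add h4 h3)
    _ = 12 * M * ell (s + 1) M ^ 3 := by ring
    _ ≤ _ := Nat.mul_le_mul_right _ (Nat.mul_le_mul_right _ (by omega))

/-- `E(M)^2 ≤ E(S) - load`. -/
theorem below {S x : ℕ} (hS : D0 ≤ S) (hx : 2 * M * x ≤ (2 * M - 1) * ell s S) :
    x + ell s M ^ 2 ≤ ell s S := by
  have h1 := h.r1 hS
  have hM := h.hM
  have hpos : 0 < 2 * M := by omega
  refine Nat.le_of_mul_le_mul_left ?_ hpos
  have h2 : (2 * M - 1) * ell s S + ell s S = 2 * M * ell s S := by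
    obtain ⟨K, hK⟩ : ∃ K, 2 * M = K + 1 := ⟨2 * M - 1, by omega⟩
    rw [hK, Nat.add_sub_cancel]
    ring
  calc 2 * M * (x + ell s M ^ 2) = 2 * M * x + 2 * M * ell s M ^ 2 := by ring
    _ ≤ (2 * M - 1) * ell s S + ell s S := Nat.add_le_add hx h1
    _ = _ := h2

/-- The new load. -/
theorem load {S t e : ℕ} (hS : D0 + 1 ≤ S)
    (ht : (M - 1 + s) * t ≤ (M - 1) * ell s S + (M - 1 + s) * e)
    (he : 4 * M * e ≤ ell s (S - 1)) : 2 * M * t ≤ (2 * M - 1) * ell s (S - 1) := by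
  have h1 := h.s1
  have h2 := h.hD
  have h3 := h.hM
  obtain ⟨k, rfl⟩ : ∃ k, S = k + 1 := ⟨S - 1, by omega⟩
  rw [Nat.add_sub_cancel] at he ⊢
  have hrel : ell s k * (k + s) = ell s (k + 1) * k := ell_mul_add s k h.s1
  have hk : 0 < k := by omega
  obtain ⟨x, rfl⟩ : ∃ x, M = x + 1 := ⟨M - 1, by omega⟩
  rw [Nat.add_sub_cancel] at ht
  rw [show 2 * (x + 1) - 1 = 2 * x + 1 by omega]
  have hpos : 0 < 2 * (k * (x + s)) := Nat.mul_pos (by omega) (Nat.mul_pos hk (by omega))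
  refine Nat.le_of_mul_le_mul_left ?_ hpos
  have e1 : 2 * (k * (x + s)) * (2 * (x + 1) * t) ≤
      (4 * (x + 1) * (x * (k + s)) + k * (x + s)) * ell s k := by
    calc 2 * (k * (x + s)) * (2 * (x + 1) * t) = 4 * (x + 1) * k * ((x + s) * t) := by ring
      _ ≤ 4 * (x + 1) * k * (x * ell s (k + 1) + (x + s) * e) := Nat.mul_le_mul_left _ ht
      _ = 4 * (x + 1) * x * (ell s (k + 1) * k) + k * (x + s) * (4 * (x + 1) * e) := by ring
      _ ≤ 4 * (x + 1) * x * (ell s (k + 1) * k) + k * (x + s) * ell s k :=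
          Nat.add_le_add_left (Nat.mul_le_mul_left _ he) _
      _ = 4 * (x + 1) * x * (ell s k * (k + s)) + k * (x + s) * ell s k := by rw [hrel]
      _ = _ := by ring
  have e2 : 4 * (x + 1) * (x * (k + s)) + k * (x + s) ≤ 2 * (k * (x + s)) * (2 * x + 1) := by
    obtain ⟨y, rfl⟩ : ∃ y, s = y + 1 := ⟨s - 1, by omega⟩
    obtain ⟨j, rfl⟩ : ∃ j, k = 4 * x + j := ⟨k - 4 * x, by omega⟩
    -- 3 k (x + s) ≤ 4 M s (k - x)
    have e3 : 3 * ((4 * x + j) * (x + (y + 1))) ≤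
        4 * (x + 1) * ((y + 1) * (3 * x + j)) := by
      have e4 : x + (y + 1) ≤ (x + 1) * (y + 1) := by nlinarith [Nat.zero_le (x * y)]
      calc 3 * ((4 * x + j) * (x + (y + 1))) ≤ 3 * ((4 * x + j) * ((x + 1) * (y + 1))) :=
            Nat.mul_le_mul_left _ (Nat.mul_le_mul_left _ e4)
        _ = (12 * x + 3 * j) * ((x + 1) * (y + 1)) := by ring
        _ ≤ (12 * x + 4 * j) * ((x + 1) * (y + 1)) := Nat.mul_le_mul_right _ (by omega)
        _ = _ := by ring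
    nlinarith [e3]
  calc 2 * (k * (x + s)) * (2 * (x + 1) * t) ≤
      (4 * (x + 1) * (x * (k + s)) + k * (x + s)) * ell s k := e1
    _ ≤ (2 * (k * (x + s)) * (2 * x + 1)) * ell s k := Nat.mul_le_mul_right _ e2
    _ = _ := by ring

end VNum

end Pool.Agent.H21.NX
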