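import Pool.Agent.H21.NX.VCore

/-!
# Module VEll: inequalities for the lengths
-/

namespace Pool.Agent.H21.NX

open Finset Pool.Agent.H18.Ex

/-- Multiplicativity. -/
theorem ell_mul_le (s a b : ℕ) (ha : 1 ≤ a) (hb : 1 ≤ b) (hs : 1 ≤ s) :
    ell s a * ell s b ≤ ell s (a * b) := by
  induction s, hs using Nat.le_induction with
  | base =>
    have h1 : ∀ c, ell 1 c = c := fun c => by
      unfold ell
      rw [Nat.add_sub_cancel, Nat.choose_one_right]
    rw [h1, h1, h1]
  | succ s hs ih =>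
    have h1 := ell_succ_mul s a hs
    have h2 := ell_succ_mul s b hs
    have h3 := ell_succ_mul s (a * b) hs
    have hpos : 0 < (s + 1) * (s + 1) := by positivity
    refine Nat.le_of_mul_le_mul_left ?_ hpos
    have h4 : (a + s) * (b + s) ≤ (s + 1) * (a * b + s) := by
      obtain ⟨x, rfl⟩ : ∃ x, a = x + 1 := ⟨a - 1, by omega⟩
      obtain ⟨y, rfl⟩ : ∃ y, b = y + 1 := ⟨b - 1, by omega⟩
      nlinarith [Nat.zero_le (s * (x * y))]
    calc (s + 1) * (s + 1) * (ell (s + 1) a * ell (s + 1) b) =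
        ((s + 1) * ell (s + 1) a) * ((s + 1) * ell (s + 1) b) := by ring
      _ = ((a + s) * ell s a) * ((b + s) * ell s b) := by rw [h1, h2]
      _ = ((a + s) * (b + s)) * (ell s a * ell s b) := by ring
      _ ≤ ((s + 1) * (a * b + s)) * ell s (a * b) := Nat.mul_le_mul h4 ih
      _ = (s + 1) * ((a * b + s) * ell s (a * b)) := by ring
      _ = _ := by rw [h3]; ring

/-- `x ^ 2 ≤ 2 * E(x)` for `s ≥ 2`. -/
theorem sq_le_ell (s x : ℕ) (hs : 2 ≤ s) : x ^ 2 ≤ 2 * ell s x := by
  have h1 : x ^ 2 ≤ 2 * ell 2 x := by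
    rcases Nat.eq_zero_or_pos x with h | h
    · subst h
      simp
    unfold ell
    rw [show x + 2 - 1 = x + 1 by omega, Nat.choose_two_right, Nat.add_sub_cancel]
    have : 2 * ((x + 1) * x / 2) = (x + 1) * x := by
      refine Nat.mul_div_cancel' ?_
      rw [mul_comm]
      exact (Nat.even_mul_succ_self x).two_dvd
    rw [this]
    nlinarith
  refine le_trans h1 (Nat.mul_le_mul_left _ ?_)
  induction s, hs using Nat.le_induction with
  | base => exact le_rfl
  | succ s hs ih => exact le_trans ih (ell_le_succ s x (by omega))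

theorem pow_self_le (s : ℕ) : s ^ s ≤ s.factorial * 4 ^ s := by
  have h1 := Nat.pow_sub_le_descFactorial (2 * s) s
  have h2 : (2 * s).choose s ≤ 2 ^ (2 * s) := Nat.choose_le_two_pow _ _
  rw [show 2 * s + 1 - s = s + 1 by omega] at h1
  have h3 : (s + 1) ^ s ≤ s.factorial * (2 * s).choose s := by
    rwa [Nat.descFactorial_eq_factorial_mul_choose] at h1
  calc s ^ s ≤ (s + 1) ^ s := Nat.pow_le_pow_left (by omega) _
    _ ≤ s.factorial * (2 * s).choose s := h3
    _ ≤ s.factorial * 2 ^ (2 * s) := Nat.mul_le_mul_left _ h2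
    _ = _ := by rw [pow_mul]; norm_num

theorem pow_le_ell_mul (s y : ℕ) (hs : 1 ≤ s) : y ^ s ≤ ell s (y * s) := by
  have h1 := Nat.pow_sub_le_descFactorial (y * s + s - 1) s
  rw [show y * s + s - 1 + 1 - s = y * s by omega,
    Nat.descFactorial_eq_factorial_mul_choose] at h1
  have h2 : (y * s) ^ s ≤ s.factorial * ell s (y * s) := h1
  refine Nat.le_of_mul_le_mul_left ?_ (Nat.factorial_pos s)
  calc s.factorial * y ^ s ≤ s ^ s * y ^ s := Nat.mul_le_mul_right _ (Nat.factorial_le_pow s)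
    _ = (y * s) ^ s := by rw [mul_pow, mul_comm]
    _ ≤ _ := h2

theorem ell_mul_le_pow (s t : ℕ) (ht : 1 ≤ t) : ell s (t * s) ≤ (8 * t) ^ s := by
  have h1 : s.factorial * ell s (t * s) ≤ (t * s + s - 1) ^ s := by
    unfold ell
    rw [← Nat.descFactorial_eq_factorial_mul_choose]
    exact Nat.descFactorial_le_pow _ _
  have h2 : (t * s + s - 1) ^ s ≤ (2 * t * s) ^ s := by
    refine Nat.pow_le_pow_left ?_ _
    have : 1 * s ≤ t * s := Nat.mul_le_mul_right _ ht
    have h3 : 2 * t * s = t * s + t * s := by ring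
    omega
  have h3 := pow_self_le s
  refine Nat.le_of_mul_le_mul_left ?_ (Nat.factorial_pos s)
  calc s.factorial * ell s (t * s) ≤ (2 * t * s) ^ s := le_trans h1 h2
    _ = (2 * t) ^ s * s ^ s := mul_pow _ _ _
    _ ≤ (2 * t) ^ s * (s.factorial * 4 ^ s) := Nat.mul_le_mul_left _ h3
    _ = s.factorial * ((2 * t) ^ s * 4 ^ s) := by ring
    _ = s.factorial * (8 * t) ^ s := by
        rw [← mul_pow]
        ring

/-- Submultiplicativity. -/
theorem ell_mul_ell_le (s a b : ℕ) :
    ell s (a + 1) * ell s (b + 1) ≤ (a + b).choose a * ell s (a + b + 1) := by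
  have h1 : ell s (a + b + 1) = (a + b + s).choose (a + b) := by
    unfold ell
    rw [show a + b + 1 + s - 1 = (a + b) + s by omega, Nat.choose_symm_add]
  have h2 := Nat.choose_mul (n := a + b + s) (k := a + b) (s := a) (by omega)
  rw [show a + b + s - a = b + s by omega, Nat.add_sub_cancel_left] at h2
  have h3 : ell s (b + 1) = (b + s).choose b := by
    unfold ell
    rw [show b + 1 + s - 1 = b + s by omega, Nat.choose_symm_add]
  have h4 : ell s (a + 1) ≤ (a + b + s).choose a := by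
    unfold ell
    rw [show a + 1 + s - 1 = a + s by omega, ← Nat.choose_symm_add]
    exact Nat.choose_le_choose a (by omega)
  rw [h1, mul_comm ((a + b).choose a), h2, h3]
  exact Nat.mul_le_mul_right _ h4

theorem ell_mul_ell_le_two (s a b : ℕ) (ha : 1 ≤ a) (hb : 1 ≤ b) :
    ell s a * ell s b ≤ 2 ^ (a + b) * ell s (a + b) := by
  obtain ⟨x, rfl⟩ : ∃ x, a = x + 1 := ⟨a - 1, by omega⟩
  obtain ⟨y, rfl⟩ : ∃ y, b = y + 1 := ⟨b - 1, by omega⟩
  refine le_trans (ell_mul_ell_le s x y) (Nat.mul_le_mul ?_ (ell_mono _ (by omega)))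
  exact le_trans (Nat.choose_le_two_pow _ _) (Nat.pow_le_pow_right (by omega) (by omega))

/-- Growth: `(2c)^i E(c+i) ≥ (2c+s)^i E(c)` for `i ≤ c`. -/
theorem growth (s c : ℕ) (hs : 1 ≤ s) : ∀ i, i ≤ c →
    (2 * c + s) ^ i * ell s c ≤ (2 * c) ^ i * ell s (c + i) := by
  intro i
  induction i with
  | zero => simp
  | succ i ih =>
    intro hi
    have h1 := ih (by omega)
    have hrel := ell_mul_add s (c + i) hs
    rcases Nat.eq_zero_or_pos (c + i) with h0 | h0
    · omega
    have h2 : (2 * c + s) * ell s (c + i) ≤ 2 * c * ell s (c + (i + 1)) := by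
      refine Nat.le_of_mul_le_mul_right ?_ h0
      rw [← add_assoc]
      calc (2 * c + s) * ell s (c + i) * (c + i) =
          ((2 * c + s) * (c + i)) * ell s (c + i) := by ring
        _ ≤ (2 * c * (c + i + s)) * ell s (c + i) := by
            refine Nat.mul_le_mul_right _ ?_
            have : s * (c + i) ≤ s * (2 * c) := Nat.mul_le_mul_left _ (by omega)
            nlinarith
        _ = 2 * c * (ell s (c + i) * (c + i + s)) := by ring
        _ = 2 * c * (ell s (c + i + 1) * (c + i)) := by rw [hrel]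
        _ = _ := by ring
    calc (2 * c + s) ^ (i + 1) * ell s c = (2 * c + s) * ((2 * c + s) ^ i * ell s c) := by ring
      _ ≤ (2 * c + s) * ((2 * c) ^ i * ell s (c + i)) := Nat.mul_le_mul_left _ h1
      _ = (2 * c) ^ i * ((2 * c + s) * ell s (c + i)) := by ring
      _ ≤ (2 * c) ^ i * (2 * c * ell s (c + (i + 1))) := Nat.mul_le_mul_left _ h2
      _ = _ := by ring

theorem bernoulli_nat (q : ℕ) (h : 0 < q) : 3 * (2 * q) ^ q ≤ 2 * (2 * q + 1) ^ q := by
  have h1 : (1 : ℝ) + (q : ℝ) * (1 / (2 * q)) ≤ (1 + 1 / (2 * q)) ^ q :=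
    one_add_mul_le_pow (by
      have : (0 : ℝ) ≤ 1 / (2 * q) := by positivity
      linarith) q
  have hq : (0 : ℝ) < q := by exact_mod_cast h
  have h2 : (q : ℝ) * (1 / (2 * q)) = 1 / 2 := by field_simp
  rw [h2] at h1
  have h3 : (1 + 1 / (2 * (q : ℝ))) ^ q * (2 * q) ^ q = (2 * q + 1) ^ q := by
    rw [← mul_pow]
    congr 1
    field_simp
  have h4 : (3 : ℝ) * (2 * q) ^ q ≤ 2 * (2 * q + 1) ^ q := by
    rw [← h3]
    have h5 : (0 : ℝ) ≤ (2 * (q : ℝ)) ^ q := by positivity
    nlinarith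
  exact_mod_cast h4

/-- Doubling. -/
theorem doubling (s M q : ℕ) (hM : 1 ≤ M) (hs : M ≤ s) :
    3 ^ M * ell s (q * M) ≤ 2 ^ M * ell s (2 * (q * M)) := by
  have h1 := growth s (q * M) (by omega) (q * M) le_rfl
  rcases Nat.eq_zero_or_pos q with hq | hq
  · subst hq
    rw [Nat.zero_mul, ell_zero (by omega), Nat.mul_zero]
    exact Nat.zero_le _
  have hpos : 0 < (2 * (q * M)) ^ (q * M) := by positivity
  refine Nat.le_of_mul_le_mul_left ?_ hpos
  have h2 : (2 * (q * M)) ^ (q * M) * 3 ^ M ≤ 2 ^ M * (2 * (q * M) + s) ^ (q * M) := by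
    calc (2 * (q * M)) ^ (q * M) * 3 ^ M = M ^ (q * M) * (3 * (2 * q) ^ q) ^ M := by
          rw [mul_pow 3, ← pow_mul, show 2 * (q * M) = (2 * q) * M by ring, mul_pow]
          ring
      _ ≤ M ^ (q * M) * (2 * (2 * q + 1) ^ q) ^ M :=
          Nat.mul_le_mul_left _ (Nat.pow_le_pow_left (bernoulli_nat q hq) _)
      _ = 2 ^ M * ((2 * q + 1) * M) ^ (q * M) := by
          rw [mul_pow 2, ← pow_mul, mul_pow (2 * q + 1)]
          ring
      _ ≤ _ := by
          refine Nat.mul_le_mul_left _ (Nat.pow_le_pow_left ?_ _)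
          nlinarith
  calc (2 * (q * M)) ^ (q * M) * (3 ^ M * ell s (q * M)) =
      ((2 * (q * M)) ^ (q * M) * 3 ^ M) * ell s (q * M) := by ring
    _ ≤ (2 ^ M * (2 * (q * M) + s) ^ (q * M)) * ell s (q * M) := Nat.mul_le_mul_right _ h2
    _ = 2 ^ M * ((2 * (q * M) + s) ^ (q * M) * ell s (q * M)) := by ring
    _ ≤ 2 ^ M * ((2 * (q * M)) ^ (q * M) * ell s (q * M + q * M)) := Nat.mul_le_mul_left _ h1
    _ = _ := by
        rw [← two_mul (q * M)]
        ring

theorem quadrupling (s M q : ℕ) (hM : 1 ≤ M) (hs : M ≤ s) :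
    2 ^ M * ell s (q * M) ≤ ell s (4 * q * M) := by
  have h1 := doubling s M q hM hs
  have h2 := doubling s M (2 * q) hM hs
  rw [show 2 * (q * M) = 2 * q * M by ring] at h1
  rw [show 2 * (2 * q * M) = 4 * q * M by ring] at h2
  have hpos : 0 < 4 ^ M := by positivity
  refine Nat.le_of_mul_le_mul_left ?_ hpos
  calc 4 ^ M * (2 ^ M * ell s (q * M)) = 8 ^ M * ell s (q * M) := by
        rw [← mul_assoc, ← mul_pow]
        norm_num
    _ ≤ 9 ^ M * ell s (q * M) := Nat.mul_le_mul_right _ (Nat.pow_le_pow_left (by omega) _)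
    _ = 3 ^ M * (3 ^ M * ell s (q * M)) := by
        rw [← mul_assoc, ← mul_pow]
        norm_num
    _ ≤ 3 ^ M * (2 ^ M * ell s (2 * q * M)) := Nat.mul_le_mul_left _ h1
    _ = 2 ^ M * (3 ^ M * ell s (2 * q * M)) := by ring
    _ ≤ 2 ^ M * (2 ^ M * ell s (4 * q * M)) := Nat.mul_le_mul_left _ h2
    _ = _ := by
        rw [← mul_assoc, ← mul_pow]
        norm_num

theorem iter_quad (s M q : ℕ) (hM : 1 ≤ M) (hs : M ≤ s) : ∀ n,
    2 ^ (n * M) * ell s (q * M) ≤ ell s (4 ^ n * q * M) := by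
  intro n
  induction n with
  | zero => simp
  | succ n ih =>
    calc 2 ^ ((n + 1) * M) * ell s (q * M) = 2 ^ M * (2 ^ (n * M) * ell s (q * M)) := by ring
      _ ≤ 2 ^ M * ell s (4 ^ n * q * M) := Nat.mul_le_mul_left _ ih
      _ ≤ ell s (4 * (4 ^ n * q) * M) := quadrupling s M _ hM hs
      _ = _ := by
          congr 1
          ring

end Pool.Agent.H21.NX
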