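import Pool.Agent.H21.NX.VDefs
import Pool.Agent.H21.NX.Core

/-!
# Module VOver: overfull peeling
-/

namespace Pool.Agent.H21.NX

open Finset Pool.Agent.H18.Ex

/-- From the hyperplane to the layer. -/
theorem layer_GM (s d : ℕ) (l : Fin (s + 2)) (T : Multiset ℕ)
    (h : GM (Sx (Fin (s + 1)) d) (T.map Kind.free)) :
    GM ((Sx (Fin (s + 2)) d).filter fun a => a l = 0) (T.map Kind.free) := by
  obtain ⟨k, m, hm⟩ := multi_exists_fin T
  rw [← hm, Multiset.map_map] at h ⊢
  exact (GM_iff _ _).2 (GI_layer l m ((GM_iff _ _).1 h))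

/-- A Horace step, the trace being given. -/
theorem stageH (s : ℕ) (l : Fin (s + 2)) (σ : ℕ) (hσ : 1 ≤ σ)
    (Φ : Multiset (ℕ × ℕ)) (N0 Q : Multiset ℕ) (μ α ρ : ℕ) (hμ : 1 ≤ μ)
    (hΦ : ∀ x ∈ Φ, x.2 ≤ x.1)
    (hT : GM (Sx (Fin (s + 1)) σ) ((trc Φ N0 μ α ρ).map Kind.free))
    (h1 : GM (Sx (Fin (s + 2)) (σ - 1)) (fk l (nxt Φ N0 μ α ρ) + Q.map Kind.free)) :
    GM (Sx (Fin (s + 2)) σ) (fk l Φ + N0.map Kind.free +
      Multiset.replicate (α + ρ) (Kind.free μ) + Q.map Kind.free) := by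
  rw [← UStageX.roles_before l Φ N0 Q μ α ρ]
  refine GM.step (Sx (Fin (s + 2)) σ) (Sx (Fin (s + 2)) (σ - 1)) l (Sx_resid σ hσ l) μ hμ _
    ?_ ?_ ?_
  · intro k hk
    have hk' : ∃ m, k = Kind.free m := by
      unfold UStageX.roles at hk
      simp only [Multiset.mem_add, Multiset.mem_map, Multiset.mem_replicate] at hk
      rcases hk with (((⟨x, _, hx⟩ | ⟨x, _, hx⟩) | ⟨_, hx⟩) | ⟨_, hx⟩) | ⟨x, _, hx⟩
      · cases hx
      · cases hx
      · cases hx
      · cases hx
      · cases hx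
        exact ⟨x, rfl⟩
    obtain ⟨m, rfl⟩ := hk'
    trivial
  · exact GM.mono (UStageX.roles_layer Φ N0 Q μ α ρ hΦ) (layer_GM s σ l _ hT)
  · exact GM.mono (UStageX.roles_after l Φ N0 Q μ α ρ) h1

theorem fl_le_mul {B : ℕ} {Φ : Multiset (ℕ × ℕ)} (s : ℕ) (hs : 1 ≤ s) (hB : 1 ≤ B)
    (hΦ : OKF B Φ) : fl s Φ ≤ B * tl s Φ := by
  have h1 := fl_le_tl s hs hΦ
  have hpos : 0 < s + 1 := by omega
  refine Nat.le_of_mul_le_mul_left (le_trans h1 ?_) hpos
  calc (B + s) * tl s Φ ≤ ((s + 1) * B) * tl s Φ := by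
        refine Nat.mul_le_mul_right _ ?_
        obtain ⟨b, rfl⟩ : ∃ b, B = b + 1 := ⟨B - 1, by omega⟩
        nlinarith [Nat.zero_le (s * b)]
    _ = _ := by ring

theorem tot_le_card (n M : ℕ) (T : Multiset ℕ) :
    (∀ m ∈ T, m ≤ M) → tot n T ≤ Multiset.card T * ell n M := by
  induction T using Multiset.induction_on with
  | empty => exact fun _ => Nat.zero_le _
  | cons a T ih =>
    intro hT
    have h3 := ih fun m hm => hT m (Multiset.mem_cons_of_mem hm)
    have h4 := ell_mono n (hT a (Multiset.mem_cons_self _ _))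
    unfold tot at h3 ⊢
    rw [Multiset.map_cons, Multiset.sum_cons, Multiset.card_cons, Nat.add_mul, Nat.one_mul]
    omega

/-- Overfull conditions kill everything. -/
theorem over_peel {s M D0 : ℕ} (h : VNum s M D0) (l : Fin (s + 2)) :
    ∀ S, D0 ≤ S → ∀ (Φ : Multiset (ℕ × ℕ)) (R : Multiset ℕ), OKF M Φ →
      (∀ m ∈ R, 1 ≤ m ∧ m ≤ M) → 2 * M * tl s Φ ≤ (2 * M - 1) * ell s S →
      ell (s + 1) S + S * (WW s M + ell s M) + base s M D0 ≤ fl s Φ + tot (s + 1) R →
      GM (Sx (Fin (s + 2)) (S - 1)) (fk l Φ + R.map Kind.free) := by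
  have hs := h.s1
  have hM := h.hM
  have hDM := h.hD
  have hE1 := h.E1
  have hF1 := h.F1
  intro S hS
  induction S, hS using Nat.le_induction with
  | base =>
    intro Φ R hΦ hR hload hT
    have h1 := fl_le_mul s hs hM hΦ
    have h2 : tl s Φ ≤ ell s D0 := by
      have := h.below le_rfl hload
      omega
    have h3 : fl s Φ ≤ M * ell s D0 := le_trans h1 (Nat.mul_le_mul_left _ h2)
    have h4 : ell (s + 1) D0 * ell (s + 1) M ≤ tot (s + 1) R := by
      unfold base at hT
      omega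
    have h5 := tot_le_card (s + 1) M R fun m hm => (hR m hm).2
    have h6 : ell (s + 1) D0 ≤ Multiset.card R :=
      Nat.le_of_mul_le_mul_right (le_trans h4 h5) hF1
    rw [add_comm (fk l Φ)]
    refine GM.of_card _ _ _ (fun m hm => (hR m hm).1) ?_
    rw [card_Sx (s + 1) (D0 - 1), Nat.sub_add_cancel (by omega)]
    exact h6
  | succ S hS ih =>
    intro Φ R hΦ hR hload hT
    have htl := h.below (S := S + 1) (by omega) hload
    have hfl : (s + 1) * fl s Φ ≤ (M + s) * tl s Φ := fl_le_tl s hs hΦ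
    have hto : (s + 1) * tot (s + 1) R ≤ (M + s) * tot s R :=
      tot_succ_le s hs fun m hm => (hR m hm).2
    have hmul : (S + 1 + s) * ell s (S + 1) = (s + 1) * ell (s + 1) (S + 1) :=
      ell_succ_mul s (S + 1) hs
    have hfit : ell s (S + 1) + WW s M ≤ tl s Φ + tot s R := by
      by_contra hcon
      rw [not_le] at hcon
      have e1 : (M + s) * (tl s Φ + tot s R + 1) ≤ (M + s) * (ell s (S + 1) + WW s M) :=
        Nat.mul_le_mul_left _ hcon
      have e2 : (M + s) * ell s (S + 1) ≤ (s + 1) * ell (s + 1) (S + 1) := by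
        rw [← hmul]
        exact Nat.mul_le_mul_right _ (by omega)
      have e3 : (M + s) * WW s M ≤ (s + 1) * ((S + 1) * (WW s M + ell s M)) := by
        calc (M + s) * WW s M ≤ ((s + 1) * (S + 1)) * (WW s M + ell s M) := by
              refine Nat.mul_le_mul ?_ (Nat.le_add_right _ _)
              have : M ≤ S := by omega
              nlinarith [Nat.zero_le (s * S)]
          _ = _ := by ring
      have e4 : (s + 1) * (ell (s + 1) (S + 1) + (S + 1) * (WW s M + ell s M) +
          base s M D0) ≤ (s + 1) * (fl s Φ + tot (s + 1) R) := Nat.mul_le_mul_left _ hT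
      have e5 : (M + s) * (tl s Φ + tot s R + 1) =
          (M + s) * tl s Φ + (M + s) * tot s R + (M + s) := by ring
      have e6 : (s + 1) * (ell (s + 1) (S + 1) + (S + 1) * (WW s M + ell s M) +
          base s M D0) = (s + 1) * ell (s + 1) (S + 1) +
            (s + 1) * ((S + 1) * (WW s M + ell s M)) + (s + 1) * base s M D0 := by ring
      have e7 : (s + 1) * (fl s Φ + tot (s + 1) R) =
          (s + 1) * fl s Φ + (s + 1) * tot (s + 1) R := by ring
      have e8 : (M + s) * (ell s (S + 1) + WW s M) =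
          (M + s) * ell s (S + 1) + (M + s) * WW s M := by ring
      omega
    obtain ⟨N0, hN0R, hN1, hN2⟩ := greedy s M (tl s Φ) (ell s (S + 1) + WW s M)
      (by omega) R (fun m hm => (hR m hm).2) hfit
    obtain ⟨Q, hQ⟩ := Multiset.le_iff_exists_add.1 hN0R
    have hN0 : ∀ m ∈ N0, 1 ≤ m ∧ m ≤ M := fun m hm => hR m (Multiset.mem_of_le hN0R hm)
    have hQm : ∀ m ∈ Q, 1 ≤ m ∧ m ≤ M := fun m hm => hR m (by
      rw [hQ]
      exact Multiset.mem_add.2 (Or.inr hm))
    have htrc : trc Φ N0 1 0 0 = Φ.map Prod.fst + N0 := by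
      unfold trc
      rw [Multiset.replicate_zero, add_zero, add_zero]
    have htot1 : tot s (Φ.map Prod.fst + N0) = tl s Φ + tot s N0 := by
      rw [tot_add]
      congr 1
      unfold tot tl
      rw [Multiset.map_map]
      rfl
    have hmem : ∀ m ∈ Φ.map Prod.fst + N0, 1 ≤ m ∧ m ≤ M := by
      intro t ht
      rcases Multiset.mem_add.1 ht with ht | ht
      · obtain ⟨x, hx, rfl⟩ := Multiset.mem_map.1 ht
        have := hΦ x hx
        omega
      · exact hN0 t ht
    have hstep := stageH s l S (by omega) Φ N0 Q 1 0 0 le_rfl (fun x hx => (hΦ x hx).2.2.1)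
      (by
        rw [htrc]
        refine over_GM s S M hs _ hmem ?_ ?_
        · omega
        · rw [htot1]
          exact hN1) ?_
    · rw [Multiset.replicate_zero, add_zero] at hstep
      rw [hQ, Multiset.map_add, Nat.add_sub_cancel, ← add_assoc]
      exact hstep
    · -- the next state
      have hfl' := fl_nxt (α := 0) (ρ := 0) (μ := 1) (N0 := N0) s hs hΦ
        (fun m hm => (hN0 m hm).1) le_rfl (Or.inl rfl)
      have hF : ell (s + 1) (S + 1) = ell (s + 1) S + ell s (S + 1) := ell_succ s S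
      have htotR : tot (s + 1) R = tot (s + 1) N0 + tot (s + 1) Q := by rw [hQ, tot_add]
      have hSW : (S + 1) * (WW s M + ell s M) = S * (WW s M + ell s M) + (WW s M + ell s M) := by
        ring
      refine ih (nxt Φ N0 1 0 0) Q ?_ hQm ?_ ?_
      · exact OKF_nxt hΦ (fun m hm => (hN0 m hm).2) (Nat.le_succ _) (by omega) (Or.inl rfl)
      · have htl' := tl_nxt (α := 0) (ρ := 0) (μ := 1) (N0 := N0) s (M - 1) hs hΦ
          (fun m hm => (hN0 m hm).2) (by omega) (by omega)
        have hl := h.load (S := S + 1) (t := tl s (nxt Φ N0 1 0 0)) (e := WW s M + ell s M)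
          (by omega) ?_ (by rw [Nat.add_sub_cancel]; exact h.r4 hS)
        · rwa [Nat.add_sub_cancel] at hl
        · refine le_trans htl' ?_
          rw [Nat.zero_mul, Nat.mul_zero, Nat.add_zero, Nat.add_zero]
          calc (M - 1) * (tl s Φ + tot s N0) ≤
              (M - 1) * (ell s (S + 1) + (WW s M + ell s M)) :=
                Nat.mul_le_mul_left _ (by omega)
            _ = (M - 1) * ell s (S + 1) + (M - 1) * (WW s M + ell s M) := by ring
            _ ≤ _ := Nat.add_le_add_left (Nat.mul_le_mul_right _ (by omega)) _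
      · simp only [Nat.zero_mul, Nat.add_zero] at hfl'
        omega

end Pool.Agent.H21.NX
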