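import Pool.Agent.H21.NX.VOver

/-!
# Module VPeel: peeling with many free simple points, arbitrarily many steps
-/

namespace Pool.Agent.H21.NX

open Finset Pool.Agent.H18.Ex

theorem peel_longV {s M D0 : ℕ} (h : VNum s M D0) (l : Fin (s + 2)) (X : ℕ) :
    ∀ (S : ℕ) (Φ : Multiset (ℕ × ℕ)) (R : Multiset ℕ) (p : ℕ), OKF M Φ →
      (∀ m ∈ R, 1 ≤ m ∧ m ≤ M) →
      ell (s + 1) S ≤ fl s Φ + tot (s + 1) R + p →
      fl s Φ + tot (s + 1) R + p ≤ ell (s + 1) S + X →
      2 * M * tl s Φ ≤ (2 * M - 1) * ell s S →
      S * GG s M + X + ell s M ^ 2 + ell (s + 1) D0 ≤ p →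
      GM (Sx (Fin (s + 2)) (S - 1)) (fk l Φ + R.map Kind.free +
        Multiset.replicate p (Kind.free 1)) := by
  have hs := h.s1
  have hE1 := h.E1
  have hM := h.hM
  have hDM := h.hD
  intro S
  induction S with
  | zero =>
    intro Φ R p _ _ _ hT2 _ hp
    exfalso
    have h1 : ell (s + 1) 0 = 0 := ell_zero (by omega)
    have h2 : 1 ≤ ell s M ^ 2 := Nat.one_le_pow _ _ hE1
    omega
  | succ S ih =>
    intro Φ R p hΦ hR hT1 hT2 hload hp
    have hE2 : 1 ≤ ell s M ^ 2 := Nat.one_le_pow _ _ hE1
    -- the degree is large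
    have hSD : D0 + 1 ≤ S + 1 := by
      by_contra hcon
      have h1 : ell (s + 1) (S + 1) ≤ ell (s + 1) D0 := ell_mono _ (by omega)
      omega
    by_cases hA : tl s Φ + tot s R + ell s M ^ 2 ≤ ell s (S + 1)
    · exact peel_all s hs l M (S + 1) Φ R p hΦ hR (by omega) (by omega) hA hT1
    · have hr1 := h.below (S := S + 1) (by omega) hload
      obtain ⟨N0, hN0R, hN1, hN2⟩ := greedy_below s M (tl s Φ) (ell s (S + 1) - ell s M ^ 2)
        (by omega) R (fun m hm => (hR m hm).2) (by omega)
      obtain ⟨Q, hQ⟩ := Multiset.le_iff_exists_add.1 hN0R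
      have hN0 : ∀ m ∈ N0, 1 ≤ m ∧ m ≤ M := fun m hm => hR m (Multiset.mem_of_le hN0R hm)
      have hQm : ∀ m ∈ Q, 1 ≤ m ∧ m ≤ M := fun m hm => hR m (by
        rw [hQ]
        exact Multiset.mem_add.2 (Or.inr hm))
      obtain ⟨q, hq⟩ : ∃ q, q = ell s (S + 1) - tl s Φ - tot s N0 := ⟨_, rfl⟩
      have hqsum : tl s Φ + tot s N0 + q = ell s (S + 1) := by omega
      have hq1 : ell s M ^ 2 ≤ q := by omega
      have hq2 : q ≤ GG s M := by
        unfold GG
        omega
      have hSG : (S + 1) * GG s M = S * GG s M + GG s M := by ring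
      have hqp : q ≤ p := by
        omega
      have htrc : trc Φ N0 1 q 0 = (Φ.map Prod.fst + N0) + Multiset.replicate q 1 := by
        unfold trc
        rw [Multiset.replicate_zero, add_zero]
      have hT1M : ∀ t ∈ Φ.map Prod.fst + N0, t ≤ M := by
        intro t ht
        rcases Multiset.mem_add.1 ht with ht | ht
        · obtain ⟨x, hx, rfl⟩ := Multiset.mem_map.1 ht
          exact (hΦ x hx).2.2.2
        · exact (hN0 t ht).2
      have htM : ∀ t ∈ trc Φ N0 1 q 0, t ≤ M := by
        intro t ht
        rw [htrc] at ht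
        rcases Multiset.mem_add.1 ht with ht | ht
        · exact hT1M t ht
        · rw [Multiset.eq_of_mem_replicate ht]
          exact hM
      have htot1 : tot s (Φ.map Prod.fst + N0) = tl s Φ + tot s N0 := by
        rw [tot_add]
        congr 1
        unfold tot tl
        rw [Multiset.map_map]
        rfl
      have hstep := stageQ s hs l S (by omega) Φ N0 (Q + Multiset.replicate (p - q) 1) 1 q 0 M
        le_rfl (fun x hx => (hΦ x hx).2.2.1) htM ?_ ?_ ?_
      · rw [hQ, Multiset.map_add, Nat.add_sub_cancel]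
        rw [Multiset.map_add, Multiset.map_replicate, Nat.add_zero q] at hstep
        have hpq : Multiset.replicate p (Kind.free 1 : Kind (Fin (s + 2))) =
            Multiset.replicate q (Kind.free 1) + Multiset.replicate (p - q) (Kind.free 1) := by
          rw [← Multiset.replicate_add]
          congr 1
          omega
        rw [hpq]
        have e : fk l Φ + N0.map Kind.free + Multiset.replicate q (Kind.free 1) +
            (Q.map Kind.free + Multiset.replicate (p - q) (Kind.free 1)) =
            fk l Φ + (N0.map Kind.free + Q.map Kind.free) +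
              (Multiset.replicate q (Kind.free 1) + Multiset.replicate (p - q) (Kind.free 1)) := by
          abel
        rw [e] at hstep
        exact hstep
      · intro t ht ht2
        rw [htrc]
        exact window_cond' s hs _ q M _ (by rw [htot1]; omega) t ht2 (htM t ht)
      · rw [ell_one]
        omega
      · -- the next state
        have hfl := fl_nxt (α := q) (ρ := 0) (μ := 1) (N0 := N0) s hs hΦ
          (fun m hm => (hN0 m hm).1) le_rfl (Or.inl rfl)
        have hF : ell (s + 1) (S + 1) = ell (s + 1) S + ell s (S + 1) := ell_succ s S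
        have htotR : tot (s + 1) R = tot (s + 1) N0 + tot (s + 1) Q := by rw [hQ, tot_add]
        rw [ell_one, ell_one, mul_one, mul_one, Nat.add_zero, Nat.add_zero] at hfl
        have hnext := ih (nxt Φ N0 1 q 0) Q (p - q) ?_ hQm ?_ ?_ ?_ ?_
        · rw [Multiset.map_add, Multiset.map_replicate, ← add_assoc]
          exact hnext
        · exact OKF_nxt hΦ (fun m hm => (hN0 m hm).2) (Nat.le_succ _) (by omega) (Or.inl rfl)
        · omega
        · omega
        · have htl := tl_nxt (α := q) (ρ := 0) (μ := 1) (N0 := N0) s (M - 1) hs hΦ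
            (fun m hm => (hN0 m hm).2) (by omega) (by omega)
          rw [ell_one, mul_one, Nat.zero_mul, Nat.mul_zero, Nat.add_zero, hqsum] at htl
          have hl := h.load (S := S + 1) (t := tl s (nxt Φ N0 1 q 0)) (e := 0) hSD
            (by rw [Nat.mul_zero, Nat.add_zero]; exact htl) (by omega)
          rwa [Nat.add_sub_cancel] at hl
        · omega

end Pool.Agent.H21.NX
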