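import Pool.Agent.H21.NX.VPeel

/-!
# Module VRun: the Horace steps, every dimension
-/

namespace Pool.Agent.H21.NX

open Finset Pool.Agent.H18.Ex

/-- One step: `a` points of multiplicity `μ` and a part of the points `R` are put on the
hyperplane, the rest of the trace is filled by differential points of multiplicity `μ`. -/
theorem ustepV {s M D0 : ℕ} (h : VNum s M D0) (l : Fin (s + 2)) (S μ a : ℕ) (hS : D0 + 1 ≤ S)
    (hμ : 2 ≤ μ) (hμM : μ ≤ M) (Φ : Multiset (ℕ × ℕ)) (R : Multiset ℕ) (g : ℕ) (hΦ : OKF M Φ)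
    (hR : ∀ m ∈ R, 1 ≤ m ∧ m ≤ M)
    (hx : 2 * M * (tl s Φ + a * ell s μ) ≤ (2 * M - 1) * ell s S)
    (hg1 : GG s M ≤ g) (hg2 : g ≤ M * GG s M)
    (hT1 : ell (s + 1) S ≤ fl s Φ + a * ell (s + 1) μ + tot (s + 1) R + g * ell (s + 1) μ) :
    ∃ (N0 Q : Multiset ℕ) (ρ : ℕ), R = N0 + Q ∧ ρ ≤ GG s M ∧
      tl s Φ + tot s N0 + a * ell s μ + ρ = ell s S ∧
      2 * M * tl s (nxt Φ N0 μ a ρ) ≤ (2 * M - 1) * ell s (S - 1) ∧
      (GM (Sx (Fin (s + 2)) (S - 2)) (fk l (nxt Φ N0 μ a ρ) + Q.map Kind.free +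
        Multiset.replicate (g - ρ) (Kind.free μ)) →
      GM (Sx (Fin (s + 2)) (S - 1)) (fk l Φ + R.map Kind.free +
        Multiset.replicate (a + g) (Kind.free μ))) := by
  have hs := h.s1
  have hE1 := h.E1
  have hM := h.hM
  have hDM := h.hD
  have hr1 := h.below (S := S) (by omega) hx
  have hr2 := h.r2 (S := S - 1) (by omega)
  have hr3 := h.r3 (S := S - 1) (by omega)
  have hES : 0 < ell s S := ell_pos _ (by omega)
  have hEμ : ell s μ ≤ ell s M := ell_mono _ hμM
  -- there are enough points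
  have hfit : ell s S ≤ tl s Φ + a * ell s μ + tot s R + ell s M ^ 2 := by
    by_contra hcon
    push Not at hcon
    have e1 : (s + 1) * fl s Φ ≤ (M + s) * tl s Φ := fl_le_tl s hs hΦ
    have e2 : (s + 1) * (a * ell (s + 1) μ) ≤ (M + s) * (a * ell s μ) := by
      calc (s + 1) * (a * ell (s + 1) μ) = a * ((s + 1) * ell (s + 1) μ) := by ring
        _ = a * ((μ + s) * ell s μ) := by rw [ell_succ_mul s μ hs]
        _ ≤ a * ((M + s) * ell s μ) :=
            Nat.mul_le_mul_left _ (Nat.mul_le_mul_right _ (by omega))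
        _ = _ := by ring
    have e3 : (s + 1) * tot (s + 1) R ≤ (M + s) * tot s R :=
      tot_succ_le s hs fun m hm => (hR m hm).2
    have e4 : (s + 1) * (g * ell (s + 1) μ) ≤ (M + s) * (g * ell s M) := by
      calc (s + 1) * (g * ell (s + 1) μ) = g * ((s + 1) * ell (s + 1) μ) := by ring
        _ = g * ((μ + s) * ell s μ) := by rw [ell_succ_mul s μ hs]
        _ ≤ g * ((M + s) * ell s M) :=
            Nat.mul_le_mul_left _ (Nat.mul_le_mul (by omega) hEμ)
        _ = _ := by ring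
    have e5 : (S + s) * ell s S = (s + 1) * ell (s + 1) S := ell_succ_mul s S hs
    have e6 : (S + s) * ell s S ≤ (M + s) * (ell s S + g * ell s M) := by
      calc (S + s) * ell s S = (s + 1) * ell (s + 1) S := e5
        _ ≤ (s + 1) * (fl s Φ + a * ell (s + 1) μ + tot (s + 1) R + g * ell (s + 1) μ) :=
            Nat.mul_le_mul_left _ hT1
        _ = (s + 1) * fl s Φ + (s + 1) * (a * ell (s + 1) μ) + (s + 1) * tot (s + 1) R +
            (s + 1) * (g * ell (s + 1) μ) := by ring
        _ ≤ (M + s) * tl s Φ + (M + s) * (a * ell s μ) + (M + s) * tot s R +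
            (M + s) * (g * ell s M) := by omega
        _ = (M + s) * (tl s Φ + a * ell s μ + tot s R + g * ell s M) := by ring
        _ ≤ _ := Nat.mul_le_mul_left _ (by omega)
    have e7 : 2 * (g * ell s M) ≤ ell s (S - 1) := by
      refine le_trans ?_ hr3
      exact Nat.mul_le_mul_left _ (Nat.mul_le_mul_right _ hg2)
    have e8 : (M + s) * ell s (S - 1) ≤ (S - 1) * ell s S := by
      have hrel : ell s (S - 1) * (S - 1 + s) = ell s S * (S - 1) := by
        have := ell_mul_add s (S - 1) hs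
        rwa [Nat.sub_add_cancel (by omega)] at this
      calc (M + s) * ell s (S - 1) ≤ (S - 1 + s) * ell s (S - 1) :=
            Nat.mul_le_mul_right _ (by omega)
        _ = ell s (S - 1) * (S - 1 + s) := by ring
        _ = ell s S * (S - 1) := hrel
        _ = _ := by ring
    have e9 : 2 * (S + s) * ell s S ≤ (2 * (M + s) + (S - 1)) * ell s S := by
      calc 2 * (S + s) * ell s S = 2 * ((S + s) * ell s S) := by ring
        _ ≤ 2 * ((M + s) * (ell s S + g * ell s M)) := Nat.mul_le_mul_left _ e6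
        _ = 2 * (M + s) * ell s S + (M + s) * (2 * (g * ell s M)) := by ring
        _ ≤ 2 * (M + s) * ell s S + (M + s) * ell s (S - 1) :=
            Nat.add_le_add_left (Nat.mul_le_mul_left _ e7) _
        _ ≤ 2 * (M + s) * ell s S + (S - 1) * ell s S := Nat.add_le_add_left e8 _
        _ = _ := by ring
    have e10 := Nat.le_of_mul_le_mul_right e9 hES
    omega
  obtain ⟨N0, hN0R, hN1, hN2⟩ := greedy_below s M (tl s Φ + a * ell s μ)
    (ell s S - ell s M ^ 2) (by omega) R (fun m hm => (hR m hm).2) (by omega)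
  obtain ⟨Q, hQ⟩ := Multiset.le_iff_exists_add.1 hN0R
  have hN0 : ∀ m ∈ N0, 1 ≤ m ∧ m ≤ M := fun m hm => hR m (Multiset.mem_of_le hN0R hm)
  obtain ⟨ρ, hρ⟩ : ∃ ρ, ρ = ell s S - tl s Φ - a * ell s μ - tot s N0 := ⟨_, rfl⟩
  have hsum : tl s Φ + tot s N0 + a * ell s μ + ρ = ell s S := by omega
  have hρ1 : ell s M ^ 2 ≤ ρ := by omega
  have hρ2 : ρ ≤ GG s M := by
    unfold GG
    omega
  have htrc : trc Φ N0 μ a ρ = (Φ.map Prod.fst + N0 + Multiset.replicate a μ) +
      Multiset.replicate ρ 1 := rfl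
  have hT1M : ∀ t ∈ Φ.map Prod.fst + N0 + Multiset.replicate a μ, t ≤ M := by
    intro t ht
    rcases Multiset.mem_add.1 ht with ht | ht
    · rcases Multiset.mem_add.1 ht with ht | ht
      · obtain ⟨x, hx, rfl⟩ := Multiset.mem_map.1 ht
        exact (hΦ x hx).2.2.2
      · exact (hN0 t ht).2
    · rw [Multiset.eq_of_mem_replicate ht]
      exact hμM
  have htM : ∀ t ∈ trc Φ N0 μ a ρ, t ≤ M := by
    intro t ht
    rw [htrc] at ht
    rcases Multiset.mem_add.1 ht with ht | ht
    · exact hT1M t ht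
    · rw [Multiset.eq_of_mem_replicate ht]
      exact hM
  have htot1 : tot s (Φ.map Prod.fst + N0 + Multiset.replicate a μ) =
      tl s Φ + tot s N0 + a * ell s μ := by
    rw [tot_add, tot_add, tot_replicate]
    congr 2
    unfold tot tl
    rw [Multiset.map_map]
    rfl
  refine ⟨N0, Q, ρ, hQ, hρ2, hsum, ?_, ?_⟩
  · -- the new load
    have htl := tl_nxt (α := a) (ρ := ρ) (μ := μ) (N0 := N0) s (M - 1) hs hΦ
      (fun m hm => (hN0 m hm).2) (by omega) (by omega)
    refine h.load (S := S) (e := ρ * ell s μ) hS (le_trans htl ?_) ?_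
    · exact Nat.add_le_add_right (Nat.mul_le_mul_left _ (by omega)) _
    · exact le_trans (Nat.mul_le_mul_left _ (Nat.mul_le_mul hρ2 hEμ)) hr2
  · intro hGM
    have hstep := stageQ s hs l (S - 1) (by omega) Φ N0 (Q + Multiset.replicate (g - ρ) μ) μ a ρ M
      (by omega) (fun x hx => (hΦ x hx).2.2.1) htM ?_ ?_ ?_
    · rw [hQ, Multiset.map_add]
      rw [Multiset.map_add, Multiset.map_replicate] at hstep
      have hpq : Multiset.replicate (a + g) (Kind.free μ : Kind (Fin (s + 2))) =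
          Multiset.replicate (a + ρ) (Kind.free μ) +
            Multiset.replicate (g - ρ) (Kind.free μ) := by
        rw [← Multiset.replicate_add]
        congr 1
        omega
      rw [hpq]
      have e : fk l Φ + N0.map Kind.free + Multiset.replicate (a + ρ) (Kind.free μ) +
          (Q.map Kind.free + Multiset.replicate (g - ρ) (Kind.free μ)) =
          fk l Φ + (N0.map Kind.free + Q.map Kind.free) +
            (Multiset.replicate (a + ρ) (Kind.free μ) +
              Multiset.replicate (g - ρ) (Kind.free μ)) := by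
        abel
      rw [e] at hstep
      exact hstep
    · intro t ht ht2
      rw [htrc]
      rw [show S - 1 + 1 = S by omega]
      exact window_cond' s hs _ ρ M _ (by rw [htot1]; omega) t ht2 (htM t ht)
    · rw [show S - 1 + 1 = S by omega]
      omega
    · rw [Multiset.map_add, Multiset.map_replicate, ← add_assoc]
      rwa [show S - 1 - 1 = S - 2 by omega]


theorem fk_nxt_dn {ι : Type} [DecidableEq ι] (l : ι) (Ψ : Multiset (ℕ × ℕ)) :
    fk l (nxt Ψ 0 1 0 0) ≤ (fk l Ψ).map (Kind.dn l) := by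
  have h1 : fk l (nxt Ψ 0 1 0 0) ≤ fk l (Ψ.map (fun x : ℕ × ℕ => (x.1 - 1, x.2))) := by
    refine Multiset.map_le_map ?_
    unfold nxt
    refine le_trans (Multiset.filter_le _ _) (le_of_eq ?_)
    rw [Multiset.map_zero, Multiset.replicate_zero, Multiset.replicate_zero, add_zero, add_zero,
      add_zero]
  refine le_trans h1 (le_of_eq ?_)
  unfold fk
  rw [Multiset.map_map, Multiset.map_map]
  refine Multiset.map_congr rfl fun x _ => ?_
  simp [Kind.dn]

/-- The last stage: the batch is simple. -/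
theorem uendV {s M D0 μ a : ℕ} (h : VNum s M D0) (l : Fin (s + 2)) (σ : ℕ) (hσ : D0 ≤ σ)
    (hμ : 2 ≤ μ) (hμM : μ ≤ M)
    (ha : (σ + 1) * GG s M + ell (s + 1) M + ell s M ^ 2 + ell (s + 1) D0 ≤ a)
    (he : 2 * M * (σ * (WW s M + ell s M) + base s M D0) ≤ ell s (σ + 1))
    (Ψ : Multiset (ℕ × ℕ)) (R : Multiset ℕ) (g : ℕ) (hΨ : OKF M Ψ)
    (hcount : a ≤ Ψ.count (1, 1)) (hR : ∀ m ∈ R, 1 ≤ m ∧ m ≤ M)
    (hT1 : ell (s + 1) (σ + 1) ≤ fl s Ψ + tot (s + 1) R + g * ell (s + 1) μ)
    (hT2 : fl s Ψ + tot (s + 1) R + g * ell (s + 1) μ ≤ ell (s + 1) (σ + 1) + ell (s + 1) M)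
    (hload : 2 * M * tl s Ψ ≤ (2 * M - 1) * ell s (σ + 1)) :
    GM (Sx (Fin (s + 2)) σ) (fk l Ψ + R.map Kind.free + Multiset.replicate g (Kind.free μ)) := by
  have hs := h.s1
  have hM := h.hM
  have hDM := h.hD
  rw [Multiset.le_count_iff_replicate_le] at hcount
  obtain ⟨Ψ1, hΨ1⟩ := Multiset.le_iff_exists_add.1 hcount
  have hOK1 : OKF M Ψ1 := fun x hx => hΨ x (by
    rw [hΨ1]
    exact Multiset.mem_add.2 (Or.inr hx))
  have hfl : fl s Ψ = a + fl s Ψ1 := by
    rw [hΨ1]
    unfold fl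
    rw [Multiset.map_add, Multiset.sum_add, Multiset.map_replicate, Multiset.sum_replicate,
      smul_eq_mul]
    change a * (ell (s + 1) 1 + 1 - 1) + _ = _
    rw [ell_one, Nat.add_sub_cancel, Nat.mul_one]
  have htl : tl s Ψ = a + tl s Ψ1 := by
    rw [hΨ1, tl_add, tl_replicate, ell_one, Nat.mul_one]
  have hfk : fk l Ψ = Multiset.replicate a (Kind.forced l 1 1) + fk l Ψ1 := by
    rw [hΨ1]
    unfold fk
    rw [Multiset.map_add, Multiset.map_replicate]
  have hRg : ∀ m ∈ R + Multiset.replicate g μ, 1 ≤ m ∧ m ≤ M := by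
    intro m hm
    rcases Multiset.mem_add.1 hm with hm | hm
    · exact hR m hm
    · rw [Multiset.eq_of_mem_replicate hm]
      omega
  have htotRg : tot (s + 1) (R + Multiset.replicate g μ) =
      tot (s + 1) R + g * ell (s + 1) μ := by
    rw [tot_add, tot_replicate]
  have hload1 : 2 * M * tl s Ψ1 ≤ (2 * M - 1) * ell s (σ + 1) :=
    le_trans (Nat.mul_le_mul_left _ (by omega)) hload
  have hmain := GM.bridge (Sx (Fin (s + 2)) σ) (Sx (Fin (s + 2)) (σ - 1)) l
    (fun b => Sx_resid σ (by omega) l b)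
    (fk l Ψ1 + R.map Kind.free + Multiset.replicate g (Kind.free μ)) a ?_ ?_
  · rw [hfk]
    have e : Multiset.replicate a (Kind.forced l 1 1) + fk l Ψ1 + R.map Kind.free +
        Multiset.replicate g (Kind.free μ) =
        fk l Ψ1 + R.map Kind.free + Multiset.replicate g (Kind.free μ) +
          Multiset.replicate a (Kind.forced l 1 1) := by
      abel
    rw [e]
    exact hmain
  · have hp := peel_longV h l (ell (s + 1) M) (σ + 1) Ψ1 (R + Multiset.replicate g μ) a hOK1 hRg
      (by rw [htotRg]; omega) (by rw [htotRg]; omega) hload1 (by omega)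
    rw [Nat.add_sub_cancel, Multiset.map_add, Multiset.map_replicate, ← add_assoc] at hp
    exact hp
  · have hE : ell (s + 1) (σ + 1) = ell (s + 1) σ + ell s (σ + 1) := ell_succ s σ
    have hOK2 : OKF M (nxt Ψ1 0 1 0 0) :=
      OKF_nxt hOK1 (fun m hm => absurd hm (Multiset.notMem_zero m)) (Nat.le_succ _) (by omega)
        (Or.inl rfl)
    have hfl2 := fl_nxt (α := 0) (ρ := 0) (μ := 1) (N0 := 0) s hs hOK1
      (fun m hm => absurd hm (Multiset.notMem_zero m)) le_rfl (Or.inl rfl)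
    rw [show tot s (0 : Multiset ℕ) = 0 from rfl, show tot (s + 1) (0 : Multiset ℕ) = 0 from rfl]
      at hfl2
    simp only [Nat.zero_mul, Nat.add_zero] at hfl2
    have htl2 := tl_nxt (α := 0) (ρ := 0) (μ := 1) (N0 := 0) s (M - 1) hs hOK1
      (fun m hm => absurd hm (Multiset.notMem_zero m)) (by omega) (by omega)
    rw [show tot s (0 : Multiset ℕ) = 0 from rfl] at htl2
    simp only [Nat.zero_mul, Nat.add_zero, Nat.mul_zero] at htl2
    have htl1 : tl s Ψ1 ≤ ell s (σ + 1) := by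
      have := h.below (S := σ + 1) (by omega) hload1
      omega
    have hl2 := h.load (S := σ + 1) (t := tl s (nxt Ψ1 0 1 0 0)) (e := 0) (by omega)
      (by
        rw [Nat.mul_zero, Nat.add_zero]
        exact le_trans htl2 (Nat.mul_le_mul_left _ htl1)) (by omega)
    rw [Nat.add_sub_cancel] at hl2
    have hslack : tl s Ψ + (σ * (WW s M + ell s M) + base s M D0) ≤ ell s (σ + 1) := by
      have hpos : 0 < 2 * M := by omega
      refine Nat.le_of_mul_le_mul_left ?_ hpos
      have h2 : (2 * M - 1) * ell s (σ + 1) + ell s (σ + 1) = 2 * M * ell s (σ + 1) := by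
        obtain ⟨K, hK⟩ : ∃ K, 2 * M = K + 1 := ⟨2 * M - 1, by omega⟩
        rw [hK, Nat.add_sub_cancel]
        ring
      calc 2 * M * (tl s Ψ + (σ * (WW s M + ell s M) + base s M D0)) =
          2 * M * tl s Ψ + 2 * M * (σ * (WW s M + ell s M) + base s M D0) := by ring
        _ ≤ (2 * M - 1) * ell s (σ + 1) + ell s (σ + 1) := Nat.add_le_add hload he
        _ = _ := h2
    have hov := over_peel h l σ hσ (nxt Ψ1 0 1 0 0) (R + Multiset.replicate g μ) hOK2 hRg hl2
      (by rw [htotRg]; omega)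
    refine GM.mono ?_ hov
    rw [Multiset.map_add, Multiset.map_add, Multiset.map_add, Multiset.map_map,
      Multiset.map_replicate, Multiset.map_replicate,
      add_assoc (Multiset.map (Kind.dn l) (fk l Ψ1))]
    exact add_le_add (fk_nxt_dn l Ψ1) le_rfl

theorem urunV {s M D0 d μ a : ℕ} (h : VNum s M D0) (l : Fin (s + 2)) (hμ : 2 ≤ μ) (hμM : μ ≤ M)
    (hd : D0 + M ≤ d)
    (ha : (d + 1) * GG s M + ell (s + 1) M + ell s M ^ 2 + ell (s + 1) D0 ≤ a)
    (he : 2 * M * ((d + 1) * (WW s M + ell s M) + base s M D0) ≤ ell s (d + 2 - M)) :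
    ∀ c, 1 ≤ c → c < μ → ∀ (Ψ : Multiset (ℕ × ℕ)) (R : Multiset ℕ) (g : ℕ), OKF M Ψ →
      a ≤ Ψ.count (c, 1) → (∀ m ∈ R, 1 ≤ m ∧ m ≤ M) →
      ell (s + 1) (d - μ + 1 + c) ≤ fl s Ψ + tot (s + 1) R + g * ell (s + 1) μ →
      fl s Ψ + tot (s + 1) R + g * ell (s + 1) μ ≤
        ell (s + 1) (d - μ + 1 + c) + ell (s + 1) M →
      2 * M * tl s Ψ ≤ (2 * M - 1) * ell s (d - μ + 1 + c) → c * GG s M ≤ g → g ≤ M * GG s M →
      GM (Sx (Fin (s + 2)) (d - μ + c)) (fk l Ψ + R.map Kind.free +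
        Multiset.replicate g (Kind.free μ)) := by
  have hs := h.s1
  have hM := h.hM
  intro c
  induction c with
  | zero => intro h0; omega
  | succ c ih =>
    intro _ hcμ Ψ R g hΨ hcount hR hT1 hT2 hload hg1 hg2
    rcases Nat.eq_zero_or_pos c with hc0 | hc0
    · subst hc0
      refine uendV h l (d - μ + (0 + 1)) (by omega) hμ hμM ?_ ?_ Ψ R g hΨ hcount hR ?_ ?_ ?_
      · refine le_trans ?_ ha
        have : (d - μ + (0 + 1) + 1) * GG s M ≤ (d + 1) * GG s M :=
          Nat.mul_le_mul_right _ (by omega)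
        omega
      · refine le_trans ?_ (le_trans he (ell_mono _ (by omega)))
        refine Nat.mul_le_mul_left _ (Nat.add_le_add_right (Nat.mul_le_mul_right _ ?_) _)
        omega
      · rw [show d - μ + (0 + 1) + 1 = d - μ + 1 + (0 + 1) by omega]
        exact hT1
      · rw [show d - μ + (0 + 1) + 1 = d - μ + 1 + (0 + 1) by omega]
        exact hT2
      · rw [show d - μ + (0 + 1) + 1 = d - μ + 1 + (0 + 1) by omega]
        exact hload
    · have hGG : (c + 1) * GG s M = c * GG s M + GG s M := by ring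
      obtain ⟨N0, Q, ρ, hQ, hρ, hsum, hload', himp⟩ := ustepV h l (d - μ + 1 + (c + 1)) μ 0
        (by omega) hμ hμM Ψ R g hΨ hR (by rw [Nat.zero_mul, Nat.add_zero]; exact hload) (by omega) hg2
        (by omega)
      rw [show d - μ + 1 + (c + 1) - 1 = d - μ + (c + 1) by omega, Nat.zero_add g] at himp
      refine himp ?_
      rw [show d - μ + 1 + (c + 1) - 2 = d - μ + c by omega]
      have hN0 : ∀ m ∈ N0, 1 ≤ m ∧ m ≤ M := fun m hm => hR m (by
        rw [hQ]
        exact Multiset.mem_add.2 (Or.inl hm))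
      have hQm : ∀ m ∈ Q, 1 ≤ m ∧ m ≤ M := fun m hm => hR m (by
        rw [hQ]
        exact Multiset.mem_add.2 (Or.inr hm))
      have hfl := fl_nxt (α := 0) (ρ := ρ) (μ := μ) (N0 := N0) s hs hΨ
        (fun m hm => (hN0 m hm).1) (by omega) (Or.inr hμ)
      have hF : ell (s + 1) (d - μ + 1 + (c + 1)) =
          ell (s + 1) (d - μ + 1 + c) + ell s (d - μ + 1 + (c + 1)) :=
        ell_succ s (d - μ + 1 + c)
      have htotR : tot (s + 1) R = tot (s + 1) N0 + tot (s + 1) Q := by rw [hQ, tot_add]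
      have hgρ : g * ell (s + 1) μ = ρ * ell (s + 1) μ + (g - ρ) * ell (s + 1) μ := by
        rw [← Nat.add_mul]
        congr 1
        omega
      rw [Nat.zero_add ρ] at hfl
      refine ih hc0 (by omega) (nxt Ψ N0 μ 0 ρ) Q (g - ρ) ?_ (count_nxt hc0 hcount) hQm ?_ ?_ ?_
        ?_ ?_
      · exact OKF_nxt hΨ (fun m hm => (hN0 m hm).2) (Nat.le_succ _) (by omega) (Or.inr hμM)
      · omega
      · omega
      · exact hload'
      · omega
      · omega

end Pool.Agent.H21.NX
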